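import Pool.Agent.NH10.GM.Near

/-! # The prime side near the edge: the bound -/

set_option autoImplicit false
set_option maxHeartbeats 4000000

open Filter Topology Set MeasureTheory ArithmeticFunction

namespace Pool.Agent.NH10.GM

open Pool.Agent.Y749.Rig

/-- the prime sum on a window -/
lemma SM_le {T a L u : ℝ} (hT : 0 < T) (ha : 2 ≤ a) (hau : a ≤ u) (huL : u ≤ L + 1) :
    SM T u ≤ (∑ n ∈ Finset.Ioc ⌊Real.exp (a - 2)⌋₊ ⌊Real.exp (L + 2)⌋₊, al n * lw T u n) +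
      Real.exp (-(T ^ 2 / 4)) * Real.exp (3 * (L + 1) + 9 / T ^ 2) * ∑' n, lm n := by
  classical
  obtain ⟨A, hA⟩ : ∃ A : Finset ℕ, A = Finset.Ioc ⌊Real.exp (a - 2)⌋₊ ⌊Real.exp (L + 2)⌋₊ :=
    ⟨_, rfl⟩
  rw [← hA]
  have hfin : HasSum (fun n => if n ∈ A then al n * lw T u n else 0)
      (∑ n ∈ A, al n * lw T u n) := by
    have h1 : HasSum (fun n => if n ∈ A then al n * lw T u n else 0)
        (∑ n ∈ A, (if n ∈ A then al n * lw T u n else 0)) :=
      hasSum_sum_of_ne_finset_zero fun n hn => if_neg hn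
    have h2 : ∑ n ∈ A, (if n ∈ A then al n * lw T u n else 0) = ∑ n ∈ A, al n * lw T u n :=
      Finset.sum_congr rfl fun n hn => if_pos hn
    rwa [h2] at h1
  have hE0 : 0 < Real.exp (-(T ^ 2 / 4)) * Real.exp (3 * (L + 1) + 9 / T ^ 2) := by positivity
  have hsum := hfin.summable.add
    (lm_sum.mul_left (Real.exp (-(T ^ 2 / 4)) * Real.exp (3 * (L + 1) + 9 / T ^ 2)))
  have hle : SM T u ≤ ∑' n, ((if n ∈ A then al n * lw T u n else 0) +
      Real.exp (-(T ^ 2 / 4)) * Real.exp (3 * (L + 1) + 9 / T ^ 2) * lm n) := by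
    refine (term_sum hT u).tsum_le_tsum (fun n => ?_) hsum
    by_cases hn : n ∈ A
    · rw [if_pos hn]
      have := mul_nonneg hE0.le (lm_nonneg n)
      linarith
    · rw [if_neg hn, zero_add]
      rcases Nat.eq_zero_or_pos n with h0 | h0
      · subst h0
        simp [al, lm]
      · have hn0 : (0 : ℝ) < n := by exact_mod_cast h0
        have hd : 1 ≤ (u - Real.log n) ^ 2 := by
          rw [hA, Finset.mem_Ioc, not_and_or, not_lt, not_le] at hn
          rcases hn with hn | hn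
          · have h1 : (n : ℝ) ≤ Real.exp (a - 2) := by
              refine le_trans ?_ (Nat.floor_le (Real.exp_pos _).le)
              exact_mod_cast hn
            have h2 : Real.log n ≤ a - 2 := by
              rw [Real.log_le_iff_le_exp hn0]
              exact h1
            nlinarith
          · have h1 : Real.exp (L + 2) < n := Nat.lt_of_floor_lt hn
            have h2 : L + 2 < Real.log n := by
              rw [Real.lt_log_iff_exp_lt hn0]
              exact h1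
            nlinarith
        refine (term_far hT h0 hd).trans ?_
        refine mul_le_mul_of_nonneg_right ?_ (lm_nonneg n)
        refine mul_le_mul_of_nonneg_left (Real.exp_le_exp.2 ?_) (Real.exp_pos _).le
        linarith
  refine hle.trans (le_of_eq ?_)
  rw [hfin.summable.tsum_add (lm_sum.mul_left _), hfin.tsum_eq, tsum_mul_left]

lemma exp_two : Real.exp 2 ≤ 8 := by
  have h1 := Real.exp_one_lt_d9
  have h2 : Real.exp 2 = Real.exp 1 ^ 2 := by
    rw [← Real.exp_nat_mul]; norm_num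
  rw [h2]
  have h3 := Real.exp_pos 1
  nlinarith

/-- **the edge** -/
theorem near_bd {ε : ℝ} (hε : 0 < ε) : ∃ δ : ℝ, 0 < δ ∧ δ ≤ 1 / 4 ∧ ∀ᶠ T in atTop,
    T / Real.log T ^ 2 * ∫ u in ((1 - δ) * Real.log T)..(Real.log T + 1), Vs T u ^ 2 ≤ ε := by
  have hW := WZ_nonneg
  have hsq : 0 < Real.sqrt (2 * Real.pi) := Real.sqrt_pos.2 (by positivity)
  obtain ⟨D, hD⟩ : ∃ D : ℝ, D = ∑' n, lm n := ⟨_, rfl⟩
  have hD0 : 0 ≤ D := by rw [hD]; exact tsum_nonneg lm_nonneg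
  obtain ⟨K, hK⟩ : ∃ K : ℝ, K = 4 * (384 * WZ * Real.sqrt (2 * Real.pi)) := ⟨_, rfl⟩
  have hK0 : 0 ≤ K := by rw [hK]; positivity
  obtain ⟨δ, hδ⟩ : ∃ δ : ℝ, δ = min (1 / 4) (ε / (2 * (K + 1))) := ⟨_, rfl⟩
  have hδ0 : 0 < δ := by rw [hδ]; exact lt_min (by norm_num) (by positivity)
  have hδ1 : δ ≤ 1 / 4 := by rw [hδ]; exact min_le_left _ _
  have hδ2 : K * δ ≤ ε / 2 := by
    have : δ ≤ ε / (2 * (K + 1)) := by rw [hδ]; exact min_le_right _ _
    rw [le_div_iff₀ (by positivity)] at this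
    nlinarith
  obtain ⟨E1, hE1⟩ : ∃ E1 : ℝ, E1 = Real.exp 4 * D := ⟨_, rfl⟩
  have hE10 : 0 ≤ E1 := by rw [hE1]; positivity
  obtain ⟨K2, hK2⟩ : ∃ K2 : ℝ, K2 = 40 * K + 2 * (4 * E1 ^ 2 + 2 * (2 * Real.pi * 8)) := ⟨_, rfl⟩
  have hK20 : 0 ≤ K2 := by rw [hK2]; positivity
  refine ⟨δ, hδ0, hδ1, ?_⟩
  filter_upwards [eventually_ge_atTop (4 * (2 + 3) + 10 : ℝ),
    Real.tendsto_log_atTop.eventually_ge_atTop (10 + 2 * K2 / ε)] with T hT hLL
  have hT0 : 0 < T := by linarith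
  obtain ⟨L, hLe⟩ : ∃ L : ℝ, L = Real.log T := ⟨_, rfl⟩
  rw [← hLe] at hLL ⊢
  have hq : 0 ≤ 2 * K2 / ε := by positivity
  have hL10 : 10 ≤ L := by linarith
  have hL0 : 0 < L := by linarith
  have hexpL : Real.exp L = T := by rw [hLe]; exact Real.exp_log hT0
  obtain ⟨a, ha⟩ : ∃ a : ℝ, a = (1 - δ) * L := ⟨_, rfl⟩
  rw [← ha]
  have ha2 : 3 ≤ a := by rw [ha]; nlinarith
  have haL : a ≤ L := by rw [ha]; nlinarith
  have hba : L + 1 - a = δ * L + 1 := by rw [ha]; ring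
  obtain ⟨N₁, hN₁⟩ : ∃ N₁ : ℕ, N₁ = ⌊Real.exp (a - 2)⌋₊ := ⟨_, rfl⟩
  obtain ⟨N₂, hN₂⟩ : ∃ N₂ : ℕ, N₂ = ⌊Real.exp (L + 2)⌋₊ := ⟨_, rfl⟩
  have hy1 : 1 ≤ Real.exp (a - 2) := Real.one_le_exp (by linarith)
  have hN1 : 1 ≤ N₁ := by
    rw [hN₁]
    exact Nat.le_floor (by simpa using hy1)
  have hN12 : N₁ ≤ N₂ := by
    rw [hN₁, hN₂]
    exact Nat.floor_le_floor (Real.exp_le_exp.2 (by linarith))
  have hN2T : (N₂ : ℝ) ≤ 8 * T := by
    rw [hN₂]
    refine (Nat.floor_le (Real.exp_pos _).le).trans ?_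
    rw [Real.exp_add, hexpL, mul_comm]
    exact mul_le_mul_of_nonneg_right exp_two hT0.le
  have hN1' : (0 : ℝ) < N₁ := by exact_mod_cast hN1
  have hN2' : (0 : ℝ) < N₂ := by exact_mod_cast (hN1.trans hN12)
  have hlogN2 : Real.log N₂ ≤ L + 2 := by
    rw [Real.log_le_iff_le_exp hN2', hN₂]
    exact Nat.floor_le (Real.exp_pos _).le
  have hlogN1 : a - 3 ≤ Real.log N₁ := by
    have h1 : Real.exp (a - 2) < N₁ + 1 := by rw [hN₁]; exact Nat.lt_floor_add_one _
    have h2 : (1 : ℝ) ≤ N₁ := by exact_mod_cast hN1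
    have h3 : Real.exp (a - 3) ≤ N₁ := by
      have e : Real.exp (a - 2) = Real.exp (a - 3) * Real.exp 1 := by
        rw [← Real.exp_add]; congr 1; ring
      have h4 : 2 ≤ Real.exp 1 := by have := Real.add_one_le_exp (1 : ℝ); linarith
      have h5 := Real.exp_pos (a - 3)
      nlinarith
    rw [Real.le_log_iff_exp_le hN1']
    exact h3
  have hAmem : ∀ n ∈ Finset.Ioc N₁ N₂, 1 ≤ n ∧ (n : ℝ) ≤ 8 * T := by
    intro n hn
    rw [Finset.mem_Ioc] at hn
    refine ⟨by omega, le_trans ?_ hN2T⟩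
    exact_mod_cast hn.2
  have hal2 : ∑ n ∈ Finset.Ioc N₁ N₂, al n ^ 2 ≤ (L + 2) * (δ * L + 12) := by
    have h1 : ∑ n ∈ Finset.Ioc N₁ N₂, al n ^ 2 ≤
        ∑ n ∈ Finset.Ioc N₁ N₂, (L + 2) * (vonMangoldt n / n) := by
      refine Finset.sum_le_sum fun n hn => ?_
      have hn1 := (hAmem n hn).1
      have hn0 : (0 : ℝ) < n := by exact_mod_cast hn1
      refine (al_sq hn1).trans (mul_le_mul_of_nonneg_right ?_
        (div_nonneg vonMangoldt_nonneg hn0.le))
      refine le_trans (Real.log_le_log hn0 ?_) hlogN2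
      rw [Finset.mem_Ioc] at hn
      exact_mod_cast hn.2
    rw [← Finset.mul_sum] at h1
    refine h1.trans (mul_le_mul_of_nonneg_left ?_ (by linarith))
    have h2 := mertens_win hN1 hN12
    linarith
  -- the small term
  obtain ⟨E, hE⟩ : ∃ E : ℝ, E = Real.exp (-(T ^ 2 / 4)) *
    Real.exp (3 * (L + 1) + 9 / T ^ 2) * ∑' n, lm n := ⟨_, rfl⟩
  have hE0 : 0 ≤ E := by
    rw [hE, ← hD]
    positivity
  have hET : E * T ≤ E1 := by
    have h1 := small_T (B := 2) (T := T) (u := 2 * L) (by norm_num) hT (by rw [hLe])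
    have h2 : Real.exp (3 * (L + 1) + 9 / T ^ 2) ≤ Real.exp 4 * Real.exp (3 * L) := by
      rw [← Real.exp_add]
      apply Real.exp_le_exp.2
      have : 9 / T ^ 2 ≤ 1 := by
        rw [div_le_one (by positivity)]
        nlinarith
      linarith
    have h3 : Real.exp (3 * L) = Real.exp (2 * L) * T := by
      rw [← hexpL, ← Real.exp_add]; congr 1; ring
    have h4 : -T ^ 2 / 4 = -(T ^ 2 / 4) := by ring
    rw [h4] at h1
    rw [hE, ← hD, hE1]
    calc Real.exp (-(T ^ 2 / 4)) * Real.exp (3 * (L + 1) + 9 / T ^ 2) * D * T ≤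
          Real.exp (-(T ^ 2 / 4)) * (Real.exp 4 * Real.exp (3 * L)) * D * T := by gcongr
      _ = Real.exp 4 * D * (Real.exp (2 * L) * (T ^ 2 * Real.exp (-(T ^ 2 / 4)))) := by
          rw [h3]; ring
      _ ≤ Real.exp 4 * D * 1 := mul_le_mul_of_nonneg_left h1 (by positivity)
      _ = _ := mul_one _
  have hE2 : E ^ 2 ≤ E1 ^ 2 / T := by
    rw [le_div_iff₀ hT0]
    have h1 : (E * T) ^ 2 ≤ E1 ^ 2 := pow_le_pow_left₀ (by positivity) hET 2
    have h2 : E ^ 2 * T ≤ (E * T) ^ 2 := by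
      have : T ≤ T ^ 2 := by nlinarith
      calc E ^ 2 * T ≤ E ^ 2 * T ^ 2 := by gcongr
        _ = _ := by ring
    linarith
  -- the pointwise bound
  have hpt : ∀ u ∈ Icc a (L + 1), Vs T u ^ 2 ≤
      4 * (∑ n ∈ Finset.Ioc N₁ N₂, al n * lw T u n) ^ 2 +
        (4 * E ^ 2 + 2 * (2 * Real.pi * 8 / T)) := by
    intro u hu
    have h1 := SM_le (L := L) hT0 (by linarith) hu.1 hu.2
    rw [← hN₁, ← hN₂, ← hE] at h1
    have h0 : 0 ≤ SM T u := tsum_nonneg (term_nonneg T u)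
    obtain ⟨Sg, hSg⟩ : ∃ Sg : ℝ, Sg = ∑ n ∈ Finset.Ioc N₁ N₂, al n * lw T u n := ⟨_, rfl⟩
    rw [← hSg] at h1 ⊢
    obtain ⟨M, hM⟩ : ∃ M : ℝ, M = Real.sqrt (2 * Real.pi) / T *
      Real.exp (u / 2 + 1 / (8 * T ^ 2)) := ⟨_, rfl⟩
    have hM2 : M ^ 2 ≤ 2 * Real.pi * 8 / T := by
      rw [hM, mul_pow, div_pow, Real.sq_sqrt (by positivity), ← Real.exp_nat_mul]
      have h3 : Real.exp (((2 : ℕ) : ℝ) * (u / 2 + 1 / (8 * T ^ 2))) ≤ 8 * T := by
        refine le_trans (Real.exp_le_exp.2 (show _ ≤ L + 2 from ?_)) ?_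
        · push_cast
          have h5 : 2 * (1 / (8 * T ^ 2)) ≤ 1 := by
            rw [mul_one_div, div_le_one (by positivity)]
            nlinarith
          linarith [hu.2]
        · rw [Real.exp_add, hexpL, mul_comm]
          exact mul_le_mul_of_nonneg_right exp_two hT0.le
      calc 2 * Real.pi / T ^ 2 * Real.exp (((2 : ℕ) : ℝ) * (u / 2 + 1 / (8 * T ^ 2))) ≤
            2 * Real.pi / T ^ 2 * (8 * T) := by gcongr
        _ = _ := by field_simp
    have h2 : SM T u ^ 2 ≤ (Sg + E) ^ 2 := pow_le_pow_left₀ h0 h1 2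
    rw [Vs_eq, ← hM]
    nlinarith [sq_nonneg (SM T u + M), sq_nonneg (Sg - E)]
  have c1 : Continuous fun u => (∑ n ∈ Finset.Ioc N₁ N₂, al n * lw T u n) ^ 2 :=
    (continuous_finsetSum _ fun n _ => continuous_const.mul (lw_cont T n)).pow 2
  have c0 : Continuous fun u => Vs T u ^ 2 := (Vs_cont hT0).pow 2
  have hab : a ≤ L + 1 := by linarith
  have hint : ∫ u in a..(L + 1), Vs T u ^ 2 ≤
      4 * (384 * WZ * (((L + 2) * (δ * L + 12)) * (Real.sqrt (2 * Real.pi) / T))) +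
        (δ * L + 1) * (4 * E ^ 2 + 2 * (2 * Real.pi * 8 / T)) := by
    have h1 : ∫ u in a..(L + 1), Vs T u ^ 2 ≤ ∫ u in a..(L + 1),
        (4 * (∑ n ∈ Finset.Ioc N₁ N₂, al n * lw T u n) ^ 2 +
        (4 * E ^ 2 + 2 * (2 * Real.pi * 8 / T))) :=
      intervalIntegral.integral_mono_on hab (c0.intervalIntegrable _ _)
        (((continuous_const.mul c1).add continuous_const).intervalIntegrable _ _) hpt
    have i1 : IntervalIntegrable (fun u => 4 * (∑ n ∈ Finset.Ioc N₁ N₂, al n * lw T u n) ^ 2)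
        volume a (L + 1) := (continuous_const.mul c1).intervalIntegrable _ _
    rw [intervalIntegral.integral_add i1 (by simp), intervalIntegral.integral_const_mul,
      intervalIntegral.integral_const, smul_eq_mul, hba] at h1
    refine h1.trans (add_le_add ?_ le_rfl)
    refine mul_le_mul_of_nonneg_left ?_ (by norm_num)
    refine (int_sq_le hT0 hab ?_ _ hAmem).trans ?_
    · rw [Real.exp_add, hexpL, mul_comm]
      refine mul_le_mul_of_nonneg_right ?_ hT0.le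
      exact (Real.exp_le_exp.2 (by norm_num : (1 : ℝ) ≤ 2)).trans exp_two
    · gcongr
  have hTL : 0 ≤ T / L ^ 2 := by positivity
  refine (mul_le_mul_of_nonneg_left hint hTL).trans ?_
  have e1 : T / L ^ 2 * (4 * (384 * WZ * (((L + 2) * (δ * L + 12)) *
      (Real.sqrt (2 * Real.pi) / T))) + (δ * L + 1) * (4 * E ^ 2 + 2 * (2 * Real.pi * 8 / T))) =
      K * ((L + 2) * (δ * L + 12) / L ^ 2) + (δ * L + 1) / L ^ 2 *
        (4 * (E ^ 2 * T) + 2 * (2 * Real.pi * 8)) := by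
    rw [hK]
    field_simp
  rw [e1]
  have b1 : (L + 2) * (δ * L + 12) / L ^ 2 ≤ δ + 40 / L := by
    have h2 : δ + 40 / L = (δ * L ^ 2 + 40 * L) / L ^ 2 := by field_simp
    rw [h2]
    apply div_le_div_of_nonneg_right _ (by positivity)
    nlinarith
  have b2 : (δ * L + 1) / L ^ 2 ≤ 2 / L := by
    rw [div_le_div_iff₀ (by positivity) hL0]
    nlinarith
  have b3 : E ^ 2 * T ≤ E1 ^ 2 := by
    rwa [le_div_iff₀ hT0] at hE2
  have b4 : K * ((L + 2) * (δ * L + 12) / L ^ 2) ≤ K * (δ + 40 / L) :=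
    mul_le_mul_of_nonneg_left b1 hK0
  have b5 : (δ * L + 1) / L ^ 2 * (4 * (E ^ 2 * T) + 2 * (2 * Real.pi * 8)) ≤
      2 / L * (4 * E1 ^ 2 + 2 * (2 * Real.pi * 8)) := by
    have hE2T : 0 ≤ E ^ 2 * T := by positivity
    have hpi := Real.pi_pos
    refine mul_le_mul b2 (by linarith) (by positivity) (by positivity)
  have b6 : K2 / L ≤ ε / 2 := by
    rw [div_le_iff₀ hL0]
    have h7 : 2 * K2 / ε ≤ L := by linarith
    rw [div_le_iff₀ hε] at h7
    linarith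
  have b7 : K * (δ + 40 / L) + 2 / L * (4 * E1 ^ 2 + 2 * (2 * Real.pi * 8)) = K * δ + K2 / L := by
    rw [hK2]
    field_simp
    ring
  linarith

end Pool.Agent.NH10.GM
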