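import Pool.Agent.NH10.GM.Mix3

/-! # From the mean squares back to the pair sums -/

set_option autoImplicit false
set_option maxHeartbeats 4000000

open MeasureTheory Set Filter Topology

namespace Pool.Agent.NH10.GM

open Pool.Agent.Y749.Rig

/-- integrability of the mixture -/
lemma MTf_intg {T h : ℝ} (hT : 10 ≤ T) (hh : 0 < h) :
    IntegrableOn (fun c => gd c * MTf T h c) (Ioi 0) := by
  obtain ⟨C, hC, hB⟩ := PT_bdd hh
  obtain ⟨T₁, hT₁⟩ := eventually_atTop.1 hB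
  have hL := one_lt_log (show 3 ≤ T by linarith)
  have hT0 : 0 < T := by linarith
  have key : ∀ c : ℝ, 1 ≤ c → T₁ ≤ c * T → MTf T h c ≤ 2 * C * (1 + 2 * c) ^ 4 := by
    intro c h1 hcT1
    have hc : 0 < c := by linarith
    have hcT : T ≤ c * T := by nlinarith
    have hlog : Real.log (c * T) = Real.log c + Real.log T := Real.log_mul hc.ne' hT0.ne'
    have hlc0 : 0 ≤ Real.log c := Real.log_nonneg h1
    have hlc1 : Real.log c ≤ c := by
      have := Real.log_le_sub_one_of_pos hc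
      linarith
    have hLc : 0 < Real.log (c * T) := by rw [hlog]; linarith
    rw [MTf_eq hT (by linarith) hh]
    have hr1 : Real.log (c * T) / Real.log T ≤ 1 + 2 * c := by
      rw [div_le_iff₀ (by linarith), hlog]
      nlinarith
    have hr0 : 0 ≤ Real.log (c * T) / Real.log T := div_nonneg hLc.le (by linarith)
    have hmu : Real.log T / Real.log (c * T) * h ≤ h := by
      have : Real.log T / Real.log (c * T) ≤ 1 := by
        rw [div_le_one hLc, hlog]
        linarith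
      nlinarith
    have hmu0 : 0 < Real.log T / Real.log (c * T) * h :=
      mul_pos (div_pos (by linarith) hLc) hh
    have hp : PT (c * T) (Real.log T / Real.log (c * T) * h) ≤ C :=
      (PT_mono (by linarith) hmu0 hmu).trans (hT₁ _ hcT1)
    have hp0 := PT_nonneg (c * T) hmu0
    calc 2 * c * (Real.log (c * T) / Real.log T) ^ 3 *
          PT (c * T) (Real.log T / Real.log (c * T) * h)
        ≤ 2 * c * (1 + 2 * c) ^ 3 * C := by gcongr
      _ ≤ 2 * C * (1 + 2 * c) ^ 4 := by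
          have h3 : 0 ≤ (1 + 2 * c) ^ 3 := by positivity
          have e : 2 * C * (1 + 2 * c) ^ 4 - 2 * c * (1 + 2 * c) ^ 3 * C =
            2 * C * (1 + 2 * c) ^ 3 * (1 + c) := by ring
          have : 0 ≤ 2 * C * (1 + 2 * c) ^ 3 * (1 + c) := by positivity
          linarith
  obtain ⟨c₀, hc₀⟩ : ∃ c₀ : ℝ, c₀ = max 1 (T₁ / T) := ⟨_, rfl⟩
  have hc1 : 1 ≤ c₀ := by rw [hc₀]; exact le_max_left _ _
  have hc2 : T₁ ≤ c₀ * T := by
    rw [← div_le_iff₀ hT0, hc₀]
    exact le_max_right _ _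
  refine MTf_int (C := 2 * C + 2 * C * (1 + 2 * c₀) ^ 4) (by linarith) hh fun c hc => ?_
  have h4 : (1 : ℝ) ≤ (1 + 2 * c) ^ 4 := one_le_pow₀ (by linarith)
  have h5 : 0 ≤ 2 * C * (1 + 2 * c₀) ^ 4 := by positivity
  rcases le_or_gt c₀ c with h1 | h1
  · have h6 := key c (hc1.trans h1) (hc2.trans (mul_le_mul_of_nonneg_right h1 hT0.le))
    nlinarith
  · have h6 := (MTf_mono (by linarith) hh h1.le).trans (key c₀ hc1 hc2)
    have h7 : 0 ≤ 2 * C * (1 + 2 * c) ^ 4 := by positivity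
    nlinarith

/-- the mixture -/
noncomputable def I1 (T h : ℝ) : ℝ := ∫ c in Ioi (0 : ℝ), gd c * MTf T h c

lemma I1_mono {T : ℝ} (hT : 10 ≤ T) {x y : ℝ} (hx : 0 < x) (hxy : x ≤ y) : I1 T x ≤ I1 T y := by
  refine setIntegral_mono_on (MTf_intg hT hx) (MTf_intg hT (hx.trans_le hxy)) measurableSet_Ioi
    fun c hc => ?_
  exact mul_le_mul_of_nonneg_left (MTf_mono_h (by linarith) hx hxy c) (gd_nonneg (le_of_lt hc))

/-- the Laplace transforms -/
noncomputable def IL (T h b : ℝ) : ℝ :=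
  ∫ c in Ioi (0 : ℝ), 2 * c * Real.exp (-b * c ^ 2) * MTf T h c

lemma I1_scale {T b : ℝ} (hb : 0 < b) (hT : 10 ≤ T) (hT' : 10 ≤ T / Real.sqrt b) {h : ℝ}
    (hh : 0 < h) :
    IL T h b = (Real.log (T / Real.sqrt b) / Real.log T) ^ 3 / (b * Real.sqrt b) *
      I1 (T / Real.sqrt b) (h / (Real.log (T / Real.sqrt b) / Real.log T)) := by
  have hq : 0 < Real.sqrt b := Real.sqrt_pos.2 hb
  have hqq : Real.sqrt b * Real.sqrt b = b := Real.mul_self_sqrt hb.le
  have hpi := Real.pi_pos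
  have hL := one_lt_log (show 3 ≤ T by linarith)
  have hL' := one_lt_log (show 3 ≤ T / Real.sqrt b by linarith)
  have hL0 : 0 < Real.log T := by linarith
  have hL0' : 0 < Real.log (T / Real.sqrt b) := by linarith
  have hT0 : 0 < T := by linarith
  obtain ⟨q, hqe⟩ : ∃ q : ℝ, q = Real.sqrt b := ⟨_, rfl⟩
  rw [← hqe] at hq hqq hT' hL' hL0' ⊢
  obtain ⟨μ, hμ⟩ : ∃ μ : ℝ, μ = Real.log (T / q) / Real.log T := ⟨_, rfl⟩
  have hμ0 : 0 < μ := by rw [hμ]; positivity
  rw [← hμ]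
  have h1 := integral_comp_mul_left_Ioi (fun c => gd c * MTf (T / q) (h / μ) c) 0 hq
  rw [mul_zero, smul_eq_mul] at h1
  have h2 : I1 (T / q) (h / μ) = q * ∫ x in Ioi (0 : ℝ), gd (q * x) * MTf (T / q) (h / μ) (q * x) := by
    rw [h1]
    unfold I1
    field_simp
  have h3 : ∀ x : ℝ, gd (q * x) * MTf (T / q) (h / μ) (q * x) =
      b / μ ^ 3 * (2 * x * Real.exp (-b * x ^ 2) * MTf T h x) := by
    intro x
    have e1 : q * x * (T / q) = x * T := by field_simp
    have e2 : ∀ s s' : ℂ, Kt (h / μ) ((s.im - s'.im) * Real.log (T / q) / (2 * Real.pi)) =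
        (μ ^ 2)⁻¹ * Kt h ((s.im - s'.im) * Real.log T / (2 * Real.pi)) := by
      intro s s'
      have e3 : (s.im - s'.im) * Real.log (T / q) / (2 * Real.pi) =
          μ * ((s.im - s'.im) * Real.log T / (2 * Real.pi)) := by
        rw [hμ]
        field_simp
      rw [e3, Kt_scale (by positivity) hμ0]
      congr 2
      field_simp
    have e4 : SPair (x * T) (fun s s' => Kt (h / μ) ((s.im - s'.im) * Real.log (T / q) /
        (2 * Real.pi))) = (μ ^ 2)⁻¹ * SPair (x * T) (fun s s' =>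
        Kt h ((s.im - s'.im) * Real.log T / (2 * Real.pi))) := by
      unfold SPair
      rw [Finset.mul_sum]
      refine Finset.sum_congr rfl fun s _ => ?_
      rw [Finset.mul_sum]
      refine Finset.sum_congr rfl fun s' _ => ?_
      simp only [e2]
      ring
    have e5 : gd (q * x) = 2 * (q * x) * Real.exp (-b * x ^ 2) := by
      unfold gd
      have : -(q * x) ^ 2 = -b * x ^ 2 := by rw [← hqq]; ring
      rw [this]
    have e6 : Real.log (T / q) = μ * Real.log T := by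
      rw [hμ]
      field_simp
    unfold MTf
    rw [e1, e4, e5, e6]
    rw [← hqq]
    field_simp
  simp_rw [h3] at h2
  rw [integral_const_mul] at h2
  rw [h2]
  unfold IL
  obtain ⟨Q, hQ⟩ : ∃ Q : ℝ, Q = ∫ c in Ioi (0 : ℝ), 2 * c * Real.exp (-b * c ^ 2) * MTf T h c :=
    ⟨_, rfl⟩
  rw [← hQ]
  field_simp

variable {Y : ℝ → ℝ}

lemma I1_lim (hY : ∀ᶠ T in atTop, T ^ 2 ≤ Y T)
    (hJ : ∀ h : ℝ, 0 < h → Tendsto (fun T => Jt (Dz T (Y T)) h) atTop
      (𝓝 (Real.sqrt Real.pi * PG h))) {h : ℝ} (hh : 0 < h) :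
    Tendsto (fun T => I1 T h) atTop (𝓝 (Real.sqrt Real.pi * PG h)) := by
  have h1 := (hJ h hh).sub (mix_to hh hY)
  rw [sub_zero] at h1
  refine h1.congr fun T => ?_
  unfold I1
  ring

lemma IL_lim (hI : ∀ h : ℝ, 0 < h → Tendsto (fun T => I1 T h) atTop
      (𝓝 (Real.sqrt Real.pi * PG h))) {h b : ℝ} (hh : 0 < h) (hb : 0 < b) :
    Tendsto (fun T => IL T h b) atTop (𝓝 (Real.sqrt Real.pi / (b * Real.sqrt b) * PG h)) := by
  have hq : 0 < Real.sqrt b := Real.sqrt_pos.2 hb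
  have t1 : Tendsto (fun T : ℝ => T / Real.sqrt b) atTop atTop := tendsto_id.atTop_div_const hq
  have t2 : Tendsto (fun T : ℝ => Real.log (T / Real.sqrt b) / Real.log T) atTop (𝓝 1) := by
    refine (ratio_lim (c := 1 / Real.sqrt b) (by positivity)).congr fun T => ?_
    rw [one_div_mul_eq_div]
  have t3 : Tendsto (fun T : ℝ => h / (Real.log (T / Real.sqrt b) / Real.log T)) atTop (𝓝 h) := by
    have := (tendsto_const_nhds (x := h)).div t2 one_ne_zero
    rwa [div_one] at this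
  have t4 : Tendsto (fun T => I1 (T / Real.sqrt b)
      (h / (Real.log (T / Real.sqrt b) / Real.log T))) atTop (𝓝 (Real.sqrt Real.pi * PG h)) := by
    refine mono_near (G := fun h => Real.sqrt Real.pi * PG h) hh
      ((eventually_ge_atTop 10).mono fun T hT x y hx hxy => I1_mono hT hx hxy) ?_
      (continuous_const.mul PG_cont).continuousAt t1 t3
    filter_upwards [lt_mem_nhds hh] with y hy
    exact hI y hy
  have t5 := ((t2.pow 3).div_const (b * Real.sqrt b)).mul t4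
  rw [one_pow] at t5
  have e : 1 / (b * Real.sqrt b) * (Real.sqrt Real.pi * PG h) =
      Real.sqrt Real.pi / (b * Real.sqrt b) * PG h := by ring
  rw [e] at t5
  refine t5.congr' ?_
  filter_upwards [eventually_ge_atTop 10, t1.eventually_ge_atTop 10] with T h1 h2
  exact (I1_scale hb h1 h2 hh).symm

/-- the integrals against functions of `exp (- c ^ 2)` -/
noncomputable def JP (φ : ℝ → ℝ) (g : ℝ → ℝ) : ℝ :=
  ∫ c in Ioi (0 : ℝ), gd c * φ (Real.exp (-c ^ 2)) * g c

lemma e01 (c : ℝ) : Real.exp (-c ^ 2) ∈ Icc (0 : ℝ) 1 :=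
  ⟨(Real.exp_pos _).le, Real.exp_le_one_iff.2 (by nlinarith [sq_nonneg c])⟩

lemma JP_intg {φ g : ℝ → ℝ} {B : ℝ} (hφ : Measurable φ) (hB : ∀ x ∈ Icc (0 : ℝ) 1, |φ x| ≤ B)
    (hg : IntegrableOn (fun c => gd c * g c) (Ioi 0)) :
    IntegrableOn (fun c => gd c * φ (Real.exp (-c ^ 2)) * g c) (Ioi 0) := by
  have h1 : IntegrableOn (fun c => φ (Real.exp (-c ^ 2)) * (gd c * g c)) (Ioi 0) := by
    refine Integrable.bdd_mul (c := B) hg ?_ (ae_of_all _ fun c => ?_)
    · exact (hφ.comp (by fun_prop : Continuous fun c : ℝ =>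
        Real.exp (-c ^ 2)).measurable).aestronglyMeasurable
    · rw [Real.norm_eq_abs]
      exact hB _ (e01 c)
  refine h1.congr_fun (fun c _ => ?_) measurableSet_Ioi
  ring

lemma two_intg (A : ℝ) : IntegrableOn (fun c => gd c * (2 * c * A)) (Ioi 0) := by
  have h1 : IntegrableOn (fun c => 2 * A * (gd c * c ^ 1)) (Ioi 0) := (gd_pow_int 1).const_mul _
  refine h1.congr_fun (fun c _ => ?_) measurableSet_Ioi
  simp only [pow_one]
  ring

lemma JP_poly (hI : ∀ h : ℝ, 0 < h → Tendsto (fun T => I1 T h) atTop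
      (𝓝 (Real.sqrt Real.pi * PG h))) {h : ℝ} (hh : 0 < h) (p : Polynomial ℝ) :
    Tendsto (fun T => JP (fun x => p.eval x) (MTf T h)) atTop
      (𝓝 (JP (fun x => p.eval x) fun c => 2 * c * PG h)) := by
  have hb : ∀ n : ℕ, ∃ B : ℝ, ∀ x ∈ Icc (0 : ℝ) 1, |p.coeff n * x ^ n| ≤ B := by
    intro n
    refine ⟨|p.coeff n|, fun x hx => ?_⟩
    rw [abs_mul, abs_pow, abs_of_nonneg hx.1]
    exact mul_le_of_le_one_right (abs_nonneg _) (pow_le_one₀ hx.1 hx.2)
  have e1 : ∀ g : ℝ → ℝ, IntegrableOn (fun c => gd c * g c) (Ioi 0) →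
      JP (fun x => p.eval x) g = ∑ n ∈ Finset.range (p.natDegree + 1),
        p.coeff n * ∫ c in Ioi (0 : ℝ), 2 * c * Real.exp (-((n : ℝ) + 1) * c ^ 2) * g c := by
    intro g hg
    have e2 : ∀ c : ℝ, gd c * p.eval (Real.exp (-c ^ 2)) * g c =
        ∑ n ∈ Finset.range (p.natDegree + 1), gd c * (p.coeff n * Real.exp (-c ^ 2) ^ n) * g c := by
      intro c
      rw [Polynomial.eval_eq_sum_range, Finset.mul_sum, Finset.sum_mul]
    unfold JP
    simp_rw [e2]
    rw [integral_finsetSum _ fun n _ => ?_]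
    · refine Finset.sum_congr rfl fun n _ => ?_
      rw [← integral_const_mul]
      refine setIntegral_congr_fun measurableSet_Ioi fun c _ => ?_
      show gd c * (p.coeff n * Real.exp (-c ^ 2) ^ n) * g c =
        p.coeff n * (2 * c * Real.exp (-((n : ℝ) + 1) * c ^ 2) * g c)
      have e3 : Real.exp (-((n : ℝ) + 1) * c ^ 2) = Real.exp (-c ^ 2) * Real.exp (-c ^ 2) ^ n := by
        rw [← Real.exp_nat_mul, ← Real.exp_add]
        congr 1
        ring
      rw [e3]
      unfold gd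
      ring
    · obtain ⟨B, hB⟩ := hb n
      exact JP_intg (φ := fun x => p.coeff n * x ^ n) (by fun_prop) hB hg
  have h1 : Tendsto (fun T => ∑ n ∈ Finset.range (p.natDegree + 1),
      p.coeff n * ∫ c in Ioi (0 : ℝ), 2 * c * Real.exp (-((n : ℝ) + 1) * c ^ 2) * MTf T h c) atTop
      (𝓝 (∑ n ∈ Finset.range (p.natDegree + 1),
      p.coeff n * ∫ c in Ioi (0 : ℝ), 2 * c * Real.exp (-((n : ℝ) + 1) * c ^ 2) *
        (2 * c * PG h))) := by
    refine tendsto_finsetSum _ fun n _ => Tendsto.const_mul _ ?_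
    have hn : (0 : ℝ) < (n : ℝ) + 1 := by positivity
    have h2 := IL_lim hI hh hn
    have h3 : ∫ c in Ioi (0 : ℝ), 2 * c * Real.exp (-((n : ℝ) + 1) * c ^ 2) * (2 * c * PG h) =
        Real.sqrt Real.pi / (((n : ℝ) + 1) * Real.sqrt ((n : ℝ) + 1)) * PG h := by
      rw [← moment hn, ← integral_mul_const]
      refine integral_congr_ae (ae_of_all _ fun c => ?_)
      simp only
      ring
    rw [h3]
    exact h2
  rw [← e1 _ (two_intg (PG h))] at h1
  refine h1.congr' ?_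
  filter_upwards [eventually_ge_atTop 10] with T hT
  exact (e1 _ (MTf_intg hT hh)).symm

lemma JP_lim (hI : ∀ h : ℝ, 0 < h → Tendsto (fun T => I1 T h) atTop
      (𝓝 (Real.sqrt Real.pi * PG h))) {h : ℝ} (hh : 0 < h) {φ : ℝ → ℝ} (hφ : Continuous φ) :
    Tendsto (fun T => JP φ (MTf T h)) atTop (𝓝 (JP φ fun c => 2 * c * PG h)) := by
  have hPG := PG_pos hh
  have hsp : 0 < Real.sqrt Real.pi := Real.sqrt_pos.2 Real.pi_pos
  obtain ⟨B, hB⟩ := (isCompact_Icc (a := (0 : ℝ)) (b := 1)).exists_bound_of_continuousOn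
    hφ.continuousOn
  rw [Metric.tendsto_nhds]
  intro ε hε
  obtain ⟨e, he⟩ : ∃ e : ℝ, e = ε / (4 * (Real.sqrt Real.pi * PG h + 1)) := ⟨_, rfl⟩
  have he0 : 0 < e := by rw [he]; positivity
  have he1 : e * (Real.sqrt Real.pi * PG h + 1) = ε / 4 := by
    rw [he]
    field_simp
  obtain ⟨p, hp⟩ := exists_polynomial_near_of_continuousOn 0 1 φ hφ.continuousOn e he0
  have hpB : ∀ x ∈ Icc (0 : ℝ) 1, |p.eval x| ≤ B + e := by
    intro x hx
    have h1 := abs_lt.1 (hp x hx)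
    have h2 := abs_le.1 ((Real.norm_eq_abs _) ▸ hB x hx)
    rw [abs_le]
    constructor <;> linarith
  have key : ∀ g : ℝ → ℝ, IntegrableOn (fun c => gd c * g c) (Ioi 0) → (∀ c, 0 < c → 0 ≤ g c) →
      |JP φ g - JP (fun x => p.eval x) g| ≤ e * ∫ c in Ioi (0 : ℝ), gd c * g c := by
    intro g hg hg0
    have i1 := JP_intg hφ.measurable (B := B) (fun x hx => (Real.norm_eq_abs _) ▸ hB x hx) hg
    have i2 := JP_intg (φ := fun x => p.eval x) p.continuous.measurable hpB hg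
    unfold JP
    rw [← integral_sub i1 i2, ← integral_const_mul, ← Real.norm_eq_abs]
    refine (norm_integral_le_integral_norm _).trans (setIntegral_mono_on (i1.sub i2).norm
      (hg.const_mul e) measurableSet_Ioi fun c hc => ?_)
    have hc0 : 0 < c := hc
    have h1 := (hp _ (e01 c)).le
    have h2 : 0 ≤ gd c * g c := mul_nonneg (gd_nonneg hc0.le) (hg0 c hc0)
    have h3 : gd c * φ (Real.exp (-c ^ 2)) * g c - gd c * p.eval (Real.exp (-c ^ 2)) * g c =
        -(p.eval (Real.exp (-c ^ 2)) - φ (Real.exp (-c ^ 2))) * (gd c * g c) := by ring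
    show ‖gd c * φ (Real.exp (-c ^ 2)) * g c - gd c * p.eval (Real.exp (-c ^ 2)) * g c‖ ≤
      e * (gd c * g c)
    rw [h3, norm_mul, norm_neg, Real.norm_of_nonneg h2, Real.norm_eq_abs]
    exact mul_le_mul_of_nonneg_right h1 h2
  have k0 := key (fun c => 2 * c * PG h) (two_intg _) fun c hc => by positivity
  rw [gd_moment] at k0
  have hpl := JP_poly hI hh p
  filter_upwards [(Metric.tendsto_nhds.1 hpl) (ε / 4) (by linarith), eventually_ge_atTop 10,
    (hI h hh).eventually (gt_mem_nhds (show Real.sqrt Real.pi * PG h <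
      Real.sqrt Real.pi * PG h + 1 by linarith))] with T t1 hT t2
  have k1 := key (MTf T h) (MTf_intg hT hh) fun c _ => MTf_nonneg (by linarith) hh c
  have k2 : e * (∫ c in Ioi (0 : ℝ), gd c * MTf T h c) ≤ ε / 4 := by
    rw [← he1]
    exact mul_le_mul_of_nonneg_left t2.le he0.le
  have k3 : e * (Real.sqrt Real.pi * PG h) ≤ ε / 4 := by
    rw [← he1]
    nlinarith
  rw [Real.dist_eq] at t1 ⊢
  have a1 := abs_le.1 (k1.trans k2)
  have a2 := abs_le.1 (k0.trans k3)
  have a3 := abs_lt.1 t1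
  rw [abs_lt]
  constructor <;> linarith

/-- the bump -/
noncomputable def bu (a b x : ℝ) : ℝ :=
  max 0 ((Real.exp (-a ^ 2) - x) * (x - Real.exp (-b ^ 2)))

lemma bu_cont (a b : ℝ) : Continuous (bu a b) := by unfold bu; fun_prop

lemma bu_nonneg (a b x : ℝ) : 0 ≤ bu a b x := le_max_left _ _

lemma bu_supp {a b c : ℝ} (ha : 0 ≤ a) (hab : a < b) (hc : 0 < c)
    (h : bu a b (Real.exp (-c ^ 2)) ≠ 0) : a ≤ c ∧ c ≤ b := by
  unfold bu at h
  have h1 : 0 < (Real.exp (-a ^ 2) - Real.exp (-c ^ 2)) *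
      (Real.exp (-c ^ 2) - Real.exp (-b ^ 2)) := by
    by_contra hcon
    push Not at hcon
    exact h (max_eq_left hcon)
  have hab2 : Real.exp (-b ^ 2) < Real.exp (-a ^ 2) := Real.exp_lt_exp.2 (by nlinarith)
  constructor
  · by_contra hcon
    push Not at hcon
    have h2 : Real.exp (-a ^ 2) < Real.exp (-c ^ 2) := Real.exp_lt_exp.2 (by nlinarith)
    nlinarith
  · by_contra hcon
    push Not at hcon
    have h2 : Real.exp (-c ^ 2) < Real.exp (-b ^ 2) := Real.exp_lt_exp.2 (by nlinarith)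
    nlinarith

lemma bu_pos {a b c : ℝ} (ha : 0 ≤ a) (h1 : a < c) (h2 : c < b) :
    0 < bu a b (Real.exp (-c ^ 2)) := by
  unfold bu
  refine lt_max_of_lt_right (mul_pos ?_ ?_)
  · have : Real.exp (-c ^ 2) < Real.exp (-a ^ 2) := Real.exp_lt_exp.2 (by nlinarith)
    linarith
  · have : Real.exp (-b ^ 2) < Real.exp (-c ^ 2) := Real.exp_lt_exp.2 (by nlinarith)
    linarith

lemma one_intg : IntegrableOn (fun c => gd c * (1 : ℝ)) (Ioi 0) := by
  simpa using gd_intOn (m := 0) le_rfl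

lemma bu_intg (a b : ℝ) {g : ℝ → ℝ} (hg : IntegrableOn (fun c => gd c * g c) (Ioi 0)) :
    IntegrableOn (fun c => gd c * bu a b (Real.exp (-c ^ 2)) * g c) (Ioi 0) := by
  obtain ⟨B, hB⟩ := (isCompact_Icc (a := (0 : ℝ)) (b := 1)).exists_bound_of_continuousOn
    (bu_cont a b).continuousOn
  exact JP_intg (bu_cont a b).measurable (fun x hx => (Real.norm_eq_abs _) ▸ hB x hx) hg

lemma bu_tot {a b : ℝ} (ha : 0 ≤ a) (hab : a < b) : 0 < JP (bu a b) fun _ => 1 := by
  have hc : Continuous fun c => gd c * bu a b (Real.exp (-c ^ 2)) * 1 := by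
    have := gd_cont
    have := bu_cont a b
    fun_prop
  have h1 : 0 < ∫ c in a..b, gd c * bu a b (Real.exp (-c ^ 2)) * 1 := by
    refine intervalIntegral.intervalIntegral_pos_of_pos_on (hc.intervalIntegrable _ _)
      (fun c hc => ?_) hab
    have : 0 < gd c := by
      unfold gd
      have : 0 < c := lt_of_le_of_lt ha hc.1
      positivity
    have := bu_pos ha hc.1 hc.2
    positivity
  rw [intervalIntegral.integral_of_le hab.le] at h1
  refine h1.trans_le ?_
  unfold JP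
  refine setIntegral_mono_set (bu_intg a b one_intg) ?_ (Eventually.of_forall ?_)
  · refine (ae_restrict_mem measurableSet_Ioi).mono fun c hc => ?_
    show 0 ≤ gd c * bu a b (Real.exp (-c ^ 2)) * 1
    have := gd_nonneg (le_of_lt hc)
    have := bu_nonneg a b (Real.exp (-c ^ 2))
    positivity
  · intro c hc
    exact lt_of_le_of_lt ha hc.1

lemma bu_le {a b : ℝ} (ha : 0 ≤ a) (hab : a < b) {g : ℝ → ℝ} {K : ℝ}
    (hg : IntegrableOn (fun c => gd c * g c) (Ioi 0)) (hK : ∀ c, 0 < c → a ≤ c → c ≤ b → g c ≤ K) :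
    JP (bu a b) g ≤ K * JP (bu a b) fun _ => 1 := by
  unfold JP
  rw [← integral_const_mul]
  refine setIntegral_mono_on (bu_intg a b hg) ((bu_intg a b one_intg).const_mul K)
    measurableSet_Ioi fun c hc => ?_
  have hc0 : 0 < c := hc
  rcases eq_or_ne (bu a b (Real.exp (-c ^ 2))) 0 with h0 | h0
  · rw [h0]; simp
  · obtain ⟨h1, h2⟩ := bu_supp ha hab hc0 h0
    have h3 := hK c hc0 h1 h2
    have h4 : 0 ≤ gd c * bu a b (Real.exp (-c ^ 2)) := mul_nonneg (gd_nonneg hc0.le)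
      (bu_nonneg _ _ _)
    calc _ ≤ gd c * bu a b (Real.exp (-c ^ 2)) * K := mul_le_mul_of_nonneg_left h3 h4
      _ = _ := by ring

lemma le_bu {a b : ℝ} (ha : 0 ≤ a) (hab : a < b) {g : ℝ → ℝ} {K : ℝ}
    (hg : IntegrableOn (fun c => gd c * g c) (Ioi 0)) (hK : ∀ c, 0 < c → a ≤ c → c ≤ b → K ≤ g c) :
    (K * JP (bu a b) fun _ => 1) ≤ JP (bu a b) g := by
  unfold JP
  rw [← integral_const_mul]
  refine setIntegral_mono_on ((bu_intg a b one_intg).const_mul K) (bu_intg a b hg)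
    measurableSet_Ioi fun c hc => ?_
  have hc0 : 0 < c := hc
  rcases eq_or_ne (bu a b (Real.exp (-c ^ 2))) 0 with h0 | h0
  · rw [h0]; simp
  · obtain ⟨h1, h2⟩ := bu_supp ha hab hc0 h0
    have h3 := hK c hc0 h1 h2
    have h4 : 0 ≤ gd c * bu a b (Real.exp (-c ^ 2)) := mul_nonneg (gd_nonneg hc0.le)
      (bu_nonneg _ _ _)
    calc _ = gd c * bu a b (Real.exp (-c ^ 2)) * K := by ring
      _ ≤ _ := mul_le_mul_of_nonneg_left h3 h4

/-- **back to the pair sums** -/
theorem demix (hY : ∀ᶠ T in atTop, T ^ 2 ≤ Y T)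
    (hJ : ∀ h : ℝ, 0 < h → Tendsto (fun T => Jt (Dz T (Y T)) h) atTop
      (𝓝 (Real.sqrt Real.pi * PG h))) {h : ℝ} (hh : 0 < h) :
    Tendsto (fun T => PT T h) atTop (𝓝 (PG h)) := by
  have hI : ∀ h : ℝ, 0 < h → Tendsto (fun T => I1 T h) atTop (𝓝 (Real.sqrt Real.pi * PG h)) :=
    fun h hh => I1_lim hY hJ hh
  have hPG := PG_pos hh
  rw [Metric.tendsto_nhds]
  intro ε hε
  obtain ⟨δ, hδ⟩ : ∃ δ : ℝ, δ = min (1 / 2) (ε / (4 * PG h)) := ⟨_, rfl⟩
  have hδ0 : 0 < δ := by rw [hδ]; exact lt_min (by norm_num) (by positivity)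
  have hδ1 : δ ≤ 1 / 2 := by rw [hδ]; exact min_le_left _ _
  have hδ2 : δ * PG h ≤ ε / 4 := by
    have : δ ≤ ε / (4 * PG h) := by rw [hδ]; exact min_le_right _ _
    rw [le_div_iff₀ (by positivity)] at this
    linarith
  -- above
  have W1 := bu_tot zero_le_one (show (1 : ℝ) < 1 + δ by linarith)
  have W2 := bu_tot (show (0 : ℝ) ≤ 1 - δ by linarith) (show 1 - δ < 1 by linarith)
  have l1 := JP_lim hI hh (bu_cont 1 (1 + δ))
  have l2 := JP_lim hI hh (bu_cont (1 - δ) 1)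
  have u1 : JP (bu 1 (1 + δ)) (fun c => 2 * c * PG h) ≤
      2 * (1 + δ) * PG h * JP (bu 1 (1 + δ)) fun _ => 1 :=
    bu_le zero_le_one (by linarith) (two_intg _) fun c _ _ h2 => by gcongr
  have u2 : (2 * (1 - δ) * PG h * JP (bu (1 - δ) 1) fun _ => 1) ≤
      JP (bu (1 - δ) 1) fun c => 2 * c * PG h :=
    le_bu (by linarith) (by linarith) (two_intg _) fun c _ h1 _ => by gcongr
  obtain ⟨w1, hw1⟩ : ∃ w1 : ℝ, w1 = JP (bu 1 (1 + δ)) fun _ => 1 := ⟨_, rfl⟩
  obtain ⟨w2, hw2⟩ : ∃ w2 : ℝ, w2 = JP (bu (1 - δ) 1) fun _ => 1 := ⟨_, rfl⟩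
  rw [← hw1] at W1 u1
  rw [← hw2] at W2 u2
  have p1 : 0 < ε / 4 * w1 := by positivity
  have p2 : 0 < ε / 4 * w2 := by positivity
  filter_upwards [l1.eventually (gt_mem_nhds (lt_add_of_pos_right _ p1)),
    l2.eventually (lt_mem_nhds (sub_lt_self _ p2)), eventually_ge_atTop 10] with T t1 t2 hT
  have v1 : MTf T h 1 * w1 ≤ JP (bu 1 (1 + δ)) (MTf T h) := by
    rw [hw1]
    exact le_bu zero_le_one (by linarith) (MTf_intg hT hh) fun c _ h1 _ =>
      MTf_mono (by linarith) hh h1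
  have v2 : JP (bu (1 - δ) 1) (MTf T h) ≤ MTf T h 1 * w2 := by
    rw [hw2]
    exact bu_le (by linarith) (by linarith) (MTf_intg hT hh) fun c _ _ h2 =>
      MTf_mono (by linarith) hh h2
  rw [MTf_one hT hh] at v1 v2
  have r1 : 2 * PT T h * w1 < (2 * (1 + δ) * PG h + ε / 4) * w1 := by linarith
  have r2 : (2 * (1 - δ) * PG h - ε / 4) * w2 < 2 * PT T h * w2 := by linarith
  have r3 := lt_of_mul_lt_mul_right r1 W1.le
  have r4 := lt_of_mul_lt_mul_right r2 W2.le
  rw [Real.dist_eq, abs_lt]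
  constructor <;> linarith

end Pool.Agent.NH10.GM
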