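import Pool.Agent.NH10.GM.Row

/-! # The Gaussian mixture of the pair sums -/

set_option autoImplicit false
set_option maxHeartbeats 4000000

open MeasureTheory Set Filter Topology

namespace Pool.Agent.NH10.GM

open Pool.Agent.Y749.Rig

/-- the sum over the zeros of height up to `Y`, with Gaussian weights of width `T` -/
noncomputable def Zr (T Y u : ℝ) : ℝ :=
  ∑ s ∈ ZZ Y, mm s * (2 * Real.cos (u * s.im) * Real.exp (-(s.im ^ 2 / (2 * T ^ 2))))

/-- its normalised square -/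
noncomputable def Dz (T Y α : ℝ) : ℝ :=
  2 * Real.pi / (T * Real.log T) * Zr T Y (α * Real.log T) ^ 2

lemma Zr_cont (T Y : ℝ) : Continuous (Zr T Y) := by
  unfold Zr
  fun_prop

lemma Dz_cont (T Y : ℝ) : Continuous (Dz T Y) := by
  unfold Dz
  have := Zr_cont T Y
  fun_prop

lemma Zr_even (T Y u : ℝ) : Zr T Y (-u) = Zr T Y u := by
  unfold Zr
  refine Finset.sum_congr rfl fun s _ => ?_
  rw [neg_mul, Real.cos_neg]

lemma Dz_even (T Y α : ℝ) : Dz T Y (-α) = Dz T Y α := by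
  unfold Dz
  rw [neg_mul, Zr_even]

lemma Dz_nonneg {T : ℝ} (hT : 1 ≤ T) (Y α : ℝ) : 0 ≤ Dz T Y α := by
  unfold Dz
  have := Real.log_nonneg hT
  have := Real.pi_pos
  positivity

/-- the Gaussian weight of a pair -/
noncomputable def gw (T : ℝ) (s s' : ℂ) : ℝ :=
  Real.exp (-((s.im ^ 2 + s'.im ^ 2) / (2 * T ^ 2)))

lemma Jt_Dz {T : ℝ} (Y : ℝ) (hT : 1 < T) {h : ℝ} (hh : 0 < h) :
    Jt (Dz T Y) h = 4 * Real.pi / (T * Real.log T) *
      ∑ s ∈ ZZ Y, ∑ s' ∈ ZZ Y, mm s * mm s' * (gw T s s' *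
        (Kt h ((s.im - s'.im) * Real.log T / (2 * Real.pi)) +
          Kt h ((s.im + s'.im) * Real.log T / (2 * Real.pi)))) := by
  have hpi := Real.pi_pos
  have hL := Real.log_pos hT
  rw [← tent_Jt (Dz_cont T Y) (Dz_even T Y) hh]
  have e1 : ∀ α : ℝ, max 0 (h - |α|) * Dz T Y α = 4 * Real.pi / (T * Real.log T) *
      ∑ s ∈ ZZ Y, ∑ s' ∈ ZZ Y, mm s * mm s' * (gw T s s' *
        (max 0 (h - |α|) * Real.cos (2 * Real.pi * α *
          ((s.im - s'.im) * Real.log T / (2 * Real.pi))) +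
          max 0 (h - |α|) * Real.cos (2 * Real.pi * α *
          ((s.im + s'.im) * Real.log T / (2 * Real.pi))))) := by
    intro α
    unfold Dz Zr
    rw [sq, Finset.sum_mul_sum, Finset.mul_sum, Finset.mul_sum, Finset.mul_sum]
    refine Finset.sum_congr rfl fun s _ => ?_
    rw [Finset.mul_sum, Finset.mul_sum, Finset.mul_sum]
    refine Finset.sum_congr rfl fun s' _ => ?_
    have a1 : 2 * Real.pi * α * ((s.im - s'.im) * Real.log T / (2 * Real.pi)) =
        α * Real.log T * s.im - α * Real.log T * s'.im := by field_simp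
    have a2 : 2 * Real.pi * α * ((s.im + s'.im) * Real.log T / (2 * Real.pi)) =
        α * Real.log T * s.im + α * Real.log T * s'.im := by field_simp
    have a3 : gw T s s' = Real.exp (-(s.im ^ 2 / (2 * T ^ 2))) *
        Real.exp (-(s'.im ^ 2 / (2 * T ^ 2))) := by
      unfold gw
      rw [← Real.exp_add]
      congr 1
      ring
    rw [a1, a2, a3, Real.cos_sub, Real.cos_add]
    ring
  simp_rw [e1]
  have hci : ∀ x : ℝ, Integrable fun α => max 0 (h - |α|) * Real.cos (2 * Real.pi * α * x) :=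
    fun x => tent_integrable h (by fun_prop)
  rw [integral_const_mul, integral_finsetSum _ fun s _ => ?_]
  · congr 1
    refine Finset.sum_congr rfl fun s _ => ?_
    rw [integral_finsetSum _ fun s' _ => ?_]
    · refine Finset.sum_congr rfl fun s' _ => ?_
      rw [integral_const_mul, integral_const_mul, integral_add (hci _) (hci _), ← Kt_rep hh,
        ← Kt_rep hh]
    · exact (((hci _).add (hci _)).const_mul _).const_mul _
  · exact integrable_finsetSum _ fun s' _ => (((hci _).add (hci _)).const_mul _).const_mul _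

/-! ### the layer cake -/

/-- the density -/
noncomputable def gd (c : ℝ) : ℝ := 2 * c * Real.exp (-c ^ 2)

lemma gd_cont : Continuous gd := by unfold gd; fun_prop

lemma gd_deriv (c : ℝ) : HasDerivAt (fun c : ℝ => -Real.exp (-c ^ 2)) (gd c) c := by
  have h1 : HasDerivAt (fun c : ℝ => -c ^ 2) (-(2 * c)) c := by
    have h0 := (hasDerivAt_pow 2 c).fun_neg
    simpa using h0
  have h2 := (h1.exp).fun_neg
  refine h2.congr_deriv ?_
  unfold gd
  ring

lemma gd_tend : Tendsto (fun c : ℝ => -Real.exp (-c ^ 2)) atTop (𝓝 0) := by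
  have h1 : Tendsto (fun c : ℝ => -c ^ 2) atTop atBot :=
    tendsto_neg_atBot_iff.2 (tendsto_pow_atTop two_ne_zero)
  have h2 := (Real.tendsto_exp_atBot.comp h1).neg
  simpa using h2

lemma gd_nonneg {c : ℝ} (hc : 0 ≤ c) : 0 ≤ gd c := by unfold gd; positivity

lemma gd_intOn {m : ℝ} (hm : 0 ≤ m) : IntegrableOn gd (Ioi m) :=
  integrableOn_Ioi_deriv_of_nonneg' (fun c _ => gd_deriv c)
    (fun c hc => gd_nonneg (hm.trans (le_of_lt hc))) gd_tend

lemma gd_tail {m : ℝ} (hm : 0 ≤ m) : ∫ c in Ioi m, gd c = Real.exp (-m ^ 2) := by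
  rw [integral_Ioi_of_hasDerivAt_of_nonneg' (fun c _ => gd_deriv c)
    (fun c hc => gd_nonneg (hm.trans (le_of_lt hc))) gd_tend]
  ring

lemma SPair_min {Y y : ℝ} (f : ℂ → ℂ → ℝ) :
    SPair (min y Y) f = ∑ s ∈ ZZ Y, ∑ s' ∈ ZZ Y, mm s * mm s' *
      (if max s.im s'.im ≤ y then f s s' else 0) := by
  classical
  have e : ZZ (min y Y) = (ZZ Y).filter fun s => s.im ≤ y := by
    ext s
    rw [Finset.mem_filter, mem_ZZ, mem_ZZ]
    constructor
    · rintro ⟨h1, h2, h3, h4, h5⟩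
      exact ⟨⟨h1, h2, h3, h4, h5.trans (min_le_right _ _)⟩, h5.trans (min_le_left _ _)⟩
    · rintro ⟨⟨h1, h2, h3, h4, h5⟩, h6⟩
      exact ⟨h1, h2, h3, h4, le_min h6 h5⟩
  unfold SPair
  rw [e, Finset.sum_filter]
  refine Finset.sum_congr rfl fun s _ => ?_
  split_ifs with h1
  · rw [Finset.sum_filter]
    refine Finset.sum_congr rfl fun s' _ => ?_
    by_cases h2 : s'.im ≤ y
    · rw [if_pos h2, if_pos (max_le h1 h2)]
    · rw [if_neg h2, if_neg fun h3 => h2 ((le_max_right _ _).trans h3), mul_zero]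
  · symm
    apply Finset.sum_eq_zero
    intro s' _
    rw [if_neg fun h3 => h1 ((le_max_left _ _).trans h3), mul_zero]

lemma gd_ind {m τ : ℝ} (hm : 0 ≤ m) (hτ : 0 < τ) (r : ℝ) :
    IntegrableOn (fun c => gd c * (if m ≤ c * τ then r else 0)) (Ioi 0) ∧
    ∫ c in Ioi 0, gd c * (if m ≤ c * τ then r else 0) = r * Real.exp (-(m / τ) ^ 2) := by
  have hmt : 0 ≤ m / τ := div_nonneg hm hτ.le
  have e : (fun c => gd c * (if m ≤ c * τ then r else 0)) =
      (Ici (m / τ)).indicator fun c => r * gd c := by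
    funext c
    by_cases h : m ≤ c * τ
    · have : c ∈ Ici (m / τ) := (div_le_iff₀ hτ).2 h
      rw [if_pos h, indicator_of_mem this, mul_comm]
    · have : c ∉ Ici (m / τ) := fun h2 => h ((div_le_iff₀ hτ).1 h2)
      rw [if_neg h, indicator_of_notMem this, mul_zero]
  have h0 : Ioi (0 : ℝ) ∩ Ioi (m / τ) = Ioi (m / τ) := by
    ext x
    constructor
    · exact fun h => h.2
    · exact fun h => ⟨lt_of_le_of_lt hmt h, h⟩
  have h00 : (Ioi (m / τ) : Set ℝ) =ᵐ[volume] Ici (m / τ) := Ioi_ae_eq_Ici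
  rw [e]
  constructor
  · have h3 : IntegrableOn (fun c => r * gd c) (Ici (m / τ)) :=
      (integrableOn_congr_set_ae h00).1 ((gd_intOn hmt).const_mul r)
    exact (h3.integrable_indicator measurableSet_Ici).integrableOn
  · have h3 : ∫ c in Ioi (0 : ℝ), (Ici (m / τ)).indicator (fun c => r * gd c) c =
        ∫ c in Ioi (0 : ℝ), (Ioi (m / τ)).indicator (fun c => r * gd c) c := by
      refine integral_congr_ae (ae_restrict_of_ae ?_)
      exact indicator_ae_eq_of_ae_eq_set h00.symm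
    rw [h3, setIntegral_indicator measurableSet_Ioi, h0, integral_const_mul, gd_tail hmt]

/-- layer cake -/
lemma layer (Y : ℝ) {τ : ℝ} (hτ : 0 < τ) (f : ℂ → ℂ → ℝ) :
    ∑ s ∈ ZZ Y, ∑ s' ∈ ZZ Y, mm s * mm s' * (f s s' * Real.exp (-(max s.im s'.im / τ) ^ 2)) =
      ∫ c in Ioi (0 : ℝ), gd c * SPair (min (c * τ) Y) f := by
  have hm : ∀ s ∈ ZZ Y, ∀ s' ∈ ZZ Y, 0 ≤ max s.im s'.im := by
    intro s hs s' _
    rw [mem_ZZ] at hs
    exact (zs_im_pos hs).le.trans (le_max_left _ _)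
  have e1 : ∀ c : ℝ, gd c * SPair (min (c * τ) Y) f = ∑ s ∈ ZZ Y, ∑ s' ∈ ZZ Y,
      mm s * mm s' * (gd c * (if max s.im s'.im ≤ c * τ then f s s' else 0)) := by
    intro c
    rw [SPair_min, Finset.mul_sum]
    refine Finset.sum_congr rfl fun s _ => ?_
    rw [Finset.mul_sum]
    refine Finset.sum_congr rfl fun s' _ => ?_
    ring
  simp_rw [e1]
  rw [integral_finsetSum _ fun s hs => ?_]
  · refine Finset.sum_congr rfl fun s hs => ?_
    rw [integral_finsetSum _ fun s' hs' => ?_]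
    · refine Finset.sum_congr rfl fun s' hs' => ?_
      rw [integral_const_mul, (gd_ind (hm s hs s' hs') hτ _).2]
    · exact ((gd_ind (hm s hs s' hs') hτ _).1).const_mul _
  · exact integrable_finsetSum _ fun s' hs' => ((gd_ind (hm s hs s' hs') hτ _).1).const_mul _

lemma layer_int (Y : ℝ) {τ : ℝ} (hτ : 0 < τ) (f : ℂ → ℂ → ℝ) :
    IntegrableOn (fun c => gd c * SPair (min (c * τ) Y) f) (Ioi 0) := by
  have hm : ∀ s ∈ ZZ Y, ∀ s' ∈ ZZ Y, 0 ≤ max s.im s'.im := by
    intro s hs s' _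
    rw [mem_ZZ] at hs
    exact (zs_im_pos hs).le.trans (le_max_left _ _)
  have e1 : (fun c : ℝ => gd c * SPair (min (c * τ) Y) f) = fun c => ∑ s ∈ ZZ Y, ∑ s' ∈ ZZ Y,
      mm s * mm s' * (gd c * (if max s.im s'.im ≤ c * τ then f s s' else 0)) := by
    funext c
    rw [SPair_min, Finset.mul_sum]
    refine Finset.sum_congr rfl fun s _ => ?_
    rw [Finset.mul_sum]
    refine Finset.sum_congr rfl fun s' _ => ?_
    ring
  rw [e1]
  exact integrable_finsetSum _ fun s hs => integrable_finsetSum _ fun s' hs' =>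
    ((gd_ind (hm s hs s' hs') hτ _).1).const_mul _

end Pool.Agent.NH10.GM
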