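import Pool.Agent.H343R2.EFb
import Pool.Agent.NH10.GM.Mix

/-! # The function `(s - 1) ζ(s)` in the strip -/

set_option autoImplicit false
set_option maxHeartbeats 4000000

open Complex Filter Topology Set MeasureTheory

namespace Pool.Agent.NH10.GM

open Pool.Agent.Y749.Rig H370

lemma z1_eq {s : ℂ} (hs : s ≠ 1) : riemannZeta₁ s = (s - 1) * riemannZeta s := by
  have h : s - 1 ≠ 0 := sub_ne_zero.2 hs
  rw [riemannZeta_eq_inv_sub_mul hs, ← mul_assoc, mul_inv_cancel₀ h, one_mul]

lemma z1_zero {s : ℂ} (h : riemannZeta₁ s = 0) : s ≠ 1 ∧ riemannZeta s = 0 := by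
  have h1 : s ≠ 1 := by
    intro h1
    rw [h1, riemannZeta₁_one] at h
    exact one_ne_zero h
  refine ⟨h1, ?_⟩
  rw [z1_eq h1] at h
  exact (mul_eq_zero.1 h).resolve_left (sub_ne_zero.2 h1)

lemma z1_zero' {s : ℂ} (hs : s ≠ 1) (h : riemannZeta s = 0) : riemannZeta₁ s = 0 := by
  rw [z1_eq hs, h, mul_zero]

lemma conj_ne_one {s : ℂ} (hs : s ≠ 1) : (starRingEnd ℂ) s ≠ 1 := by
  intro h
  apply hs
  have := congrArg (starRingEnd ℂ) h
  rwa [Complex.conj_conj, map_one] at this

lemma z1_conj (s : ℂ) : riemannZeta₁ ((starRingEnd ℂ) s) = (starRingEnd ℂ) (riemannZeta₁ s) := by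
  rcases eq_or_ne s 1 with h | h
  · rw [h, map_one, riemannZeta₁_one, map_one]
  · rw [z1_eq h, z1_eq (conj_ne_one h), riemannZeta_conj, map_mul, map_sub, map_one]

lemma z1_an (s : ℂ) : AnalyticAt ℂ riemannZeta₁ s := by
  have h := differentiable_riemannZeta₁.differentiableOn (s := univ)
  exact h.analyticAt univ_mem

/-- no zeros on the left part of the strip -/
lemma zeta_ne_left {z : ℂ} (h1 : -1 / 2 ≤ z.re) (h2 : z.re ≤ 0) : riemannZeta z ≠ 0 := by
  rcases eq_or_ne z 0 with h0 | h0
  · rw [h0, riemannZeta_zero]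
    norm_num
  · have hs : ∀ n : ℕ, (1 - z) ≠ -n := by
      intro n h
      have := congrArg Complex.re h
      simp at this
      have hn : (0 : ℝ) ≤ n := Nat.cast_nonneg n
      linarith
    have hs' : (1 - z) ≠ 1 := by
      intro h
      apply h0
      have : z = 1 - (1 - z) := by ring
      rw [this, h, sub_self]
    have h3 := riemannZeta_one_sub hs hs'
    have e : 1 - (1 - z) = z := by ring
    rw [e] at h3
    rw [h3]
    have hre : 1 ≤ (1 - z).re := by simp; linarith
    have k1 : riemannZeta (1 - z) ≠ 0 := riemannZeta_ne_zero_of_one_le_re hre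
    have k2 : Complex.Gamma (1 - z) ≠ 0 := Complex.Gamma_ne_zero hs
    have k3 : (2 * (Real.pi : ℂ)) ^ (-(1 - z)) ≠ 0 := by
      rw [Complex.cpow_def_of_ne_zero (by
        have := Real.pi_ne_zero
        exact mul_ne_zero two_ne_zero (by exact_mod_cast this))]
      exact Complex.exp_ne_zero _
    have k4 : Complex.cos (Real.pi * (1 - z) / 2) ≠ 0 := by
      intro h
      rw [Complex.cos_eq_zero_iff] at h
      obtain ⟨k, hk⟩ := h
      have hpi : (Real.pi : ℂ) ≠ 0 := by exact_mod_cast Real.pi_ne_zero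
      have hk2 : (1 - z) = ((2 * (k : ℝ) + 1 : ℝ) : ℂ) := by
        push_cast
        have : (Real.pi : ℂ) * (1 - z) = Real.pi * (2 * k + 1) := by linear_combination 2 * hk
        exact mul_left_cancel₀ hpi this
      have hre2 := congrArg Complex.re hk2
      rw [Complex.ofReal_re] at hre2
      simp at hre2
      have hk0 : k = 0 := by
        have a1 : (2 * (k : ℝ)) ≤ 1 / 2 := by linarith
        have a2 : (0 : ℝ) ≤ 2 * k := by linarith
        have b1 : (k : ℝ) < 1 := by linarith
        have b2 : (-1 : ℝ) < k := by linarith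
        have c1 : k < 1 := by exact_mod_cast b1
        have c2 : -1 < k := by exact_mod_cast b2
        omega
      apply hs'
      rw [hk2, hk0]
      norm_num
    exact mul_ne_zero (mul_ne_zero (mul_ne_zero (mul_ne_zero two_ne_zero k3) k2) k4) k1

/-- the zeros in the strip -/
lemma z1_strip {s : ℂ} (h1 : -1 / 2 ≤ s.re) (h : riemannZeta₁ s = 0) :
    0 < s.re ∧ s.re < 1 ∧ s.im ≠ 0 ∧ riemannZeta s = 0 := by
  obtain ⟨hs, h0⟩ := z1_zero h
  have a1 : 0 < s.re := by
    by_contra hcon
    exact zeta_ne_left h1 (not_lt.1 hcon) h0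
  have a2 : s.re < 1 := by
    by_contra hcon
    exact riemannZeta_ne_zero_of_one_le_re (not_lt.1 hcon) h0
  refine ⟨a1, a2, ?_, h0⟩
  intro him
  have : s ∈ zs 0 := ⟨h0, a1, a2, him.ge, him.le⟩
  exact absurd him (zs_im_pos this).ne'

/-- the order at the conjugate point -/
lemma order_conj {f : ℂ → ℂ} (hf : ∀ z, f ((starRingEnd ℂ) z) = (starRingEnd ℂ) (f z)) {s : ℂ}
    (h : AnalyticAt ℂ f s) (h' : AnalyticAt ℂ f ((starRingEnd ℂ) s)) :
    analyticOrderAt f ((starRingEnd ℂ) s) = analyticOrderAt f s := by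
  have hc : Tendsto (fun z : ℂ => (starRingEnd ℂ) z) (𝓝 ((starRingEnd ℂ) s)) (𝓝 s) := by
    have := (Complex.continuous_conj).tendsto ((starRingEnd ℂ) s)
    rwa [Complex.conj_conj] at this
  rcases eq_or_ne (analyticOrderAt f s) ⊤ with h0 | h0
  · rw [h0, analyticOrderAt_eq_top]
    rw [analyticOrderAt_eq_top] at h0
    filter_upwards [hc.eventually h0] with z hz
    have := hf ((starRingEnd ℂ) z)
    rw [Complex.conj_conj, hz, map_zero] at this
    exact this
  · obtain ⟨n, hn⟩ := ENat.ne_top_iff_exists.mp h0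
    rw [← hn]
    obtain ⟨g, hg, hg0, hfg⟩ := (h.analyticOrderAt_eq_natCast).mp hn.symm
    rw [h'.analyticOrderAt_eq_natCast]
    refine ⟨fun z => (starRingEnd ℂ) (g ((starRingEnd ℂ) z)), ?_, ?_, ?_⟩
    · rw [analyticAt_iff_eventually_differentiableAt] at hg ⊢
      filter_upwards [hc.eventually hg] with z hz
      have := hz.conj_conj
      rw [Complex.conj_conj] at this
      exact this
    · simp only [Complex.conj_conj]
      intro h1
      apply hg0
      have := congrArg (starRingEnd ℂ) h1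
      rwa [Complex.conj_conj, map_zero] at this
    · filter_upwards [hc.eventually hfg] with z hz
      have h1 := hf ((starRingEnd ℂ) z)
      rw [Complex.conj_conj, hz] at h1
      rw [h1]
      simp only [smul_eq_mul, map_mul, map_pow, map_sub, Complex.conj_conj]

lemma z1_order {s : ℂ} (hs : s ≠ 1) :
    analyticOrderAt riemannZeta₁ s = analyticOrderAt riemannZeta s := by
  have ha : AnalyticAt ℂ riemannZeta s := by
    have hd : DifferentiableOn ℂ riemannZeta {1}ᶜ := differentiableOn_riemannZeta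
    exact hd.analyticAt (isOpen_compl_singleton.mem_nhds hs)
  have h1 : riemannZeta₁ =ᶠ[𝓝 s] (fun z => z - 1) * riemannZeta := by
    filter_upwards [isOpen_compl_singleton.mem_nhds hs] with z hz
    exact z1_eq hz
  have h2 : AnalyticAt ℂ (fun z : ℂ => z - 1) s := by fun_prop
  rw [analyticOrderAt_congr h1, analyticOrderAt_mul h2 ha,
    h2.analyticOrderAt_eq_zero.mpr (sub_ne_zero.2 hs), zero_add]

lemma z1_mult {s : ℂ} (hs : s ≠ 1) : mult riemannZeta₁ s = mult riemannZeta s := by
  unfold mult analyticOrderNatAt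
  rw [z1_order hs]

lemma z1_mult_conj (s : ℂ) : mult riemannZeta₁ ((starRingEnd ℂ) s) = mult riemannZeta₁ s := by
  unfold mult analyticOrderNatAt
  rw [order_conj z1_conj (z1_an _) (z1_an _)]

/-- the logarithmic derivative -/
lemma z1_ld {s : ℂ} (hs : s ≠ 1) (h0 : riemannZeta s ≠ 0) :
    deriv riemannZeta₁ s / riemannZeta₁ s = deriv riemannZeta s / riemannZeta s + 1 / (s - 1) := by
  have h1 : riemannZeta₁ =ᶠ[𝓝 s] fun z => (z - 1) * riemannZeta z := by
    filter_upwards [isOpen_compl_singleton.mem_nhds hs] with z hz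
    exact z1_eq hz
  have hd : HasDerivAt riemannZeta (deriv riemannZeta s) s :=
    (differentiableAt_riemannZeta hs).hasDerivAt
  have h2 : HasDerivAt (fun z => (z - 1) * riemannZeta z)
      (1 * riemannZeta s + (s - 1) * deriv riemannZeta s) s :=
    ((hasDerivAt_id s).sub_const 1).fun_mul hd
  rw [h1.deriv_eq, h2.deriv, z1_eq hs]
  have hs1 : s - 1 ≠ 0 := sub_ne_zero.2 hs
  field_simp
  ring

lemma z1_ld_conj (s : ℂ) : deriv riemannZeta₁ ((starRingEnd ℂ) s) / riemannZeta₁ ((starRingEnd ℂ) s)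
    = (starRingEnd ℂ) (deriv riemannZeta₁ s / riemannZeta₁ s) := by
  have h1 : (starRingEnd ℂ) ∘ riemannZeta₁ ∘ (starRingEnd ℂ) = riemannZeta₁ := by
    funext z
    simp only [Function.comp_apply]
    rw [z1_conj, Complex.conj_conj]
  have h2 := deriv_conj_conj (f := riemannZeta₁)
  rw [h1] at h2
  have h3 := congrFun h2 ((starRingEnd ℂ) s)
  simp only [Function.comp_apply, Complex.conj_conj] at h3
  rw [h3, z1_conj, map_div₀]

end Pool.Agent.NH10.GM
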