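import Pool.Agent.NH10.GM.Mix

/-! # The Gaussian mixture of the pair sums: the error -/

set_option autoImplicit false
set_option maxHeartbeats 4000000

open MeasureTheory Set Filter Topology

namespace Pool.Agent.NH10.GM

open Pool.Agent.Y749.Rig

/-- the pair sums -/
noncomputable def MT (T Y h c : ℝ) : ℝ := 4 * Real.pi / (T * Real.log T) *
  SPair (min (c * T) Y) (fun s s' => Kt h ((s.im - s'.im) * Real.log T / (2 * Real.pi)))

lemma xexp {x : ℝ} : x * Real.exp (-x ^ 2 / 2) ≤ Real.exp (-(x / 2) ^ 2) := by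
  have h1 : x ≤ Real.exp (x ^ 2 / 4) := by
    have := Real.add_one_le_exp (x ^ 2 / 4)
    nlinarith [sq_nonneg (x - 2)]
  calc x * Real.exp (-x ^ 2 / 2) ≤ Real.exp (x ^ 2 / 4) * Real.exp (-x ^ 2 / 2) :=
        mul_le_mul_of_nonneg_right h1 (Real.exp_pos _).le
    _ = Real.exp (-(x / 2) ^ 2) := by
        rw [← Real.exp_add]
        congr 1
        ring

/-- the difference of the two Gaussian weights -/
lemma gw_diff {T : ℝ} (hT : 0 < T) {s s' : ℂ} (h1 : 0 < s.im) (h2 : 0 < s'.im) :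
    0 ≤ gw T s s' - Real.exp (-(max s.im s'.im / T) ^ 2) ∧
    gw T s s' - Real.exp (-(max s.im s'.im / T) ^ 2) ≤
      Real.exp (-(max s.im s'.im / (2 * T)) ^ 2) * (|s.im - s'.im| / T) ∧
    gw T s s' ≤ Real.exp (-(max s.im s'.im / (2 * T)) ^ 2) := by
  obtain ⟨M, hM⟩ : ∃ M : ℝ, M = max s.im s'.im := ⟨_, rfl⟩
  obtain ⟨m, hm⟩ : ∃ m : ℝ, m = min s.im s'.im := ⟨_, rfl⟩
  have hm0 : 0 < m := by rw [hm]; exact lt_min h1 h2
  have hmM : m ≤ M := by rw [hm, hM]; exact min_le_max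
  have e1 : s.im ^ 2 + s'.im ^ 2 = M ^ 2 + m ^ 2 := by
    rw [hM, hm]
    rcases le_total s.im s'.im with h | h
    · rw [max_eq_right h, min_eq_left h]; ring
    · rw [max_eq_left h, min_eq_right h]
  have e2 : |s.im - s'.im| = M - m := by
    rw [hM, hm, max_sub_min_eq_abs, abs_sub_comm]
  have eg : gw T s s' = Real.exp (-((M ^ 2 + m ^ 2) / (2 * T ^ 2))) := by
    unfold gw
    rw [e1]
  rw [← hM, e2, eg]
  have g1 : Real.exp (-(M / T) ^ 2) = Real.exp (-((M ^ 2 + m ^ 2) / (2 * T ^ 2))) *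
      Real.exp (-((M ^ 2 - m ^ 2) / (2 * T ^ 2))) := by
    rw [← Real.exp_add]
    congr 1
    field_simp
    ring
  have g2 : 1 - (M ^ 2 - m ^ 2) / (2 * T ^ 2) ≤ Real.exp (-((M ^ 2 - m ^ 2) / (2 * T ^ 2))) := by
    have := Real.add_one_le_exp (-((M ^ 2 - m ^ 2) / (2 * T ^ 2)))
    linarith
  have hsq : m ^ 2 ≤ M ^ 2 := pow_le_pow_left₀ hm0.le hmM 2
  have g3 : 0 ≤ (M ^ 2 - m ^ 2) / (2 * T ^ 2) := div_nonneg (by linarith) (by positivity)
  have g4 : Real.exp (-((M ^ 2 - m ^ 2) / (2 * T ^ 2))) ≤ 1 := Real.exp_le_one_iff.2 (by linarith)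
  have hE := Real.exp_pos (-((M ^ 2 + m ^ 2) / (2 * T ^ 2)))
  have g5 : Real.exp (-((M ^ 2 + m ^ 2) / (2 * T ^ 2))) ≤ Real.exp (-(M / T) ^ 2 / 2) := by
    apply Real.exp_le_exp.2
    have : (M ^ 2 + m ^ 2) / (2 * T ^ 2) = (M / T) ^ 2 / 2 + m ^ 2 / (2 * T ^ 2) := by
      field_simp
    have h3 : 0 ≤ m ^ 2 / (2 * T ^ 2) := by positivity
    linarith
  have g6 : M / (2 * T) = M / T / 2 := by field_simp
  refine ⟨?_, ?_, ?_⟩
  · rw [g1]
    nlinarith
  · rw [g1, g6]
    have hx := xexp (x := M / T)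
    have hMT : 0 ≤ M / T := div_nonneg (by linarith) hT.le
    have hd : 0 ≤ (M - m) / T := div_nonneg (by linarith) hT.le
    have k1 : (M ^ 2 - m ^ 2) / (2 * T ^ 2) ≤ M / T * ((M - m) / T) := by
      rw [div_mul_div_comm, div_le_div_iff₀ (by positivity) (by positivity)]
      have : (M ^ 2 - m ^ 2) ≤ 2 * (M * (M - m)) := by nlinarith
      have hTT : 0 ≤ T * T := by positivity
      nlinarith [mul_le_mul_of_nonneg_right this hTT]
    calc Real.exp (-((M ^ 2 + m ^ 2) / (2 * T ^ 2))) - Real.exp (-((M ^ 2 + m ^ 2) / (2 * T ^ 2))) *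
          Real.exp (-((M ^ 2 - m ^ 2) / (2 * T ^ 2)))
        ≤ Real.exp (-((M ^ 2 + m ^ 2) / (2 * T ^ 2))) * ((M ^ 2 - m ^ 2) / (2 * T ^ 2)) := by
          nlinarith
      _ ≤ Real.exp (-(M / T) ^ 2 / 2) * (M / T * ((M - m) / T)) :=
          mul_le_mul g5 k1 g3 (Real.exp_pos _).le
      _ = (M / T * Real.exp (-(M / T) ^ 2 / 2)) * ((M - m) / T) := by ring
      _ ≤ _ := mul_le_mul_of_nonneg_right hx hd
  · refine g5.trans ?_
    rw [g6]
    apply Real.exp_le_exp.2
    nlinarith [sq_nonneg (M / T)]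

lemma pw {g : ℝ} (hg : 0 < g) {T h : ℝ} (hT : 10 ≤ T) (hh : 0 < h)
    (hhT : h * Real.log T ≤ T) {s s' : ℂ} (h1 : g ≤ s.im) (h2 : g ≤ s'.im) :
    |gw T s s' * (Kt h ((s.im - s'.im) * Real.log T / (2 * Real.pi)) +
        Kt h ((s.im + s'.im) * Real.log T / (2 * Real.pi))) -
      Kt h ((s.im - s'.im) * Real.log T / (2 * Real.pi)) * Real.exp (-(max s.im s'.im / T) ^ 2)| ≤
    (12 + 1 / g ^ 2) / Real.log T ^ 2 *
      (wq s s' * Real.exp (-(max s.im s'.im / (2 * T)) ^ 2)) := by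
  have hpi := Real.pi_pos
  have hL := one_lt_log (show 3 ≤ T by linarith)
  have hT0 : 0 < T := by linarith
  obtain ⟨L, hLe⟩ : ∃ L : ℝ, L = Real.log T := ⟨_, rfl⟩
  rw [← hLe] at hhT hL ⊢
  have hL0 : 0 < L := by linarith
  obtain ⟨a1, a2, a3⟩ := gw_diff hT0 (hg.trans_le h1) (hg.trans_le h2)
  obtain ⟨E, hE⟩ : ∃ E : ℝ, E = Real.exp (-(max s.im s'.im / (2 * T)) ^ 2) := ⟨_, rfl⟩
  obtain ⟨G, hG⟩ : ∃ G : ℝ, G = Real.exp (-(max s.im s'.im / T) ^ 2) := ⟨_, rfl⟩
  have hE0 : 0 < E := by rw [hE]; exact Real.exp_pos _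
  have hgw0 : 0 < gw T s s' := Real.exp_pos _
  rw [← hE] at a2 a3 ⊢
  rw [← hG] at a1 a2 ⊢
  obtain ⟨d, hd⟩ : ∃ d : ℝ, d = s.im - s'.im := ⟨_, rfl⟩
  obtain ⟨σ, hσ⟩ : ∃ σ : ℝ, σ = s.im + s'.im := ⟨_, rfl⟩
  rw [← hd] at a2 ⊢
  rw [← hσ]
  have hwq : wq s s' = 1 / (1 + d ^ 2) := by unfold wq; rw [hd]
  rw [hwq]
  have hσ1 : 2 * g ≤ σ := by rw [hσ]; linarith
  have hσ2 : d ^ 2 ≤ σ ^ 2 := by
    rw [hσ, hd]
    have : 0 ≤ s.im * s'.im := mul_nonneg (by linarith) (by linarith)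
    nlinarith
  have hσ0 : 0 < σ := by linarith
  have K1 := Kt_nonneg hh (d * L / (2 * Real.pi))
  have K2 := Kt_nonneg hh (σ * L / (2 * Real.pi))
  -- the bound for the sum
  have b2 : gw T s s' * Kt h (σ * L / (2 * Real.pi)) ≤
      (4 + 1 / g ^ 2) / L ^ 2 * (1 / (1 + d ^ 2) * E) := by
    have c1 := Kt_le' hh (x := σ * L / (2 * Real.pi)) (by positivity)
    have c2 : 1 / (Real.pi * (σ * L / (2 * Real.pi))) ^ 2 = 4 / L ^ 2 * (1 / σ ^ 2) := by
      field_simp
      norm_num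
    have c3 : 1 / σ ^ 2 ≤ (1 + 1 / (4 * g ^ 2)) * (1 / (1 + d ^ 2)) := by
      rw [mul_one_div, div_le_div_iff₀ (by positivity) (by positivity)]
      have d1 : 1 ≤ σ ^ 2 / (4 * g ^ 2) := by
        rw [le_div_iff₀ (by positivity)]
        nlinarith
      have d2 : (1 + 1 / (4 * g ^ 2)) * σ ^ 2 = σ ^ 2 + σ ^ 2 / (4 * g ^ 2) := by
        field_simp
      rw [d2]
      linarith
    rw [c2] at c1
    have c4 : Kt h (σ * L / (2 * Real.pi)) ≤ (4 + 1 / g ^ 2) / L ^ 2 * (1 / (1 + d ^ 2)) := by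
      refine c1.trans ((mul_le_mul_of_nonneg_left c3 (by positivity)).trans (le_of_eq ?_))
      field_simp
    calc gw T s s' * Kt h (σ * L / (2 * Real.pi)) ≤ E * ((4 + 1 / g ^ 2) / L ^ 2 *
          (1 / (1 + d ^ 2))) := mul_le_mul a3 c4 K2 hE0.le
      _ = _ := by ring
  -- the bound for the difference
  have b1 : (gw T s s' - G) * Kt h (d * L / (2 * Real.pi)) ≤
      8 / L ^ 2 * (1 / (1 + d ^ 2) * E) := by
    rcases eq_or_ne d 0 with hd0 | hd0
    · have : gw T s s' - G ≤ 0 := by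
        rw [hd0, abs_zero, zero_div, mul_zero] at a2
        exact a2
      have : (gw T s s' - G) * Kt h (d * L / (2 * Real.pi)) ≤ 0 :=
        mul_nonpos_of_nonpos_of_nonneg this K1
      exact this.trans (by positivity)
    · have hdp : 0 < |d| := abs_pos.2 hd0
      have c1 := Kt_le' hh (x := d * L / (2 * Real.pi)) (by positivity)
      have c2 : 1 / (Real.pi * (d * L / (2 * Real.pi))) ^ 2 = 4 / (|d| * L) ^ 2 := by
        rw [mul_pow |d|, sq_abs]
        field_simp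
        norm_num
      rw [c2] at c1
      have c3 := Kt_le hh (d * L / (2 * Real.pi))
      rcases le_or_gt |d| 1 with hd1 | hd1
      · have c4 : Kt h (d * L / (2 * Real.pi)) ≤ 2 * h / (|d| * L) := by
          refine (sq_le_sq₀ K1 (by positivity)).1 ?_
          calc Kt h (d * L / (2 * Real.pi)) ^ 2 = Kt h (d * L / (2 * Real.pi)) *
                Kt h (d * L / (2 * Real.pi)) := sq _
            _ ≤ h ^ 2 * (4 / (|d| * L) ^ 2) := mul_le_mul c3 c1 K1 (by positivity)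
            _ = (2 * h / (|d| * L)) ^ 2 := by ring
        calc (gw T s s' - G) * Kt h (d * L / (2 * Real.pi)) ≤
              (E * (|d| / T)) * (2 * h / (|d| * L)) := mul_le_mul a2 c4 K1 (by positivity)
          _ = E * (2 * (h / (T * L))) := by field_simp
          _ ≤ E * (2 * (1 / L ^ 2)) := by
              have : h / (T * L) ≤ 1 / L ^ 2 := by
                rw [div_le_div_iff₀ (by positivity) (by positivity)]
                nlinarith
              gcongr
          _ ≤ 8 / L ^ 2 * (1 / (1 + d ^ 2) * E) := by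
              have h3 : d ^ 2 ≤ 1 := by
                rw [← sq_abs]
                exact pow_le_one₀ hdp.le hd1
              have h4 : 1 / 2 ≤ 1 / (1 + d ^ 2) := by
                apply one_div_le_one_div_of_le (by positivity)
                linarith
              have h5 : 8 / L ^ 2 * (1 / 2 * E) ≤ 8 / L ^ 2 * (1 / (1 + d ^ 2) * E) := by
                gcongr
              have h6 : E * (2 * (1 / L ^ 2)) ≤ 8 / L ^ 2 * (1 / 2 * E) := by
                have : 0 ≤ E * (1 / L ^ 2) := by positivity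
                calc E * (2 * (1 / L ^ 2)) = 2 * (E * (1 / L ^ 2)) := by ring
                  _ ≤ 4 * (E * (1 / L ^ 2)) := by linarith
                  _ = _ := by ring
              exact h6.trans h5
      · calc (gw T s s' - G) * Kt h (d * L / (2 * Real.pi)) ≤ E * (4 / (|d| * L) ^ 2) := by
              refine mul_le_mul ?_ c1 K1 hE0.le
              have : 0 < G := by rw [hG]; exact Real.exp_pos _
              linarith
          _ = 4 / L ^ 2 * (1 / d ^ 2 * E) := by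
              rw [mul_pow, sq_abs]
              field_simp
          _ ≤ 4 / L ^ 2 * (2 * (1 / (1 + d ^ 2)) * E) := by
              have h3 : 1 ≤ d ^ 2 := by
                rw [← sq_abs]
                nlinarith
              have h4 : 1 / d ^ 2 ≤ 2 * (1 / (1 + d ^ 2)) := by
                rw [mul_one_div, div_le_div_iff₀ (by positivity) (by positivity)]
                linarith
              gcongr
          _ = _ := by ring
  have b0 : 0 ≤ (gw T s s' - G) * Kt h (d * L / (2 * Real.pi)) := mul_nonneg a1 K1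
  have b3 : 0 ≤ gw T s s' * Kt h (σ * L / (2 * Real.pi)) := mul_nonneg hgw0.le K2
  rw [abs_le]
  have e : gw T s s' * (Kt h (d * L / (2 * Real.pi)) + Kt h (σ * L / (2 * Real.pi))) -
      Kt h (d * L / (2 * Real.pi)) * G = (gw T s s' - G) * Kt h (d * L / (2 * Real.pi)) +
      gw T s s' * Kt h (σ * L / (2 * Real.pi)) := by ring
  have e2 : (12 + 1 / g ^ 2) / L ^ 2 * (1 / (1 + d ^ 2) * E) =
      8 / L ^ 2 * (1 / (1 + d ^ 2) * E) + (4 + 1 / g ^ 2) / L ^ 2 * (1 / (1 + d ^ 2) * E) := by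
    ring
  have e3 : 0 ≤ (12 + 1 / g ^ 2) / L ^ 2 * (1 / (1 + d ^ 2) * E) := by positivity
  rw [e]
  constructor
  · linarith
  · rw [e2]
    linarith

/-! ### polynomial moments -/

lemma gd_pow_int (k : ℕ) : IntegrableOn (fun c => gd c * c ^ k) (Ioi 0) := by
  have h1 := integrable_rpow_mul_exp_neg_mul_sq (b := 1) one_pos
    (s := ((k + 1 : ℕ) : ℝ)) (by
      have : (0 : ℝ) ≤ ((k + 1 : ℕ) : ℝ) := by positivity
      linarith)
  have h2 := (h1.const_mul 2).integrableOn (s := Ioi 0)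
  refine h2.congr_fun (fun c _ => ?_) measurableSet_Ioi
  simp only
  rw [Real.rpow_natCast]
  unfold gd
  rw [pow_succ]
  have : -1 * c ^ 2 = -c ^ 2 := by ring
  rw [this]
  ring

lemma gd_poly_int (k : ℕ) : IntegrableOn (fun c => gd c * (1 + 2 * c) ^ k) (Ioi 0) := by
  have e : (fun c : ℝ => gd c * (1 + 2 * c) ^ k) = fun c => ∑ m ∈ Finset.range (k + 1),
      (1 ^ m * 2 ^ (k - m) * (k.choose m : ℝ)) * (gd c * c ^ (k - m)) := by
    funext c
    rw [add_pow, Finset.mul_sum]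
    refine Finset.sum_congr rfl fun m _ => ?_
    rw [mul_pow]
    ring
  rw [e]
  exact integrable_finsetSum _ fun m _ => (gd_pow_int (k - m)).const_mul _

lemma MT_nonneg {T : ℝ} (hT : 1 < T) (Y : ℝ) {h : ℝ} (hh : 0 < h) (c : ℝ) : 0 ≤ MT T Y h c := by
  unfold MT
  have := Real.log_pos hT
  have := Real.pi_pos
  refine mul_nonneg (by positivity) (SPair_nonneg _ fun _ _ => Kt_nonneg hh _)

lemma MT_mono {T : ℝ} (hT : 1 < T) (Y : ℝ) {h : ℝ} (hh : 0 < h) : Monotone (MT T Y h) := by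
  intro c c' hcc
  unfold MT
  have := Real.log_pos hT
  have := Real.pi_pos
  refine mul_le_mul_of_nonneg_left (SPair_mono ?_ fun _ _ => Kt_nonneg hh _) (by positivity)
  exact min_le_min_right _ (mul_le_mul_of_nonneg_right hcc (by linarith))

lemma MT_int {T : ℝ} (hT : 0 < T) (Y h : ℝ) :
    IntegrableOn (fun c => gd c * MT T Y h c) (Ioi 0) := by
  have h1 : IntegrableOn (fun c => 4 * Real.pi / (T * Real.log T) * (gd c *
      SPair (min (c * T) Y) fun s s' => Kt h ((s.im - s'.im) * Real.log T / (2 * Real.pi))))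
      (Ioi 0) := (layer_int Y hT
    (fun s s' => Kt h ((s.im - s'.im) * Real.log T / (2 * Real.pi)))).const_mul
      (4 * Real.pi / (T * Real.log T))
  refine h1.congr_fun (fun c _ => ?_) measurableSet_Ioi
  unfold MT
  simp only
  ring

/-- **the mixture** -/
theorem Jt_mix : ∃ C : ℝ, 0 < C ∧ ∀ T : ℝ, 10 ≤ T → ∀ Y h : ℝ, 0 < h → h * Real.log T ≤ T →
    |Jt (Dz T Y) h - ∫ c in Ioi (0 : ℝ), gd c * MT T Y h c| ≤ C / Real.log T := by
  obtain ⟨C, hC, hrow⟩ := row_bound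
  obtain ⟨g, hg, _, hlow⟩ := low_ord
  have hpi := Real.pi_pos
  obtain ⟨I, hI⟩ : ∃ I : ℝ, I = ∫ c in Ioi (0 : ℝ), gd c * (1 + 2 * c) ^ 3 := ⟨_, rfl⟩
  have hI0 : 0 ≤ I := by
    rw [hI]
    exact setIntegral_nonneg measurableSet_Ioi fun c hc => mul_nonneg (gd_nonneg (le_of_lt hc))
      (by have : (0 : ℝ) < c := hc
          positivity)
  obtain ⟨K, hK⟩ : ∃ K : ℝ, K = 12 + 1 / g ^ 2 := ⟨_, rfl⟩
  have hK0 : 0 < K := by rw [hK]; positivity
  refine ⟨4 * Real.pi * K * C * I + 1, by positivity, fun T hT Y h hh hhT => ?_⟩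
  have hL := one_lt_log (show 3 ≤ T by linarith)
  have hT0 : 0 < T := by linarith
  obtain ⟨L, hLe⟩ : ∃ L : ℝ, L = Real.log T := ⟨_, rfl⟩
  have hL0 : 0 < L := by rw [hLe]; linarith
  have e1 : ∫ c in Ioi (0 : ℝ), gd c * MT T Y h c = 4 * Real.pi / (T * Real.log T) *
      ∑ s ∈ ZZ Y, ∑ s' ∈ ZZ Y, mm s * mm s' *
        (Kt h ((s.im - s'.im) * Real.log T / (2 * Real.pi)) *
          Real.exp (-(max s.im s'.im / T) ^ 2)) := by
    rw [layer Y hT0 (fun s s' => Kt h ((s.im - s'.im) * Real.log T / (2 * Real.pi))),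
      ← integral_const_mul]
    refine integral_congr_ae (ae_of_all _ fun c => ?_)
    unfold MT
    simp only
    ring
  rw [e1, Jt_Dz Y (by linarith) hh, ← mul_sub, abs_mul, abs_of_nonneg (by positivity),
    ← Finset.sum_sub_distrib]
  have h1 : |∑ s ∈ ZZ Y, (∑ s' ∈ ZZ Y, mm s * mm s' * (gw T s s' *
        (Kt h ((s.im - s'.im) * Real.log T / (2 * Real.pi)) +
          Kt h ((s.im + s'.im) * Real.log T / (2 * Real.pi)))) -
      ∑ s' ∈ ZZ Y, mm s * mm s' * (Kt h ((s.im - s'.im) * Real.log T / (2 * Real.pi)) *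
          Real.exp (-(max s.im s'.im / T) ^ 2)))| ≤
      ∑ s ∈ ZZ Y, ∑ s' ∈ ZZ Y, mm s * mm s' * (K / L ^ 2 *
        (wq s s' * Real.exp (-(max s.im s'.im / (2 * T)) ^ 2))) := by
    refine (Finset.abs_sum_le_sum_abs _ _).trans (Finset.sum_le_sum fun s hs => ?_)
    rw [← Finset.sum_sub_distrib]
    refine (Finset.abs_sum_le_sum_abs _ _).trans (Finset.sum_le_sum fun s' hs' => ?_)
    rw [← mul_sub, abs_mul, abs_of_nonneg (mul_nonneg (mm_nonneg _) (mm_nonneg _))]
    refine mul_le_mul_of_nonneg_left ?_ (mul_nonneg (mm_nonneg _) (mm_nonneg _))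
    rw [hK, hLe]
    exact pw hg hT hh hhT (hlow Y s hs) (hlow Y s' hs')
  have h2 : ∑ s ∈ ZZ Y, ∑ s' ∈ ZZ Y, mm s * mm s' * (K / L ^ 2 *
        (wq s s' * Real.exp (-(max s.im s'.im / (2 * T)) ^ 2))) =
      K / L ^ 2 * ∫ c in Ioi (0 : ℝ), gd c * SPair (min (c * (2 * T)) Y) wq := by
    rw [← layer Y (by positivity) wq, Finset.mul_sum]
    refine Finset.sum_congr rfl fun s _ => ?_
    rw [Finset.mul_sum]
    refine Finset.sum_congr rfl fun s' _ => ?_
    ring
  have h3 : ∫ c in Ioi (0 : ℝ), gd c * SPair (min (c * (2 * T)) Y) wq ≤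
      ∫ c in Ioi (0 : ℝ), C * (T * L ^ 2) * (gd c * (1 + 2 * c) ^ 3) := by
    refine setIntegral_mono_on (layer_int Y (by positivity) wq) ((gd_poly_int 3).const_mul _)
      measurableSet_Ioi fun c hc => ?_
    have hc0 : 0 < c := hc
    have b1 : SPair (min (c * (2 * T)) Y) wq ≤ C * (T * L ^ 2) * (1 + 2 * c) ^ 3 := by
      refine (SPair_mono (min_le_left _ _) wq_nonneg).trans ((hrow _ (by positivity)).trans ?_)
      have b2 : c * (2 * T) + 10 ≤ T * (1 + 2 * c) := by nlinarith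
      have b3 : Real.log (c * (2 * T) + 10) ≤ L * (1 + 2 * c) := by
        refine (Real.log_le_log (by positivity) b2).trans ?_
        rw [Real.log_mul (by positivity) (by positivity)]
        have b4 : Real.log (1 + 2 * c) ≤ 2 * c := by
          have := Real.log_le_sub_one_of_pos (show 0 < 1 + 2 * c by positivity)
          linarith
        rw [← hLe]
        rw [← hLe] at hL
        nlinarith
      have b5 : 0 ≤ Real.log (c * (2 * T) + 10) := Real.log_nonneg (by nlinarith)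
      calc C * ((c * (2 * T) + 10) * Real.log (c * (2 * T) + 10) ^ 2)
          ≤ C * ((T * (1 + 2 * c)) * (L * (1 + 2 * c)) ^ 2) := by gcongr
        _ = _ := by ring
    calc gd c * SPair (min (c * (2 * T)) Y) wq ≤ gd c * (C * (T * L ^ 2) * (1 + 2 * c) ^ 3) :=
          mul_le_mul_of_nonneg_left b1 (gd_nonneg hc0.le)
      _ = _ := by ring
  rw [integral_const_mul, ← hI] at h3
  rw [h2] at h1
  refine (mul_le_mul_of_nonneg_left (h1.trans (mul_le_mul_of_nonneg_left h3 (by positivity)))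
    (by positivity)).trans ?_
  rw [← hLe]
  have e4 : 4 * Real.pi / (T * L) * (K / L ^ 2 * (C * (T * L ^ 2) * I)) =
      4 * Real.pi * K * C * I / L := by
    field_simp
  rw [e4]
  apply div_le_div_of_nonneg_right _ hL0.le
  linarith

end Pool.Agent.NH10.GM
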