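import Pool.Agent.NH10.GM.EF1
import Pool.Agent.NH10.GM.Mix2

/-! # The explicit formula with Gaussian weights: preparations -/

set_option autoImplicit false
set_option maxHeartbeats 4000000

open Complex Filter Topology Set MeasureTheory

namespace Pool.Agent.NH10.GM

open Pool.Agent.Y749.Rig H370 H343

lemma re_half (RH : RiemannHypothesis) {s : ℂ} (h0 : riemannZeta s = 0) (h1 : 0 < s.re)
    (h2 : s.re < 1) : s.re = 1 / 2 := by
  refine RH s h0 ?_ ?_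
  · rintro ⟨n, hn⟩
    have := congrArg Complex.re hn
    simp at this
    have hn0 : (0 : ℝ) ≤ n := Nat.cast_nonneg n
    linarith
  · intro h
    rw [h] at h2
    simp at h2

lemma hT_val (T u : ℝ) {s : ℂ} (hs : s.re = 1 / 2) : hhb (1 / T ^ 2) u 0 s =
    cexp (((u * s.im : ℝ) : ℂ) * I) * ((Real.exp (-(s.im ^ 2 / (2 * T ^ 2))) : ℝ) : ℂ) := by
  have e : s - 1 / 2 = (s.im : ℂ) * I := by
    apply Complex.ext <;> simp [hs]
  unfold hhb
  rw [e, ofReal_zero, mul_zero, sub_zero, ofReal_exp]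
  congr 2
  · push_cast; ring
  · rw [mul_pow, I_sq]
    push_cast
    ring

/-- the sum over the zeros -/
lemma zsum (RH : RiemannHypothesis) {T Y u : ℝ} (hY : 0 < Y)
    (hgood : ∀ σ ∈ Icc (-1 / 2 : ℝ) (3 / 2), riemannZeta (⟨σ, Y⟩ : ℂ) ≠ 0) :
    ∑ᶠ s ∈ {s | s ∈ Ioo (-1 / 2 : ℝ) (3 / 2) ×ℂ Ioo (-Y) Y ∧ riemannZeta₁ s = 0},
      (mult riemannZeta₁ s : ℂ) * hhb (1 / T ^ 2) u 0 s = ((Zr T Y u : ℝ) : ℂ) := by
  have him : ∀ s ∈ ZZ Y, riemannZeta s = 0 ∧ 0 < s.re ∧ s.re < 1 ∧ 0 < s.im ∧ s.im < Y := by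
    intro s hs
    rw [mem_ZZ] at hs
    have h0 := zs_im_pos hs
    obtain ⟨h1, h2, h3, h4, h5⟩ := hs
    refine ⟨h1, h2, h3, h0, lt_of_le_of_ne h5 fun he => ?_⟩
    refine hgood s.re ⟨by linarith, by linarith⟩ ?_
    rw [← he]
    exact h1
  have hset : {s | s ∈ Ioo (-1 / 2 : ℝ) (3 / 2) ×ℂ Ioo (-Y) Y ∧ riemannZeta₁ s = 0} =
      (↑(ZZ Y) : Set ℂ) ∪ (fun s => (starRingEnd ℂ) s) '' (↑(ZZ Y) : Set ℂ) := by
    ext s
    constructor
    · rintro ⟨⟨h1, h2⟩, h3⟩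
      rw [mem_preimage] at h1 h2
      obtain ⟨a1, a2, a3, a4⟩ := z1_strip h1.1.le h3
      rcases lt_or_gt_of_ne a3 with h | h
      · right
        refine ⟨(starRingEnd ℂ) s, ?_, Complex.conj_conj s⟩
        rw [Finset.mem_coe, mem_ZZ]
        refine ⟨?_, by simpa using a1, by simpa using a2, by simp; linarith, by
          simp; linarith [h2.1]⟩
        rw [riemannZeta_conj, a4, map_zero]
      · left
        rw [Finset.mem_coe, mem_ZZ]
        exact ⟨a4, a1, a2, h.le, h2.2.le⟩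
    · rintro (hs | ⟨t, ht, rfl⟩)
      · rw [Finset.mem_coe] at hs
        obtain ⟨h1, h2, h3, h4, h5⟩ := him s hs
        refine ⟨⟨⟨by linarith, by linarith⟩, ⟨by linarith, h5⟩⟩, z1_zero' ?_ h1⟩
        intro h
        rw [h] at h3
        simp at h3
      · rw [Finset.mem_coe] at ht
        obtain ⟨h1, h2, h3, h4, h5⟩ := him t ht
        have hne : t ≠ 1 := by
          intro h
          rw [h] at h3
          simp at h3
        refine ⟨⟨⟨?_, ?_⟩, ⟨?_, ?_⟩⟩, ?_⟩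
        · simp; linarith
        · simp; linarith
        · simp; linarith
        · simp; linarith
        · show riemannZeta₁ ((starRingEnd ℂ) t) = 0
          rw [z1_conj, z1_zero' hne h1, map_zero]
  have hdisj : Disjoint (↑(ZZ Y) : Set ℂ)
      ((fun s => (starRingEnd ℂ) s) '' (↑(ZZ Y) : Set ℂ)) := by
    rw [Set.disjoint_left]
    rintro s hs ⟨t, ht, rfl⟩
    rw [Finset.mem_coe] at hs ht
    have h1 := (him t ht).2.2.2.1
    have h2 := (him _ hs).2.2.2.1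
    simp at h2
    linarith
  have hinj : Set.InjOn (fun s => (starRingEnd ℂ) s) (↑(ZZ Y) : Set ℂ) :=
    (starRingEnd ℂ).injective.injOn
  rw [hset, finsum_mem_union hdisj (Finset.finite_toSet _) ((Finset.finite_toSet _).image _),
    finsum_mem_image hinj, finsum_mem_coe_finset, finsum_mem_coe_finset, ← Finset.sum_add_distrib]
  unfold Zr
  rw [ofReal_sum]
  refine Finset.sum_congr rfl fun s hs => ?_
  obtain ⟨h1, h2, h3, h4, h5⟩ := him s hs
  have hne : s ≠ 1 := by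
    intro h
    rw [h] at h3
    simp at h3
  have hre := re_half RH h1 h2 h3
  have hre' : ((starRingEnd ℂ) s).re = 1 / 2 := by simpa using hre
  rw [z1_mult_conj, z1_mult hne, hT_val T u hre, hT_val T u hre']
  have e1 : ((starRingEnd ℂ) s).im = -s.im := by simp
  rw [e1]
  have e2 : cexp (((u * s.im : ℝ) : ℂ) * I) + cexp (((u * -s.im : ℝ) : ℂ) * I) =
      2 * ((Real.cos (u * s.im) : ℝ) : ℂ) := by
    rw [ofReal_cos, Complex.cos]
    push_cast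
    ring_nf
  have e3 : mm s = (mult riemannZeta s : ℝ) := rfl
  rw [e3, neg_sq]
  push_cast at e2 ⊢
  linear_combination ((mult riemannZeta s : ℂ) * cexp (-((s.im : ℂ) ^ 2 / (2 * (T : ℂ) ^ 2)))) * e2

/-! ### the bounds -/

lemma hor_bd {b u : ℝ} (hb : 0 < b) (hb1 : b ≤ 1) (hu : 0 ≤ u) {Y U x : ℝ} (hU : Y ^ 2 ≤ U ^ 2)
    (hx : x ∈ Icc (-1 / 2 : ℝ) (3 / 2)) :
    ‖hhb b u 0 (⟨x, U⟩ : ℂ)‖ ≤ Real.exp u * (2 * Real.exp (-b * Y ^ 2 / 2)) := by
  rw [norm_hhb, sub_zero]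
  have h1 : Real.exp (u * (x - 1 / 2)) ≤ Real.exp u := by
    apply Real.exp_le_exp.2
    nlinarith [hx.2]
  have h2 : Real.exp (b * ((x - 1 / 2) ^ 2 - U ^ 2) / 2) ≤ 2 * Real.exp (-b * Y ^ 2 / 2) := by
    have h3 : Real.exp (b * ((x - 1 / 2) ^ 2 - U ^ 2) / 2) ≤
        Real.exp (1 / 2) * Real.exp (-b * Y ^ 2 / 2) := by
      rw [← Real.exp_add]
      apply Real.exp_le_exp.2
      have h5 : (x - 1 / 2) ^ 2 ≤ 1 := by
        have h3 := hx.1
        have h4 := hx.2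
        nlinarith
      have h6 := mul_le_mul_of_nonneg_left h5 hb.le
      have h7 := mul_le_mul_of_nonneg_left hU hb.le
      nlinarith
    exact h3.trans (mul_le_mul_of_nonneg_right exp_half_le (Real.exp_pos _).le)
  exact mul_le_mul h1 h2 (Real.exp_pos _).le (Real.exp_pos _).le

lemma left_bd {b u : ℝ} (hb1 : b ≤ 1) (v : ℝ) :
    ‖hhb b u 0 (⟨-1 / 2, v⟩ : ℂ)‖ ≤ 2 * Real.exp (-u) * Real.exp (-b * v ^ 2 / 2) := by
  rw [norm_hhb, sub_zero]
  have e1 : u * (-1 / 2 - 1 / 2 : ℝ) = -u := by ring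
  have e2 : b * ((-1 / 2 - 1 / 2 : ℝ) ^ 2 - v ^ 2) / 2 = b / 2 + -b * v ^ 2 / 2 := by ring
  have h1 : Real.exp (b / 2) ≤ 2 := (Real.exp_le_exp.2 (by linarith)).trans exp_half_le
  rw [e1, e2, Real.exp_add]
  calc Real.exp (-u) * (Real.exp (b / 2) * Real.exp (-b * v ^ 2 / 2)) ≤
        Real.exp (-u) * (2 * Real.exp (-b * v ^ 2 / 2)) := by gcongr
    _ = _ := by ring

lemma right_bd {b u : ℝ} (hb1 : b ≤ 1) (v : ℝ) :
    ‖hhb b u 0 (⟨3 / 2, v⟩ : ℂ)‖ ≤ 2 * Real.exp u * Real.exp (-b * v ^ 2 / 2) := by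
  rw [norm_hhb, sub_zero]
  have e1 : u * (3 / 2 - 1 / 2 : ℝ) = u := by ring
  have e2 : b * ((3 / 2 - 1 / 2 : ℝ) ^ 2 - v ^ 2) / 2 = b / 2 + -b * v ^ 2 / 2 := by ring
  have h1 : Real.exp (b / 2) ≤ 2 := (Real.exp_le_exp.2 (by linarith)).trans exp_half_le
  rw [e1, e2, Real.exp_add]
  calc Real.exp u * (Real.exp (b / 2) * Real.exp (-b * v ^ 2 / 2)) ≤
        Real.exp u * (2 * Real.exp (-b * v ^ 2 / 2)) := by gcongr
    _ = _ := by ring

lemma z1_line_ne {σ : ℝ} (h1 : -1 / 2 ≤ σ) (h2 : σ ≤ 0 ∨ 1 ≤ σ) (v : ℝ) :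
    riemannZeta₁ (⟨σ, v⟩ : ℂ) ≠ 0 := by
  intro h
  obtain ⟨a1, a2, _, _⟩ := z1_strip (s := ⟨σ, v⟩) h1 h
  rcases h2 with h2 | h2
  · exact absurd a1 (not_lt.2 h2)
  · exact absurd a2 (not_lt.2 h2)

lemma line_cont (σ : ℝ) : Continuous fun y : ℝ => (⟨σ, y⟩ : ℂ) := by
  have : (fun y : ℝ => (⟨σ, y⟩ : ℂ)) = fun y : ℝ => (σ : ℂ) + y * I := by
    funext v; exact mk_eq _ v
  rw [this]; fun_prop

lemma z1_ld_cont {σ : ℝ} (h1 : -1 / 2 ≤ σ) (h2 : σ ≤ 0 ∨ 1 ≤ σ) :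
    Continuous fun y : ℝ => deriv riemannZeta₁ (⟨σ, y⟩ : ℂ) / riemannZeta₁ (⟨σ, y⟩ : ℂ) := by
  have c1 : Continuous riemannZeta₁ := differentiable_riemannZeta₁.continuous
  have c2 : Continuous (deriv riemannZeta₁) := by
    rw [continuous_iff_continuousAt]
    exact fun s => (z1_an s).deriv.continuousAt
  exact (c2.comp (line_cont σ)).div (c1.comp (line_cont σ)) fun y => z1_line_ne h1 h2 y

/-- the logarithmic derivative on the left line -/
lemma ld_left : ∃ C : ℝ, 0 < C ∧ ∀ y : ℝ,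
    ‖deriv riemannZeta₁ (⟨-1 / 2, y⟩ : ℂ) / riemannZeta₁ (⟨-1 / 2, y⟩ : ℂ)‖ ≤
      C + Real.log (1 + |y|) := by
  obtain ⟨C₁, hC₁⟩ := good_zeta.left
  obtain ⟨B, hB⟩ := (isCompact_Icc (a := (-1 : ℝ)) (b := 1)).exists_bound_of_continuousOn
    (z1_ld_cont (σ := -1 / 2) le_rfl (Or.inl (by norm_num))).continuousOn
  have hD0 := D0_nonneg
  have hpos : ∀ y : ℝ, 1 ≤ y →
      ‖deriv riemannZeta₁ (⟨-1 / 2, y⟩ : ℂ) / riemannZeta₁ (⟨-1 / 2, y⟩ : ℂ)‖ ≤
        |C₁| + D0 + 1 + Real.log (1 + |y|) := by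
    intro y hy
    have hne : riemannZeta (⟨-1 / 2, y⟩ : ℂ) ≠ 0 := zeta_ne_left (by norm_num) (by norm_num)
    have hne1 : (⟨-1 / 2, y⟩ : ℂ) ≠ 1 := by
      intro h
      have := congrArg Complex.re h
      norm_num at this
    have h1 := hC₁ (⟨-1 / 2, y⟩ : ℂ) (by norm_num) (by norm_num) hy hne
    have h2 : (1 : ℂ) - (starRingEnd ℂ) (⟨-1 / 2, y⟩ : ℂ) = ⟨3 / 2, y⟩ := by
      apply Complex.ext <;> simp <;> norm_num
    rw [h2, H343.zeta_ld (⟨3 / 2, y⟩ : ℂ) (by norm_num)] at h1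
    rw [z1_ld hne1 hne]
    have h3 : ‖(starRingEnd ℂ) (- ∑' n : ℕ, (ArithmeticFunction.vonMangoldt n : ℂ) *
        (n : ℂ) ^ (-(⟨3 / 2, y⟩ : ℂ)))‖ ≤ D0 := by
      rw [RCLike.norm_conj, norm_neg]
      exact norm_DD (fun n => (ArithmeticFunction.vonMangoldt n : ℂ)) (fun n => by
        rw [Complex.norm_real, Real.norm_of_nonneg ArithmeticFunction.vonMangoldt_nonneg]) y
    have h4 : ‖(1 : ℂ) / ((⟨-1 / 2, y⟩ : ℂ) - 1)‖ ≤ 1 := by
      rw [norm_div, norm_one]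
      apply div_le_one_of_le₀ _ (norm_nonneg _)
      have h5 := Complex.abs_re_le_norm ((⟨-1 / 2, y⟩ : ℂ) - 1)
      have h6 : ((⟨-1 / 2, y⟩ : ℂ) - 1).re = -(3 / 2) := by norm_num
      rw [h6, abs_neg, abs_of_pos (by norm_num)] at h5
      linarith
    have h7 : |(Real.log y)| ≤ Real.log (1 + |y|) := by
      rw [abs_of_nonneg (Real.log_nonneg hy), abs_of_nonneg (by linarith)]
      exact Real.log_le_log (by linarith) (by linarith)
    have h8 : (⟨-1 / 2, y⟩ : ℂ).im = y := rfl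
    rw [h8] at h1
    obtain ⟨X, hX⟩ : ∃ X : ℂ, X = deriv riemannZeta (⟨-1 / 2, y⟩ : ℂ) /
      riemannZeta (⟨-1 / 2, y⟩ : ℂ) := ⟨_, rfl⟩
    obtain ⟨W, hW⟩ : ∃ W : ℂ, W = (starRingEnd ℂ) (- ∑' n : ℕ,
      (ArithmeticFunction.vonMangoldt n : ℂ) * (n : ℂ) ^ (-(⟨3 / 2, y⟩ : ℂ))) := ⟨_, rfl⟩
    rw [← hX, ← hW] at h1
    rw [← hX]
    rw [← hW] at h3
    have e : X + 1 / ((⟨-1 / 2, y⟩ : ℂ) - 1) = (X + (Real.log y : ℂ) + W) - (Real.log y : ℂ) - W +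
        1 / ((⟨-1 / 2, y⟩ : ℂ) - 1) := by ring
    rw [e]
    have n1 := norm_add_le ((X + (Real.log y : ℂ) + W) - (Real.log y : ℂ) - W)
      (1 / ((⟨-1 / 2, y⟩ : ℂ) - 1))
    have n2 := norm_sub_le ((X + (Real.log y : ℂ) + W) - (Real.log y : ℂ)) W
    have n3 := norm_sub_le (X + (Real.log y : ℂ) + W) (Real.log y : ℂ)
    rw [Complex.norm_real, Real.norm_eq_abs] at n3
    have n4 := le_abs_self C₁
    linarith
  refine ⟨|C₁| + D0 + 1 + |B|, by positivity, fun y => ?_⟩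
  have hl : 0 ≤ Real.log (1 + |y|) := Real.log_nonneg (by linarith [abs_nonneg y])
  have hB0 := abs_nonneg B
  rcases le_or_gt 1 y with h1 | h1
  · have := hpos y h1
    linarith
  · rcases le_or_gt y (-1) with h2 | h2
    · have h3 := hpos (-y) (by linarith)
      have e : (⟨-1 / 2, y⟩ : ℂ) = (starRingEnd ℂ) (⟨-1 / 2, -y⟩ : ℂ) := by
        apply Complex.ext <;> simp
      rw [e, z1_ld_conj, RCLike.norm_conj]
      rw [abs_neg] at h3
      linarith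
    · have h3 := hB y ⟨h2.le, h1.le⟩
      have := le_abs_self B
      have := abs_nonneg C₁
      linarith

lemma log_T {T v : ℝ} (hT : 1 ≤ T) : Real.log (1 + |v|) ≤ Real.log T + |v| / T := by
  have hT0 : 0 < T := by linarith
  have hv := abs_nonneg v
  have h1 : Real.log (1 + |v|) = Real.log T + Real.log ((1 + |v|) / T) := by
    rw [Real.log_div (by positivity) (by positivity)]
    ring
  have h2 := Real.log_le_sub_one_of_pos (show 0 < (1 + |v|) / T by positivity)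
  have h3 : (1 + |v|) / T - 1 ≤ |v| / T := by
    rw [add_div]
    have : 1 / T ≤ 1 := by rw [div_le_one hT0]; exact hT
    linarith
  linarith

/-- the left side -/
lemma left_int : ∃ C : ℝ, 0 < C ∧ ∀ T : ℝ, 10 ≤ T → ∀ Y u : ℝ, 0 ≤ Y →
    ‖∫ y in (-Y)..Y, deriv riemannZeta₁ (⟨-1 / 2, y⟩ : ℂ) / riemannZeta₁ (⟨-1 / 2, y⟩ : ℂ) *
      hhb (1 / T ^ 2) u 0 (⟨-1 / 2, y⟩ : ℂ)‖ ≤ C * (Real.exp (-u) * (T * Real.log T)) := by
  obtain ⟨C, hC, hl⟩ := ld_left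
  refine ⟨2 * (C + 2) * 6, by positivity, fun T hT Y u hY => ?_⟩
  have hL := one_lt_log (show 3 ≤ T by linarith)
  have hT0 : 0 < T := by linarith
  have hb1 : 1 / T ^ 2 ≤ 1 := by
    rw [div_le_one (by positivity)]
    nlinarith
  have hK := int_boundb (f := fun y : ℝ => deriv riemannZeta₁ (⟨-1 / 2, y⟩ : ℂ) /
      riemannZeta₁ (⟨-1 / 2, y⟩ : ℂ) * hhb (1 / T ^ 2) u 0 (⟨-1 / 2, y⟩ : ℂ))
    (b := 1 / (2 * T ^ 2)) (K := 2 * Real.exp (-u) * ((C + 2) * Real.log T)) (t := 0)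
    (by positivity) (show -Y ≤ Y by linarith) (by positivity) (by
      intro v _
      rw [norm_mul, sub_zero]
      have h1 := hl v
      have h2 := left_bd (u := u) hb1 v
      have h3 := log_T (v := v) (show 1 ≤ T by linarith)
      have hE : 0 < Real.exp (-u) := Real.exp_pos _
      have e1 : -(1 / T ^ 2) * v ^ 2 / 2 = -(|v| / T) ^ 2 / 2 := by
        rw [div_pow, sq_abs]; ring
      have e2 : -(1 / (2 * T ^ 2)) * v ^ 2 / 2 = -((|v| / T) / 2) ^ 2 := by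
        rw [div_pow, div_pow, sq_abs]; ring
      rw [e1] at h2
      rw [e2]
      obtain ⟨x, hx⟩ : ∃ x : ℝ, x = |v| / T := ⟨_, rfl⟩
      have hx0 : 0 ≤ x := by rw [hx]; positivity
      rw [← hx] at h2 h3 ⊢
      have k1 := xexp (x := x)
      have k2 : Real.exp (-x ^ 2 / 2) ≤ Real.exp (-(x / 2) ^ 2) :=
        Real.exp_le_exp.2 (by nlinarith [sq_nonneg x])
      have k3 : (C + Real.log (1 + |v|)) * Real.exp (-x ^ 2 / 2) ≤
          (C + 2) * Real.log T * Real.exp (-(x / 2) ^ 2) := by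
        have hE2 : 0 < Real.exp (-(x / 2) ^ 2) := Real.exp_pos _
        calc (C + Real.log (1 + |v|)) * Real.exp (-x ^ 2 / 2) ≤
              (C + (Real.log T + x)) * Real.exp (-x ^ 2 / 2) := by gcongr
          _ = (C + Real.log T) * Real.exp (-x ^ 2 / 2) + x * Real.exp (-x ^ 2 / 2) := by ring
          _ ≤ (C + Real.log T) * Real.exp (-(x / 2) ^ 2) + Real.exp (-(x / 2) ^ 2) := by gcongr
          _ = (C + Real.log T + 1) * Real.exp (-(x / 2) ^ 2) := by ring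
          _ ≤ (C + 2) * Real.log T * Real.exp (-(x / 2) ^ 2) := by
              apply mul_le_mul_of_nonneg_right _ hE2.le
              nlinarith
      calc ‖deriv riemannZeta₁ (⟨-1 / 2, v⟩ : ℂ) / riemannZeta₁ (⟨-1 / 2, v⟩ : ℂ)‖ *
            ‖hhb (1 / T ^ 2) u 0 (⟨-1 / 2, v⟩ : ℂ)‖ ≤
            (C + Real.log (1 + |v|)) * (2 * Real.exp (-u) * Real.exp (-x ^ 2 / 2)) :=
            mul_le_mul h1 h2 (norm_nonneg _) ((norm_nonneg _).trans h1)
        _ = 2 * Real.exp (-u) * ((C + Real.log (1 + |v|)) * Real.exp (-x ^ 2 / 2)) := by ring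
        _ ≤ 2 * Real.exp (-u) * ((C + 2) * Real.log T * Real.exp (-(x / 2) ^ 2)) := by gcongr
        _ = _ := by ring)
  refine hK.trans ?_
  have e3 : Real.pi / (1 / (2 * T ^ 2) / 4) = (8 * Real.pi) * T ^ 2 := by
    field_simp
    norm_num
  have e4 : Real.sqrt (Real.pi / (1 / (2 * T ^ 2) / 4)) ≤ 6 * T := by
    rw [e3, Real.sqrt_mul (by positivity), Real.sqrt_sq hT0.le]
    apply mul_le_mul_of_nonneg_right _ hT0.le
    rw [Real.sqrt_le_left (by norm_num)]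
    have := Real.pi_le_four
    linarith
  calc 2 * Real.exp (-u) * ((C + 2) * Real.log T) * Real.sqrt (Real.pi / (1 / (2 * T ^ 2) / 4)) ≤
        2 * Real.exp (-u) * ((C + 2) * Real.log T) * (6 * T) := by gcongr
    _ = _ := by ring

/-- the left side for the pole -/
lemma left_int2 {T : ℝ} (hT : 10 ≤ T) (u : ℝ) {Y : ℝ} (hY : 0 ≤ Y) :
    ‖∫ y in (-Y)..Y, 1 / ((⟨-1 / 2, y⟩ : ℂ) - 1) *
      hhb (1 / T ^ 2) u 0 (⟨-1 / 2, y⟩ : ℂ)‖ ≤ 8 * (Real.exp (-u) * (T * Real.log T)) := by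
  have hL := one_lt_log (show 3 ≤ T by linarith)
  have hT0 : 0 < T := by linarith
  have hb1 : 1 / T ^ 2 ≤ 1 := by
    rw [div_le_one (by positivity)]
    nlinarith
  have hK := int_boundb (f := fun y : ℝ => 1 / ((⟨-1 / 2, y⟩ : ℂ) - 1) *
      hhb (1 / T ^ 2) u 0 (⟨-1 / 2, y⟩ : ℂ))
    (b := 1 / T ^ 2) (K := 2 * Real.exp (-u)) (t := 0)
    (by positivity) (show -Y ≤ Y by linarith) (by positivity) (by
      intro v _
      rw [norm_mul, sub_zero]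
      have h2 := left_bd (u := u) hb1 v
      have h4 : ‖(1 : ℂ) / ((⟨-1 / 2, v⟩ : ℂ) - 1)‖ ≤ 1 := by
        rw [norm_div, norm_one]
        apply div_le_one_of_le₀ _ (norm_nonneg _)
        have h5 := Complex.abs_re_le_norm ((⟨-1 / 2, v⟩ : ℂ) - 1)
        have h6 : ((⟨-1 / 2, v⟩ : ℂ) - 1).re = -(3 / 2) := by norm_num
        rw [h6, abs_neg, abs_of_pos (by norm_num)] at h5
        linarith
      calc ‖(1 : ℂ) / ((⟨-1 / 2, v⟩ : ℂ) - 1)‖ * ‖hhb (1 / T ^ 2) u 0 (⟨-1 / 2, v⟩ : ℂ)‖ ≤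
            1 * (2 * Real.exp (-u) * Real.exp (-(1 / T ^ 2) * v ^ 2 / 2)) :=
            mul_le_mul h4 h2 (norm_nonneg _) zero_le_one
        _ = _ := by ring)
  refine hK.trans ?_
  have e3 : Real.pi / (1 / T ^ 2 / 4) = (4 * Real.pi) * T ^ 2 := by
    field_simp
  have e4 : Real.sqrt (Real.pi / (1 / T ^ 2 / 4)) ≤ 4 * T := by
    rw [e3, Real.sqrt_mul (by positivity), Real.sqrt_sq hT0.le]
    apply mul_le_mul_of_nonneg_right _ hT0.le
    rw [Real.sqrt_le_left (by norm_num)]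
    have := Real.pi_le_four
    linarith
  calc 2 * Real.exp (-u) * Real.sqrt (Real.pi / (1 / T ^ 2 / 4)) ≤
        2 * Real.exp (-u) * (4 * T) := by gcongr
    _ = 8 * (Real.exp (-u) * (T * 1)) := by ring
    _ ≤ _ := by gcongr

end Pool.Agent.NH10.GM
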