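import Pool.Agent.NH10.GM.EF2

/-! # The explicit formula with Gaussian weights -/

set_option autoImplicit false
set_option maxHeartbeats 4000000

open Complex Filter Topology Set MeasureTheory

namespace Pool.Agent.NH10.GM

open Pool.Agent.Y749.Rig H370 H343

/-- the prime side -/
noncomputable def Vs (T u : ℝ) : ℝ :=
  (∑' n : ℕ, ArithmeticFunction.vonMangoldt n * (Real.sqrt n)⁻¹ *
    Real.exp (-(u - Real.log n) ^ 2 / (2 * (1 / T ^ 2)))) -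
    Real.sqrt (2 * Real.pi) / T * Real.exp (u / 2 + 1 / (8 * T ^ 2))

lemma lamC (n : ℕ) : ‖((ArithmeticFunction.vonMangoldt n : ℝ) : ℂ)‖ ≤
    ArithmeticFunction.vonMangoldt n := by
  rw [Complex.norm_real, Real.norm_of_nonneg ArithmeticFunction.vonMangoldt_nonneg]

lemma PPb_real (b u : ℝ) : PPb b (fun n => ((ArithmeticFunction.vonMangoldt n : ℝ) : ℂ)) u 0 =
    ((∑' n : ℕ, ArithmeticFunction.vonMangoldt n * (Real.sqrt n)⁻¹ *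
      Real.exp (-(u - Real.log n) ^ 2 / (2 * b)) : ℝ) : ℂ) := by
  unfold PPb
  rw [ofReal_tsum]
  congr 1
  funext n
  rw [ofReal_zero, mul_zero, zero_mul, Complex.exp_zero, mul_one]
  push_cast
  ring

lemma small_T {T B u : ℝ} (hB : 0 ≤ B) (hT : 4 * (B + 3) + 10 ≤ T) (hu : u ≤ B * Real.log T) :
    Real.exp u * (T ^ 2 * Real.exp (-T ^ 2 / 4)) ≤ 1 := by
  have hT0 : 0 < T := by linarith
  have h1 : Real.log T ≤ T := by
    have := Real.log_le_sub_one_of_pos hT0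
    linarith
  have h2 : T ^ 2 = Real.exp (2 * Real.log T) := by
    rw [show 2 * Real.log T = Real.log (T ^ 2) by rw [Real.log_pow]; norm_num]
    rw [Real.exp_log (by positivity)]
  have h3 : Real.exp u * (T ^ 2 * Real.exp (-T ^ 2 / 4)) =
      Real.exp (u + (2 * Real.log T + -T ^ 2 / 4)) := by
    rw [Real.exp_add, Real.exp_add, ← h2]
  rw [h3, Real.exp_le_one_iff]
  have h4 : u ≤ B * T := hu.trans (mul_le_mul_of_nonneg_left h1 hB)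
  nlinarith

lemma der_sub (s : ℂ) : deriv (fun z : ℂ => z - 1) s = 1 := by
  rw [deriv_sub_const, deriv_id'']

lemma pole_sum {Y : ℝ} (hY : 0 < Y) (h : ℂ → ℂ) :
    ∑ᶠ s ∈ {s | s ∈ Ioo (-1 / 2 : ℝ) (3 / 2) ×ℂ Ioo (-Y) Y ∧ (fun z : ℂ => z - 1) s = 0},
      (mult (fun z : ℂ => z - 1) s : ℂ) * h s = h 1 := by
  have hset : {s | s ∈ Ioo (-1 / 2 : ℝ) (3 / 2) ×ℂ Ioo (-Y) Y ∧ (fun z : ℂ => z - 1) s = 0} =
      ({1} : Set ℂ) := by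
    ext s
    constructor
    · rintro ⟨_, h2⟩
      exact sub_eq_zero.1 h2
    · intro h2
      rw [mem_singleton_iff] at h2
      rw [h2]
      refine ⟨⟨?_, ?_⟩, by simp⟩
      · rw [mem_preimage]; norm_num
      · rw [mem_preimage]; simp [hY]
  have hm : mult (fun z : ℂ => z - 1) 1 = 1 := by
    have ha : AnalyticAt ℂ (fun z : ℂ => z - 1) 1 := by fun_prop
    have h1 : analyticOrderAt (fun z : ℂ => z - 1) 1 = ((1 : ℕ) : ℕ∞) := by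
      rw [ha.analyticOrderAt_eq_natCast]
      exact ⟨fun _ => 1, analyticAt_const, one_ne_zero, Eventually.of_forall fun z => by simp⟩
    unfold mult analyticOrderNatAt
    rw [h1]
    rfl
  rw [hset, finsum_mem_singleton, hm]
  simp

/-- **the explicit formula** -/
theorem EFf (RH : RiemannHypothesis) : ∃ Y : ℝ → ℝ, (∀ T : ℝ, 10 ≤ T → T ^ 2 ≤ Y T) ∧
    ∀ B : ℝ, 0 ≤ B → ∃ C T₀ : ℝ, 0 < C ∧ 10 ≤ T₀ ∧
    ∀ T : ℝ, T₀ ≤ T → ∀ u : ℝ, 0 ≤ u → u ≤ B * Real.log T →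
      |Zr T (Y T) u + T / Real.sqrt (2 * Real.pi) * Vs T u| ≤
        C * (Real.exp (-u) * (T * Real.log T) + 1) := by
  obtain ⟨C1, hC1, hgh⟩ := good_height good_zeta
  obtain ⟨CL, hCL, hleft⟩ := left_int
  have hgh' : ∀ T : ℝ, 10 ≤ T → ∃ U ∈ Set.Icc (T ^ 2) (T ^ 2 + 1),
      ∀ σ ∈ Set.Icc (-1 / 2 : ℝ) (3 / 2), riemannZeta (⟨σ, U⟩ : ℂ) ≠ 0 ∧
        ‖deriv riemannZeta (⟨σ, U⟩ : ℂ) / riemannZeta (⟨σ, U⟩ : ℂ)‖ ≤
          C1 * (Real.log (T ^ 2)) ^ 2 := fun T hT => hgh (T ^ 2) (by nlinarith)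
  choose! Yf hYf hgf using hgh'
  refine ⟨Yf, fun T hT => (hYf T hT).1, fun B hB => ?_⟩
  have hD0 := D0_nonneg
  refine ⟨8 * (4 * C1 + 1) + 8 + 8 * D0 + CL + 8, 4 * (B + 3) + 10, by positivity, by linarith,
    fun T hT => ?_⟩
  have hT10 : 10 ≤ T := by linarith
  have hT0 : 0 < T := by linarith
  have hL := one_lt_log (show 3 ≤ T by linarith)
  have hTT : 3 ≤ T ^ 2 := by nlinarith
  have hY' := hYf T hT10
  have hg' := hgf T hT10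
  obtain ⟨Y, hYdef⟩ : ∃ Y : ℝ, Y = Yf T := ⟨_, rfl⟩
  rw [← hYdef] at hY' hg' ⊢
  have hY : Y ∈ Set.Icc (T ^ 2) (T ^ 2 + 1) := hY'
  have hg : ∀ σ ∈ Set.Icc (-1 / 2 : ℝ) (3 / 2), riemannZeta (⟨σ, Y⟩ : ℂ) ≠ 0 ∧
        ‖deriv riemannZeta (⟨σ, Y⟩ : ℂ) / riemannZeta (⟨σ, Y⟩ : ℂ)‖ ≤
          C1 * (Real.log (T ^ 2)) ^ 2 := hg'
  intro u hu huB
  have hsm := small_T hB hT huB
  have hY0 : 0 < Y := by linarith [hY.1]
  have hY1 : 1 ≤ Y := by linarith [hY.1]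
  obtain ⟨b, hbe⟩ : ∃ b : ℝ, b = 1 / T ^ 2 := ⟨_, rfl⟩
  have hb : 0 < b := by rw [hbe]; positivity
  have hb1 : b ≤ 1 := by
    rw [hbe, div_le_one (by positivity)]
    linarith
  have hbY : T ^ 2 ≤ b * Y ^ 2 := by
    rw [hbe]
    have : (T ^ 2) ^ 2 ≤ Y ^ 2 := pow_le_pow_left₀ (by positivity) hY.1 2
    calc T ^ 2 = 1 / T ^ 2 * (T ^ 2) ^ 2 := by field_simp
      _ ≤ 1 / T ^ 2 * Y ^ 2 := by gcongr
  have hexp : Real.exp (-b * Y ^ 2 / 2) ≤ Real.exp (-T ^ 2 / 4) := by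
    apply Real.exp_le_exp.2
    nlinarith [sq_nonneg T]
  have hexp4 : Real.exp (-b * Y ^ 2 / 4) ≤ Real.exp (-T ^ 2 / 4) := by
    apply Real.exp_le_exp.2
    nlinarith
  -- the boundary
  have hbot : ∀ σ : ℝ, (⟨σ, -Y⟩ : ℂ) = (starRingEnd ℂ) (⟨σ, Y⟩ : ℂ) := fun σ => by
    apply Complex.ext <;> simp
  have hneT : ∀ σ ∈ Icc (-1 / 2 : ℝ) (3 / 2), riemannZeta₁ (⟨σ, Y⟩ : ℂ) ≠ 0 := by
    intro σ hσ h
    exact (hg σ hσ).1 (z1_zero h).2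
  have hneB : ∀ σ ∈ Icc (-1 / 2 : ℝ) (3 / 2), riemannZeta₁ (⟨σ, -Y⟩ : ℂ) ≠ 0 := by
    intro σ hσ h
    apply hneT σ hσ
    rw [hbot, z1_conj] at h
    have := congrArg (starRingEnd ℂ) h
    rwa [Complex.conj_conj, map_zero] at this
  have r1 := (rect_residue riemannZeta₁ (hhb b u 0) (-1 / 2) (3 / 2) (-Y) Y (by norm_num)
    (by linarith) (fun s _ => z1_an s) (hhb_diff b u 0) (by
      rintro ⟨x, y⟩ ⟨h1, h2⟩ h3
      rw [mem_preimage] at h1 h2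
      change x ∈ Icc (-1 / 2 : ℝ) (3 / 2) at h1
      change y ∈ Icc (-Y) Y at h2
      obtain ⟨a1, a2, _, _⟩ := z1_strip (s := ⟨x, y⟩) h1.1 h3
      change 0 < x at a1
      change x < 1 at a2
      refine ⟨⟨by show -1 / 2 < x; linarith, by show x < 3 / 2; linarith⟩, ⟨?_, ?_⟩⟩
      · show -Y < y
        refine lt_of_le_of_ne h2.1 fun he => ?_
        apply hneB x h1
        rw [he]
        exact h3
      · show y < Y
        refine lt_of_le_of_ne h2.2 fun he => ?_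
        apply hneT x h1
        rw [← he]
        exact h3)).2
  have r2 := (rect_residue (fun z : ℂ => z - 1) (hhb b u 0) (-1 / 2) (3 / 2) (-Y) Y (by norm_num)
    (by linarith) (fun s _ => by fun_prop) (hhb_diff b u 0) (by
      rintro s _ h3
      have h4 : s = 1 := sub_eq_zero.1 h3
      rw [h4]
      refine ⟨?_, ?_⟩
      · rw [mem_preimage]; norm_num
      · rw [mem_preimage]; simp [hY0])).2
  rw [pole_sum hY0] at r2
  have hzs := zsum RH (T := T) (u := u) hY0 fun σ hσ => (hg σ hσ).1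
  rw [← hbe] at hzs
  rw [hzs] at r1
  simp only [der_sub] at r2
  -- names
  obtain ⟨HB1, hHB1⟩ : ∃ X : ℂ, X = ∫ x in (-1 / 2 : ℝ)..(3 / 2),
    deriv riemannZeta₁ (⟨x, -Y⟩ : ℂ) / riemannZeta₁ ⟨x, -Y⟩ * hhb b u 0 ⟨x, -Y⟩ := ⟨_, rfl⟩
  obtain ⟨HT1, hHT1⟩ : ∃ X : ℂ, X = ∫ x in (-1 / 2 : ℝ)..(3 / 2),
    deriv riemannZeta₁ (⟨x, Y⟩ : ℂ) / riemannZeta₁ ⟨x, Y⟩ * hhb b u 0 ⟨x, Y⟩ := ⟨_, rfl⟩
  obtain ⟨R1, hR1⟩ : ∃ X : ℂ, X = ∫ y in (-Y)..Y,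
    deriv riemannZeta₁ (⟨3 / 2, y⟩ : ℂ) / riemannZeta₁ ⟨3 / 2, y⟩ * hhb b u 0 ⟨3 / 2, y⟩ :=
    ⟨_, rfl⟩
  obtain ⟨L1, hL1⟩ : ∃ X : ℂ, X = ∫ y in (-Y)..Y,
    deriv riemannZeta₁ (⟨-1 / 2, y⟩ : ℂ) / riemannZeta₁ ⟨-1 / 2, y⟩ * hhb b u 0 ⟨-1 / 2, y⟩ :=
    ⟨_, rfl⟩
  obtain ⟨HB2, hHB2⟩ : ∃ X : ℂ, X = ∫ x in (-1 / 2 : ℝ)..(3 / 2),
    1 / ((⟨x, -Y⟩ : ℂ) - 1) * hhb b u 0 ⟨x, -Y⟩ := ⟨_, rfl⟩
  obtain ⟨HT2, hHT2⟩ : ∃ X : ℂ, X = ∫ x in (-1 / 2 : ℝ)..(3 / 2),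
    1 / ((⟨x, Y⟩ : ℂ) - 1) * hhb b u 0 ⟨x, Y⟩ := ⟨_, rfl⟩
  obtain ⟨R2, hR2⟩ : ∃ X : ℂ, X = ∫ y in (-Y)..Y,
    1 / ((⟨3 / 2, y⟩ : ℂ) - 1) * hhb b u 0 ⟨3 / 2, y⟩ := ⟨_, rfl⟩
  obtain ⟨L2, hL2⟩ : ∃ X : ℂ, X = ∫ y in (-Y)..Y,
    1 / ((⟨-1 / 2, y⟩ : ℂ) - 1) * hhb b u 0 ⟨-1 / 2, y⟩ := ⟨_, rfl⟩
  rw [← hHB1, ← hHT1, ← hR1, ← hL1] at r1
  rw [← hHB2, ← hHT2, ← hR2, ← hL2] at r2
  -- the horizontal sides
  have hYn : ∀ σ : ℝ, ‖(1 : ℂ) / ((⟨σ, Y⟩ : ℂ) - 1)‖ ≤ 1 := by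
    intro σ
    rw [norm_div, norm_one]
    apply div_le_one_of_le₀ _ (norm_nonneg _)
    have h5 := Complex.abs_im_le_norm ((⟨σ, Y⟩ : ℂ) - 1)
    have h6 : ((⟨σ, Y⟩ : ℂ) - 1).im = Y := by simp
    rw [h6, abs_of_pos hY0] at h5
    linarith
  have hYn' : ∀ σ : ℝ, ‖(1 : ℂ) / ((⟨σ, -Y⟩ : ℂ) - 1)‖ ≤ 1 := by
    intro σ
    have h1 : (1 : ℂ) / ((⟨σ, -Y⟩ : ℂ) - 1) = (starRingEnd ℂ) (1 / ((⟨σ, Y⟩ : ℂ) - 1)) := by
      rw [hbot, map_div₀, map_sub, map_one]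
    rw [h1, RCLike.norm_conj]
    exact hYn σ
  have hldT : ∀ σ ∈ Icc (-1 / 2 : ℝ) (3 / 2),
      ‖deriv riemannZeta₁ (⟨σ, Y⟩ : ℂ) / riemannZeta₁ ⟨σ, Y⟩‖ ≤ (4 * C1 + 1) * T ^ 2 := by
    intro σ hσ
    have hne1 : (⟨σ, Y⟩ : ℂ) ≠ 1 := by
      intro h
      have := congrArg Complex.im h
      simp at this
      linarith
    rw [z1_ld hne1 (hg σ hσ).1]
    refine (norm_add_le _ _).trans ?_
    have h1 := (hg σ hσ).2
    have h2 := hYn σ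
    have h3 : Real.log (T ^ 2) ^ 2 ≤ 4 * T ^ 2 := by
      have h4 : Real.log (T ^ 2) = 2 * Real.log T := by rw [Real.log_pow]; norm_num
      have h5 : Real.log T ≤ T := by
        have := Real.log_le_sub_one_of_pos hT0
        linarith
      rw [h4]
      nlinarith
    have h6 := mul_le_mul_of_nonneg_left h3 hC1.le
    nlinarith
  have hldB : ∀ σ ∈ Icc (-1 / 2 : ℝ) (3 / 2),
      ‖deriv riemannZeta₁ (⟨σ, -Y⟩ : ℂ) / riemannZeta₁ ⟨σ, -Y⟩‖ ≤ (4 * C1 + 1) * T ^ 2 := by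
    intro σ hσ
    rw [hbot, z1_ld_conj, RCLike.norm_conj]
    exact hldT σ hσ
  have hhor : ∀ U : ℝ, Y ^ 2 ≤ U ^ 2 → ∀ x ∈ Icc (-1 / 2 : ℝ) (3 / 2),
      ‖hhb b u 0 (⟨x, U⟩ : ℂ)‖ ≤ 2 * (Real.exp u * Real.exp (-T ^ 2 / 4)) := by
    intro U hU x hx
    refine (hor_bd hb hb1 hu hU hx).trans ?_
    have := Real.exp_pos u
    calc Real.exp u * (2 * Real.exp (-b * Y ^ 2 / 2)) ≤
          Real.exp u * (2 * Real.exp (-T ^ 2 / 4)) := by gcongr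
      _ = _ := by ring
  have hE0 : 0 < Real.exp u * Real.exp (-T ^ 2 / 4) := by positivity
  have hsm1 : Real.exp u * Real.exp (-T ^ 2 / 4) ≤ 1 := by
    refine le_trans ?_ hsm
    have : 1 * Real.exp (-T ^ 2 / 4) ≤ T ^ 2 * Real.exp (-T ^ 2 / 4) := by
      gcongr
      linarith
    rw [one_mul] at this
    exact mul_le_mul_of_nonneg_left this (Real.exp_pos u).le
  have int_side : ∀ (f : ℝ → ℂ) (U K : ℝ), Y ^ 2 ≤ U ^ 2 → 0 ≤ K →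
      (∀ x ∈ Icc (-1 / 2 : ℝ) (3 / 2), ‖f x‖ ≤ K) →
      ‖∫ x in (-1 / 2 : ℝ)..(3 / 2), f x * hhb b u 0 (⟨x, U⟩ : ℂ)‖ ≤
        4 * (K * (Real.exp u * Real.exp (-T ^ 2 / 4))) := by
    intro f U K hU hK hf
    have h1 : ‖∫ x in (-1 / 2 : ℝ)..(3 / 2), f x * hhb b u 0 (⟨x, U⟩ : ℂ)‖ ≤
        (K * (2 * (Real.exp u * Real.exp (-T ^ 2 / 4)))) * |(3 / 2 : ℝ) - (-1 / 2)| := by
      apply intervalIntegral.norm_integral_le_of_norm_le_const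
      intro x hx
      rw [uIoc_of_le (by norm_num)] at hx
      have hx' : x ∈ Icc (-1 / 2 : ℝ) (3 / 2) := ⟨hx.1.le, hx.2⟩
      rw [norm_mul]
      exact mul_le_mul (hf x hx') (hhor U hU x hx') (norm_nonneg _) hK
    rw [show |(3 / 2 : ℝ) - (-1 / 2)| = 2 by norm_num] at h1
    refine h1.trans (le_of_eq ?_)
    ring
  have big : 4 * ((4 * C1 + 1) * T ^ 2 * (Real.exp u * Real.exp (-T ^ 2 / 4))) ≤
      4 * (4 * C1 + 1) := by
    calc 4 * ((4 * C1 + 1) * T ^ 2 * (Real.exp u * Real.exp (-T ^ 2 / 4))) =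
          4 * (4 * C1 + 1) * (Real.exp u * (T ^ 2 * Real.exp (-T ^ 2 / 4))) := by ring
      _ ≤ 4 * (4 * C1 + 1) * 1 := mul_le_mul_of_nonneg_left hsm (by positivity)
      _ = _ := by ring
  have bHB1 : ‖HB1‖ ≤ 4 * (4 * C1 + 1) := by
    rw [hHB1]
    exact (int_side _ (-Y) ((4 * C1 + 1) * T ^ 2) (by rw [neg_sq]) (by positivity) hldB).trans big
  have bHT1 : ‖HT1‖ ≤ 4 * (4 * C1 + 1) := by
    rw [hHT1]
    exact (int_side _ Y ((4 * C1 + 1) * T ^ 2) le_rfl (by positivity) hldT).trans big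
  have bHB2 : ‖HB2‖ ≤ 4 := by
    rw [hHB2]
    refine (int_side _ (-Y) 1 (by rw [neg_sq]) zero_le_one fun x _ => hYn' x).trans ?_
    linarith
  have bHT2 : ‖HT2‖ ≤ 4 := by
    rw [hHT2]
    refine (int_side _ Y 1 le_rfl zero_le_one fun x _ => hYn x).trans ?_
    linarith
  -- the left side
  have bL1 : ‖L1‖ ≤ CL * (Real.exp (-u) * (T * Real.log T)) := by
    rw [hL1, hbe]
    exact hleft T hT10 Y u hY0.le
  have bL2 : ‖L2‖ ≤ 8 * (Real.exp (-u) * (T * Real.log T)) := by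
    rw [hL2, hbe]
    exact left_int2 hT10 u hY0.le
  -- the right side
  obtain ⟨a, ha⟩ : ∃ a : ℕ → ℂ, a = fun n => ((ArithmeticFunction.vonMangoldt n : ℝ) : ℂ) :=
    ⟨_, rfl⟩
  have hal : ∀ n, ‖a n‖ ≤ ArithmeticFunction.vonMangoldt n := by
    intro n
    rw [ha]
    exact lamC n
  obtain ⟨IR, hIR⟩ : ∃ X : ℂ, X = ∫ y in (-Y)..Y, DD a (⟨3 / 2, y⟩ : ℂ) *
    hhb b u 0 (⟨3 / 2, y⟩ : ℂ) := ⟨_, rfl⟩
  have cDD : Continuous fun y : ℝ => DD a (⟨3 / 2, y⟩ : ℂ) * hhb b u 0 (⟨3 / 2, y⟩ : ℂ) :=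
    (DD_cont a hal).mul (hhb_cont_line b u 0 (3 / 2))
  have hRR : R1 = R2 - IR := by
    rw [hR1, hR2, hIR, ← intervalIntegral.integral_sub]
    · refine intervalIntegral.integral_congr fun y _ => ?_
      have hne1 : (⟨3 / 2, y⟩ : ℂ) ≠ 1 := by
        intro h
        have := congrArg Complex.re h
        norm_num at this
      have hne : riemannZeta (⟨3 / 2, y⟩ : ℂ) ≠ 0 :=
        riemannZeta_ne_zero_of_one_le_re (by norm_num)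
      have h2 : DD a (⟨3 / 2, y⟩ : ℂ) = ∑' n : ℕ, (ArithmeticFunction.vonMangoldt n : ℂ) *
          (n : ℂ) ^ (-(⟨3 / 2, y⟩ : ℂ)) := by
        rw [ha]
        rfl
      show deriv riemannZeta₁ (⟨3 / 2, y⟩ : ℂ) / riemannZeta₁ ⟨3 / 2, y⟩ *
        hhb b u 0 ⟨3 / 2, y⟩ = 1 / ((⟨3 / 2, y⟩ : ℂ) - 1) * hhb b u 0 ⟨3 / 2, y⟩ -
        DD a (⟨3 / 2, y⟩ : ℂ) * hhb b u 0 (⟨3 / 2, y⟩ : ℂ)
      rw [z1_ld hne1 hne, H343.zeta_ld (⟨3 / 2, y⟩ : ℂ) (by norm_num), h2]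
      ring
    · refine Continuous.intervalIntegrable ?_ _ _
      refine Continuous.mul ?_ (hhb_cont_line b u 0 (3 / 2))
      refine Continuous.div continuous_const ((line_cont (3 / 2)).sub continuous_const) fun y h => ?_
      have := congrArg Complex.re h
      norm_num at this
    · exact cDD.intervalIntegrable _ _
  have hright : ‖(∫ v : ℝ, DD a (⟨3 / 2, v⟩ : ℂ) * hhb b u 0 (⟨3 / 2, v⟩ : ℂ)) - IR‖ ≤ 8 * D0 := by
    rw [hIR]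
    have hbd : ∀ v : ℝ, ‖DD a (⟨3 / 2, v⟩ : ℂ) * hhb b u 0 (⟨3 / 2, v⟩ : ℂ)‖ ≤
        (D0 * (2 * Real.exp u)) * Real.exp (-b * (v - 0) ^ 2 / 2) := by
      intro v
      rw [norm_mul, sub_zero, mul_assoc]
      exact mul_le_mul (norm_DD a hal v) (right_bd hb1 v) (norm_nonneg _) hD0
    have h1 := tail_boundb (W := Y) (U1 := -Y) (U2 := Y) cDD.aestronglyMeasurable hb
      (by positivity) hbd hY0.le (by linarith) (by linarith)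
    refine h1.trans ?_
    have e3 : Real.pi / (b / 4) = (4 * Real.pi) * T ^ 2 := by
      rw [hbe]
      field_simp
    have e4 : Real.sqrt (Real.pi / (b / 4)) ≤ 4 * T := by
      rw [e3, Real.sqrt_mul (by positivity), Real.sqrt_sq hT0.le]
      apply mul_le_mul_of_nonneg_right _ hT0.le
      rw [Real.sqrt_le_left (by norm_num)]
      have := Real.pi_le_four
      linarith
    have hTT2 : T ≤ T ^ 2 := by nlinarith
    calc D0 * (2 * Real.exp u) * (Real.sqrt (Real.pi / (b / 4)) * Real.exp (-b * Y ^ 2 / 4)) ≤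
          D0 * (2 * Real.exp u) * ((4 * T) * Real.exp (-T ^ 2 / 4)) := by gcongr
      _ = 8 * D0 * (Real.exp u * (T * Real.exp (-T ^ 2 / 4))) := by ring
      _ ≤ 8 * D0 * (Real.exp u * (T ^ 2 * Real.exp (-T ^ 2 / 4))) := by gcongr
      _ ≤ 8 * D0 * 1 := mul_le_mul_of_nonneg_left hsm (by positivity)
      _ = _ := by ring
  rw [PPb_integral b hb a hal u 0] at hright
  -- the value at one
  have h1v : hhb b u 0 1 = ((Real.exp (u / 2 + 1 / (8 * T ^ 2)) : ℝ) : ℂ) := by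
    unfold hhb
    rw [ofReal_zero, mul_zero, sub_zero, ← Complex.exp_add, ofReal_exp]
    congr 1
    rw [hbe]
    push_cast
    ring
  -- assembling
  obtain ⟨w, hw⟩ : ∃ w : ℝ, w = Real.sqrt (2 * Real.pi / b) := ⟨_, rfl⟩
  obtain ⟨P, hP⟩ : ∃ P : ℝ, P = ∑' n : ℕ, ArithmeticFunction.vonMangoldt n * (Real.sqrt n)⁻¹ *
      Real.exp (-(u - Real.log n) ^ 2 / (2 * b)) := ⟨_, rfl⟩
  have hPP : PPb b a u 0 = (P : ℂ) := by
    rw [ha, PPb_real, hP]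
  rw [← hw, hPP] at hright
  rw [h1v] at r2
  obtain ⟨E1, hE1⟩ : ∃ E1 : ℝ, E1 = Real.exp (u / 2 + 1 / (8 * T ^ 2)) := ⟨_, rfl⟩
  rw [← hE1] at r2
  obtain ⟨Z, hZ⟩ : ∃ Z : ℝ, Z = Zr T Y u := ⟨_, rfl⟩
  rw [← hZ] at r1
  have hsq : 0 < Real.sqrt (2 * Real.pi) := Real.sqrt_pos.2 (by positivity)
  have hsqsq : Real.sqrt (2 * Real.pi) * Real.sqrt (2 * Real.pi) = 2 * Real.pi :=
    Real.mul_self_sqrt (by positivity)
  have hwT : w = T * Real.sqrt (2 * Real.pi) := by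
    rw [hw, hbe]
    have : 2 * Real.pi / (1 / T ^ 2) = T ^ 2 * (2 * Real.pi) := by field_simp
    rw [this, Real.sqrt_mul (by positivity), Real.sqrt_sq hT0.le]
  have hw2 : w / (2 * Real.pi) = T / Real.sqrt (2 * Real.pi) := by
    rw [hwT, div_eq_div_iff (by positivity) hsq.ne', mul_assoc, hsqsq]
  have hVs : Z + T / Real.sqrt (2 * Real.pi) * Vs T u = Z - E1 + w / (2 * Real.pi) * P := by
    unfold Vs
    rw [← hbe, ← hP, ← hE1, hw2]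
    field_simp
    ring
  rw [← hZ, hVs]
  have key : (2 * Real.pi * I) * ((Z - E1 + w / (2 * Real.pi) * P : ℝ) : ℂ) =
      (HB1 - HB2) - (HT1 - HT2) + I * ((w : ℂ) * (P : ℂ) - IR) - I * (L1 - L2) := by
    rw [hRR] at r1
    have hpi : (2 * (Real.pi : ℂ)) ≠ 0 := by
      have := Real.pi_ne_zero
      exact mul_ne_zero two_ne_zero (by exact_mod_cast this)
    push_cast
    have e5 : (2 * (Real.pi : ℂ) * I) * ((Z : ℂ) - (E1 : ℂ) + (w : ℂ) / (2 * (Real.pi : ℂ)) *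
        (P : ℂ)) = 2 * Real.pi * I * Z - 2 * Real.pi * I * E1 + I * w * P := by
      field_simp
    rw [e5, ← r1, ← r2]
    ring
  have hn : ‖(2 * Real.pi * I) * ((Z - E1 + w / (2 * Real.pi) * P : ℝ) : ℂ)‖ =
      2 * Real.pi * |Z - E1 + w / (2 * Real.pi) * P| := by
    rw [norm_mul, norm_mul, Complex.norm_I, mul_one, Complex.norm_real, Real.norm_eq_abs]
    congr 1
    rw [norm_mul, Complex.norm_real, Real.norm_of_nonneg Real.pi_pos.le]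
    norm_num
  have hbig : 2 * Real.pi * |Z - E1 + w / (2 * Real.pi) * P| ≤
      8 * (4 * C1 + 1) + 8 + 8 * D0 + (CL + 8) * (Real.exp (-u) * (T * Real.log T)) := by
    rw [← hn, key]
    have n1 := norm_sub_le ((HB1 - HB2) - (HT1 - HT2) + I * ((w : ℂ) * (P : ℂ) - IR))
      (I * (L1 - L2))
    have n2 := norm_add_le ((HB1 - HB2) - (HT1 - HT2)) (I * ((w : ℂ) * (P : ℂ) - IR))
    have n3 := norm_sub_le (HB1 - HB2) (HT1 - HT2)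
    have n4 := norm_sub_le HB1 HB2
    have n5 := norm_sub_le HT1 HT2
    have n6 := norm_sub_le L1 L2
    rw [norm_mul, Complex.norm_I, one_mul] at n1 n2
    linarith
  have hpi3 := Real.pi_gt_three
  have habs := abs_nonneg (Z - E1 + w / (2 * Real.pi) * P)
  have hX0 : 0 ≤ Real.exp (-u) * (T * Real.log T) := by positivity
  have h5 : |Z - E1 + w / (2 * Real.pi) * P| ≤ 2 * Real.pi * |Z - E1 + w / (2 * Real.pi) * P| := by
    nlinarith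
  refine (h5.trans hbig).trans ?_
  have h6 : 0 ≤ 8 * (4 * C1 + 1) + 8 + 8 * D0 := by positivity
  nlinarith [mul_nonneg h6 hX0]

end Pool.Agent.NH10.GM
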