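import Pool.Agent.NH10.SM.Core

/-! # The kernels of the tents and the pairings with the pair measures -/

set_option autoImplicit false
set_option maxHeartbeats 4000000

open MeasureTheory Set Filter Topology

namespace Pool.Agent.NH10.GM

open Pool.Agent.Y749.Rig

/-- the kernel of the tent of width `h` -/
noncomputable def Kt (h x : ℝ) : ℝ := h ^ 2 * fl (tr h) x

lemma Kt_nonneg {h : ℝ} (hh : 0 < h) (x : ℝ) : 0 ≤ Kt h x :=
  mul_nonneg (sq_nonneg h) (fl_tr_nonneg hh x)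

lemma Kt_zero {h : ℝ} (hh : 0 < h) : Kt h 0 = h ^ 2 := by
  unfold Kt
  rw [fl_tr_zero hh, mul_one]

lemma Kt_eq {h x : ℝ} (hh : 0 < h) (hx : x ≠ 0) :
    Kt h x = (Real.sin (Real.pi * h * x) / (Real.pi * x)) ^ 2 := by
  unfold Kt
  rw [fl_tr hh hx]
  have := Real.pi_pos
  field_simp

lemma Kt_le {h : ℝ} (hh : 0 < h) (x : ℝ) : Kt h x ≤ h ^ 2 := by
  have hpi := Real.pi_pos
  rcases eq_or_ne x 0 with hx | hx
  · rw [hx, Kt_zero hh]
  · rw [Kt_eq hh hx, div_pow, div_le_iff₀ (by positivity)]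
    have h1 := Pool.Agent.NH10.SM.sin_sq_le (Real.pi * h * x)
    calc _ ≤ _ := h1
      _ = _ := by ring

lemma Kt_le' {h x : ℝ} (hh : 0 < h) (hx : x ≠ 0) : Kt h x ≤ 1 / (Real.pi * x) ^ 2 := by
  have hpi := Real.pi_pos
  rw [Kt_eq hh hx, div_pow]
  have h1 := Real.sin_sq_le_one (Real.pi * h * x)
  gcongr

lemma Kt_scale {h μ : ℝ} (hh : 0 < h) (hμ : 0 < μ) (x : ℝ) :
    Kt h (μ * x) = (μ ^ 2)⁻¹ * Kt (μ * h) x := by
  have hpi := Real.pi_pos
  rcases eq_or_ne x 0 with hx | hx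
  · rw [hx, mul_zero, Kt_zero hh, Kt_zero (by positivity)]
    field_simp
  · rw [Kt_eq hh (mul_ne_zero hμ.ne' hx), Kt_eq (by positivity) hx]
    have : Real.pi * h * (μ * x) = Real.pi * (μ * h) * x := by ring
    rw [this]
    field_simp

lemma Kt_even (h x : ℝ) : Kt h (-x) = Kt h x := by
  unfold Kt
  rw [fl_even]

lemma Kt_cont {h : ℝ} (hh : 0 < h) : Continuous (Kt h) :=
  continuous_const.mul (fl_cont (tr_int hh))

lemma Kt_qd {h : ℝ} (hh : 0 < h) : QD (Kt h) := by
  obtain ⟨B, hB⟩ := fl_qd (adm_tr hh)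
  refine ⟨h ^ 2 * B, fun x => ?_⟩
  unfold Kt
  rw [abs_mul, abs_of_nonneg (sq_nonneg h), mul_div_assoc]
  exact mul_le_mul_of_nonneg_left (hB x) (sq_nonneg h)

lemma Kt_fl {h : ℝ} (hh : 0 < h) (x : ℝ) : Kt h x = fl (fun α => max 0 (h - |α|)) x := by
  unfold Kt fl
  rw [← integral_const_mul]
  refine integral_congr_ae (ae_of_all _ fun α => ?_)
  simp only
  rw [← tent_eq hh]
  ring

lemma Kt_rep {h : ℝ} (hh : 0 < h) (x : ℝ) :
    Kt h x = ∫ α, max 0 (h - |α|) * Real.cos (2 * Real.pi * α * x) := Kt_fl hh x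

lemma tent_int (h : ℝ) : Integrable fun α : ℝ => max 0 (h - |α|) := by
  simpa using tent_integrable h (g := fun _ => (1 : ℝ)) continuous_const

/-- positive definiteness -/
lemma psd {ψ : ℝ → ℝ} (hi : Integrable ψ) (h0 : ∀ α, 0 ≤ ψ α) (A : Finset ℂ) (L : ℝ) :
    0 ≤ RR (fl ψ) A A L := by
  have hci : ∀ x : ℝ, Integrable fun α => ψ α * Real.cos (2 * Real.pi * α * x) := by
    intro x
    refine hi.mul_bdd (c := 1) (by fun_prop) (ae_of_all _ fun α => ?_)
    rw [Real.norm_eq_abs]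
    exact Real.abs_cos_le_one _
  have e : RR (fl ψ) A A L = ∫ α, ψ α * ∑ s ∈ A, ∑ s' ∈ A, mm s * mm s' *
      Real.cos (α * L * (s.im - s'.im)) := by
    unfold RR fl
    have e1 : ∀ α, ψ α * ∑ s ∈ A, ∑ s' ∈ A, mm s * mm s' * Real.cos (α * L * (s.im - s'.im)) =
        ∑ s ∈ A, ∑ s' ∈ A, mm s * mm s' *
          (ψ α * Real.cos (2 * Real.pi * α * ((s.im - s'.im) * L / (2 * Real.pi)))) := by
      intro α
      rw [Finset.mul_sum]
      refine Finset.sum_congr rfl fun s _ => ?_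
      rw [Finset.mul_sum]
      refine Finset.sum_congr rfl fun s' _ => ?_
      have : 2 * Real.pi * α * ((s.im - s'.im) * L / (2 * Real.pi)) = α * L * (s.im - s'.im) := by
        have := Real.pi_pos
        field_simp
      rw [this]
      ring
    simp_rw [e1]
    rw [integral_finsetSum _ fun s _ => ?_]
    · refine Finset.sum_congr rfl fun s _ => ?_
      rw [integral_finsetSum _ fun s' _ => ?_]
      · refine Finset.sum_congr rfl fun s' _ => ?_
        rw [integral_const_mul]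
      · exact (hci _).const_mul _
    · exact integrable_finsetSum _ fun s' _ => (hci _).const_mul _
  rw [e]
  refine integral_nonneg fun α => mul_nonneg (h0 α) ?_
  exact sq_form A mm (fun s : ℂ => s.im) (α * L)

lemma RR_mono_h {h h' : ℝ} (hh : 0 < h) (hhh : h ≤ h') (A : Finset ℂ) (L : ℝ) :
    RR (Kt h) A A L ≤ RR (Kt h') A A L := by
  have h1 := psd (ψ := fun α => max 0 (h' - |α|) - max 0 (h - |α|))
    ((tent_int h').sub (tent_int h)) (fun α => by
      have : max 0 (h - |α|) ≤ max 0 (h' - |α|) := max_le_max_left 0 (by linarith)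
      linarith) A L
  have e : RR (fl fun α => max 0 (h' - |α|) - max 0 (h - |α|)) A A L =
      RR (Kt h') A A L - RR (Kt h) A A L := by
    unfold RR
    rw [← Finset.sum_sub_distrib]
    refine Finset.sum_congr rfl fun s _ => ?_
    rw [← Finset.sum_sub_distrib]
    refine Finset.sum_congr rfl fun s' _ => ?_
    rw [Kt_fl hh, Kt_fl (hh.trans_le hhh), ← mul_sub]
    congr 1
    unfold fl
    rw [← integral_sub]
    · refine integral_congr_ae (ae_of_all _ fun α => ?_)
      simp only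
      ring
    · exact tent_integrable h' (by fun_prop)
    · exact tent_integrable h (by fun_prop)
  rw [e] at h1
  linarith

/-- the pairing of the pair measure with the kernel -/
noncomputable def PT (T h : ℝ) : ℝ := ∫ x, Kt h x ∂(Mp T)

lemma PT_RR {T : ℝ} (hT : 10 ≤ T) (h : ℝ) :
    RR (Kt h) (ZZ T) (ZZ T) (Real.log T) = nT T * PT T h := by
  unfold PT
  rw [Mp_integral hT]
  have := nT_pos hT
  field_simp

lemma PT_mono {T : ℝ} (hT : 10 ≤ T) {h h' : ℝ} (hh : 0 < h) (hhh : h ≤ h') : PT T h ≤ PT T h' := by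
  have h1 := RR_mono_h hh hhh (ZZ T) (Real.log T)
  rw [PT_RR hT, PT_RR hT] at h1
  exact le_of_mul_le_mul_left h1 (nT_pos hT)

lemma RR_scale {T y : ℝ} (hT : 1 < T) (hy : 10 ≤ y) {h : ℝ} (hh : 0 < h) (A : Finset ℂ) :
    RR (Kt h) A A (Real.log T) = ((Real.log T / Real.log y) ^ 2)⁻¹ *
      RR (Kt (Real.log T / Real.log y * h)) A A (Real.log y) := by
  have hL := Real.log_pos hT
  have hly := Real.log_pos (show 1 < y by linarith)
  unfold RR
  rw [Finset.mul_sum]
  refine Finset.sum_congr rfl fun s _ => ?_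
  rw [Finset.mul_sum]
  refine Finset.sum_congr rfl fun s' _ => ?_
  have e : (s.im - s'.im) * Real.log T / (2 * Real.pi) = Real.log T / Real.log y *
      ((s.im - s'.im) * Real.log y / (2 * Real.pi)) := by
    have := Real.pi_pos
    field_simp
  rw [e, Kt_scale hh (by positivity)]
  ring

lemma RR_nonneg {h : ℝ} (hh : 0 < h) (A B : Finset ℂ) (L : ℝ) : 0 ≤ RR (Kt h) A B L :=
  Finset.sum_nonneg fun _ _ => Finset.sum_nonneg fun _ _ =>
    mul_nonneg (mul_nonneg (mm_nonneg _) (mm_nonneg _)) (Kt_nonneg hh _)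

lemma PT_nonneg (T : ℝ) {h : ℝ} (hh : 0 < h) : 0 ≤ PT T h :=
  integral_nonneg fun x => Kt_nonneg hh x

lemma RR_mono_A {h : ℝ} (hh : 0 < h) {A B : Finset ℂ} (hAB : A ⊆ B) (L : ℝ) :
    RR (Kt h) A A L ≤ RR (Kt h) B B L := by
  unfold RR
  have hn : ∀ s s' : ℂ, 0 ≤ mm s * mm s' * Kt h ((s.im - s'.im) * L / (2 * Real.pi)) := fun s s' =>
    mul_nonneg (mul_nonneg (mm_nonneg _) (mm_nonneg _)) (Kt_nonneg hh _)
  refine (Finset.sum_le_sum fun s _ => Finset.sum_le_sum_of_subset_of_nonneg hAB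
    fun s' _ _ => hn s s').trans ?_
  exact Finset.sum_le_sum_of_subset_of_nonneg hAB fun s _ _ => Finset.sum_nonneg fun s' _ => hn s s'

end Pool.Agent.NH10.GM
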