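import Pool.Agent.NH10.GM.Val

/-! # The main equivalence -/

set_option autoImplicit false
set_option maxHeartbeats 4000000

open Filter Topology Set MeasureTheory ArithmeticFunction

namespace Pool.Agent.NH10.GM

open Pool.Agent.Y749.Rig

lemma mn_one {a b : ℝ} (ha : 1 ≤ a) (hab : a ≤ b) : ∫ α in a..b, mn α = b - a := by
  have : ∫ α in a..b, mn α = ∫ α in a..b, (1 : ℝ) := by
    refine intervalIntegral.integral_congr fun α hα => ?_
    rw [uIcc_of_le hab] at hα
    show mn α = 1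
    unfold mn
    rw [abs_of_nonneg (by linarith [hα.1]), min_eq_right (by linarith [hα.1])]
  rw [this]; simp

lemma sp_pos : 0 < Real.sqrt Real.pi := Real.sqrt_pos.2 Real.pi_pos

lemma Vn_sub {T : ℝ} (hT : 1 < T) {a b a' b' : ℝ} (h1 : a' ≤ a) (h2 : a ≤ b) (h3 : b ≤ b') :
    ∫ α in a..b, Vn T α ≤ ∫ α in a'..b', Vn T α :=
  intervalIntegral.integral_mono_interval h1 h2 h3 (ae_of_all _ fun α => Vn_nonneg hT.le α)
    ((Vn_cont (by linarith)).intervalIntegrable _ _)

lemma Vn_int_nonneg {T : ℝ} (hT : 1 < T) {a b : ℝ} (h2 : a ≤ b) : 0 ≤ ∫ α in a..b, Vn T α :=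
  intervalIntegral.integral_nonneg h2 fun α _ => Vn_nonneg hT.le α

/-- from the tents to the primes -/
theorem primes_of_PT (RH : RiemannHypothesis)
    (hPT : ∀ h : ℝ, 0 < h → Tendsto (fun T => PT T h) atTop (𝓝 (PG h))) {a b : ℝ} (ha : 1 ≤ a)
    (hab : a < b) : Tendsto (fun T => JV T a b) atTop (𝓝 (Real.sqrt Real.pi * (b - a))) := by
  obtain ⟨Y, hY, hE⟩ := EFf RH
  have hE' : EFp Y := hE
  have hY' : ∀ᶠ T in atTop, T ^ 2 ≤ Y T := (eventually_ge_atTop 10).mono hY
  have hsp := sp_pos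
  have hJ : ∀ h : ℝ, 0 < h → Tendsto (fun T => Jt (Dz T (Y T)) h) atTop
      (𝓝 (Real.sqrt Real.pi * PG h)) := fun h hh => mix_lim hh
    ((lt_mem_nhds hh).mono fun y hy => hPT y hy) hY'
  have hD : ∀ a b : ℝ, 0 < a → a < b → Tendsto (fun T => ∫ α in a..b, Dz T (Y T) α) atTop
      (𝓝 (Real.sqrt Real.pi * ∫ α in a..b, mn α)) := fun a b ha hab =>
    win_lim sp_pos (Eventually.of_forall fun T => Dz_cont T (Y T))
      ((eventually_ge_atTop 1).mono fun T hT α => Dz_nonneg hT (Y T) α) hJ ha hab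
  have hVu : ∀ a b : ℝ, 1 ≤ a → a < b → ∀ ε : ℝ, 0 < ε → ∀ᶠ T in atTop,
      ∫ α in a..b, Vn T α ≤ Real.sqrt Real.pi * (b - a) + ε := by
    intro a b ha hab ε hε
    refine ub_trans (g := fun T => ∫ α in a..b, Dz T (Y T) α)
      (mul_nonneg hsp.le (by linarith)) (fun η hη ε hε =>
      (compare_int hE' (by linarith) hab.le hη hε).mono fun T h => h.2) ?_ hε
    intro ε hε
    have h1 := hD a b (by linarith) hab
    rw [mn_one ha hab.le] at h1
    exact h1.eventually (ge_mem_nhds (by linarith))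
  have hVl : ∀ a b : ℝ, 1 ≤ a → a < b → ∀ ε : ℝ, 0 < ε → ∀ᶠ T in atTop,
      Real.sqrt Real.pi * (b - a) - ε ≤ ∫ α in a..b, Vn T α := by
    intro a b ha hab ε hε
    refine lb_trans (g := fun T => ∫ α in a..b, Dz T (Y T) α)
      (mul_nonneg hsp.le (by linarith)) (fun η hη ε hε =>
      (compare_int hE' (by linarith) hab.le hη hε).mono fun T h => h.1) ?_ hε
    intro ε hε
    have h1 := hD a b (by linarith) hab
    rw [mn_one ha hab.le] at h1
    exact h1.eventually (le_mem_nhds (by linarith))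
  have hUp : ∀ ε : ℝ, 0 < ε → ∀ᶠ T in atTop, JV T a b ≤ Real.sqrt Real.pi * (b - a) + ε := by
    intro ε hε
    obtain ⟨δ, hδ⟩ : ∃ δ : ℝ, δ = ε / (2 * Real.sqrt Real.pi) := ⟨_, rfl⟩
    have hδ0 : 0 < δ := by rw [hδ]; positivity
    have hδ1 : Real.sqrt Real.pi * δ = ε / 2 := by
      rw [hδ]
      field_simp
    have h1 : ∀ᶠ T in atTop, JV T a b ≤ Real.sqrt Real.pi * (b + δ - a) + ε / 2 := by
      refine ub_trans (g := fun T => ∫ α in a..(b + δ), Vn T α)
        (mul_nonneg hsp.le (by linarith)) (fun η hη ε' hε' => ?_)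
        (hVu a (b + δ) ha (by linarith)) (by linarith)
      filter_upwards [shift_small hδ0, exp_small hη, eventually_gt_atTop 1] with T h1 h2 hT
      rw [JV_eq hT]
      have h3 := Vn_sub hT (a' := a) (a := a + 1 / (2 * T ^ 2) / Real.log T)
        (b := b + 1 / (2 * T ^ 2) / Real.log T) (b' := b + δ) (by linarith [h1.1]) (by linarith)
        (by linarith [h1.2])
      have h4 := Vn_int_nonneg hT (a := a) (b := b + δ) (by linarith)
      calc Real.exp (1 / (4 * T ^ 2)) * _ ≤ Real.exp (1 / (4 * T ^ 2)) *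
            ∫ α in a..(b + δ), Vn T α := mul_le_mul_of_nonneg_left h3 (Real.exp_pos _).le
        _ ≤ (1 + η) * ∫ α in a..(b + δ), Vn T α := mul_le_mul_of_nonneg_right h2.2 h4
        _ ≤ _ := by linarith
    filter_upwards [h1] with T h1
    nlinarith
  have hLo : ∀ ε : ℝ, 0 < ε → ∀ᶠ T in atTop, Real.sqrt Real.pi * (b - a) - ε ≤ JV T a b := by
    intro ε hε
    obtain ⟨δ, hδ⟩ : ∃ δ : ℝ, δ = min ((b - a) / 2) (ε / (2 * Real.sqrt Real.pi)) := ⟨_, rfl⟩
    have hδ0 : 0 < δ := by rw [hδ]; exact lt_min (by linarith) (by positivity)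
    have hδ2 : δ ≤ (b - a) / 2 := by rw [hδ]; exact min_le_left _ _
    have hδ1 : Real.sqrt Real.pi * δ ≤ ε / 2 := by
      have : δ ≤ ε / (2 * Real.sqrt Real.pi) := by rw [hδ]; exact min_le_right _ _
      rw [le_div_iff₀ (by positivity)] at this
      linarith
    filter_upwards [shift_small hδ0, eventually_gt_atTop 1,
      hVl (a + δ) b (by linarith) (by linarith) (ε / 2) (by linarith)] with T h1 hT h5
    rw [JV_eq hT]
    have h3 := Vn_sub hT (a' := a + 1 / (2 * T ^ 2) / Real.log T) (a := a + δ) (b := b)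
      (b' := b + 1 / (2 * T ^ 2) / Real.log T) (by linarith [h1.2]) (by linarith)
      (by linarith [h1.1])
    have h4 := Vn_int_nonneg hT (a := a + 1 / (2 * T ^ 2) / Real.log T)
      (b := b + 1 / (2 * T ^ 2) / Real.log T) (by linarith)
    have h6 : 1 ≤ Real.exp (1 / (4 * T ^ 2)) := Real.one_le_exp (by positivity)
    nlinarith
  rw [Metric.tendsto_nhds]
  intro ε hε
  filter_upwards [hUp (ε / 2) (by linarith), hLo (ε / 2) (by linarith)] with T h1 h2
  rw [Real.dist_eq, abs_lt]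
  constructor <;> linarith

/-- the prime side just after the edge -/
lemma edge_small {ε : ℝ} (hε : 0 < ε) : ∃ δ : ℝ, 0 < δ ∧ δ ≤ 1 / 4 ∧ ∀ᶠ T in atTop,
    ∫ α in (1 - δ)..(1 + 1 / Real.log T), Vn T α ≤ ε := by
  obtain ⟨δ, h1, h2, h3⟩ := near_bd hε
  refine ⟨δ, h1, h2, ?_⟩
  filter_upwards [h3, eventually_ge_atTop 10] with T h4 hT
  have hL := one_lt_log (show 3 ≤ T by linarith)
  rw [Vn_int (by linarith)]
  have e : (1 + 1 / Real.log T) * Real.log T = Real.log T + 1 := by
    field_simp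
  rw [e]
  exact h4

/-- from the primes to the tents -/
theorem PT_of_primes (RH : RiemannHypothesis)
    (H : ∀ a b : ℝ, 1 ≤ a → a < b → ∀ ε : ℝ, 0 < ε → ∀ᶠ T in atTop,
      JV T a b ≤ Real.sqrt Real.pi * (b - a) + ε) {h : ℝ} (hh : 0 < h) :
    Tendsto (fun T => PT T h) atTop (𝓝 (PG h)) := by
  obtain ⟨Y, hY, hE⟩ := EFf RH
  have hE' : EFp Y := hE
  have hY' : ∀ᶠ T in atTop, T ^ 2 ≤ Y T := (eventually_ge_atTop 10).mono hY
  have hsp := sp_pos
  -- the windows for the primes
  have R3V : ∀ a b : ℝ, 1 ≤ a → a < b → ∀ ε : ℝ, 0 < ε → ∀ᶠ T in atTop,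
      ∫ α in a..b, Vn T α ≤ Real.sqrt Real.pi * (b - a) + ε := by
    intro a b ha hab ε hε
    rcases eq_or_lt_of_le ha with h1 | h1
    · rw [← h1] at hab ⊢
      obtain ⟨δ, hδ0, _, hδ⟩ := edge_small (show 0 < ε / 2 by linarith)
      filter_upwards [hδ, H 1 b le_rfl hab (ε / 2) (by linarith), eventually_ge_atTop 10,
        shift_small (show 0 < b - 1 by linarith)] with T t1 t2 hT t3
      have hT1 : 1 < T := by linarith
      have hL := one_lt_log (show 3 ≤ T by linarith)
      have hL0 : 0 < Real.log T := by linarith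
      obtain ⟨σ, hσ⟩ : ∃ σ : ℝ, σ = 1 / (2 * T ^ 2) / Real.log T := ⟨_, rfl⟩
      rw [JV_eq hT1, ← hσ] at t2
      rw [← hσ] at t3
      have hσ1 : σ ≤ 1 / Real.log T := by
        rw [hσ]
        apply div_le_div_of_nonneg_right _ hL0.le
        rw [div_le_one (by positivity)]
        nlinarith
      have c := Vn_cont (show 0 < T by linarith)
      have e1 : ∫ α in (1 : ℝ)..b, Vn T α = (∫ α in (1 : ℝ)..(1 + σ), Vn T α) +
          ∫ α in (1 + σ)..b, Vn T α :=
        (intervalIntegral.integral_add_adjacent_intervals (c.intervalIntegrable _ _)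
          (c.intervalIntegrable _ _)).symm
      have e2 := Vn_sub hT1 (a' := 1 - δ) (a := 1) (b := 1 + σ) (b' := 1 + 1 / Real.log T)
        (by linarith) (by linarith [t3.1]) (by linarith)
      have e3 := Vn_sub hT1 (a' := 1 + σ) (a := 1 + σ) (b := b) (b' := b + σ) le_rfl
        (by linarith [t3.2]) (by linarith [t3.1])
      have e4 := Vn_int_nonneg hT1 (a := 1 + σ) (b := b + σ) (by linarith)
      have e5 : 1 ≤ Real.exp (1 / (4 * T ^ 2)) := Real.one_le_exp (by positivity)
      rw [e1]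
      nlinarith
    · obtain ⟨a', ha'⟩ : ∃ a' : ℝ, a' = max 1 (a - ε / (2 * Real.sqrt Real.pi)) := ⟨_, rfl⟩
      have k1 : 1 ≤ a' := by rw [ha']; exact le_max_left _ _
      have k2 : a' < a := by
        rw [ha']
        refine max_lt h1 ?_
        have : 0 < ε / (2 * Real.sqrt Real.pi) := by positivity
        linarith
      have k3 : Real.sqrt Real.pi * (a - a') ≤ ε / 2 := by
        have k4 : a - ε / (2 * Real.sqrt Real.pi) ≤ a' := by rw [ha']; exact le_max_right _ _
        have k5 : a - a' ≤ ε / (2 * Real.sqrt Real.pi) := by linarith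
        calc Real.sqrt Real.pi * (a - a') ≤ Real.sqrt Real.pi * (ε / (2 * Real.sqrt Real.pi)) :=
              mul_le_mul_of_nonneg_left k5 hsp.le
          _ = ε / 2 := by field_simp
      filter_upwards [H a' b k1 (by linarith) (ε / 2) (by linarith), eventually_ge_atTop 10,
        shift_small (show 0 < a - a' by linarith)] with T t2 hT t3
      have hT1 : 1 < T := by linarith
      obtain ⟨σ, hσ⟩ : ∃ σ : ℝ, σ = 1 / (2 * T ^ 2) / Real.log T := ⟨_, rfl⟩
      rw [JV_eq hT1, ← hσ] at t2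
      rw [← hσ] at t3
      have e2 := Vn_sub hT1 (a' := a' + σ) (a := a) (b := b) (b' := b + σ)
        (by linarith [t3.2]) hab.le (by linarith [t3.1])
      have e4 := Vn_int_nonneg hT1 (a := a' + σ) (b := b + σ) (by linarith)
      have e5 : 1 ≤ Real.exp (1 / (4 * T ^ 2)) := Real.one_le_exp (by positivity)
      nlinarith
  have hcmp : ∀ {a b : ℝ}, 3 / 4 ≤ a → a ≤ b → ∀ η : ℝ, 0 < η → ∀ ε : ℝ, 0 < ε →
      ∀ᶠ T in atTop, (∫ α in a..b, Dz T (Y T) α) ≤ (1 + η) * (∫ α in a..b, Vn T α) + ε :=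
    fun ha hab η hη ε hε => (compare_int hE' ha hab hη hε).mono fun T h => h.1
  have hJ : ∀ h : ℝ, 0 < h → Tendsto (fun T => Jt (Dz T (Y T)) h) atTop
      (𝓝 (Real.sqrt Real.pi * PG h)) := by
    intro h hh
    refine rigid (D := fun T => Dz T (Y T)) hsp (Eventually.of_forall fun T => Dz_cont T (Y T))
      ((eventually_ge_atTop 1).mono fun T hT α => Dz_nonneg hT (Y T) α) ?_ ?_ ?_ ?_ hh
    · intro h hh h1
      refine mix_lim hh ?_ hY'
      filter_upwards [lt_mem_nhds hh, gt_mem_nhds h1] with y hy hy1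
      exact PT_mont RH hy hy1
    · exact fun h hh ε hε => mix_low hh hY' hε
    · intro a b ha hab ε hε
      exact ub_trans (g := fun T => ∫ α in a..b, Vn T α) (mul_nonneg hsp.le (by linarith))
        (hcmp (by linarith) hab.le) (R3V a b ha hab) hε
    · intro ε hε
      obtain ⟨δ, hδ0, hδ1, hδ⟩ := edge_small (show 0 < ε / 4 by linarith)
      refine ⟨δ, hδ0, by linarith, ?_⟩
      filter_upwards [hδ, hcmp (a := 1 - δ) (b := 1) (by linarith) (by linarith) 1 one_pos (ε / 4)
        (by linarith), eventually_ge_atTop 10] with T t1 t2 hT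
      have hL := one_lt_log (show 3 ≤ T by linarith)
      have e2 := Vn_sub (show 1 < T by linarith) (a' := 1 - δ) (a := 1 - δ) (b := 1)
        (b' := 1 + 1 / Real.log T) le_rfl (by linarith) (by
          have : 0 < 1 / Real.log T := by positivity
          linarith)
      linarith
  exact demix hY' hJ hh

end Pool.Agent.NH10.GM
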