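import Pool.Agent.NH10.GM.Mix2

/-! # The Gaussian mixture of the pair sums: limits -/

set_option autoImplicit false
set_option maxHeartbeats 4000000

open MeasureTheory Set Filter Topology

namespace Pool.Agent.NH10.GM

open Pool.Agent.Y749.Rig

/-- the pair sums without truncation -/
noncomputable def MTf (T h c : ℝ) : ℝ := 4 * Real.pi / (T * Real.log T) *
  SPair (c * T) (fun s s' => Kt h ((s.im - s'.im) * Real.log T / (2 * Real.pi)))

lemma MTf_eq {T c h : ℝ} (hT : 10 ≤ T) (hc : 10 ≤ c * T) (hh : 0 < h) :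
    MTf T h c = 2 * c * (Real.log (c * T) / Real.log T) ^ 3 *
      PT (c * T) (Real.log T / Real.log (c * T) * h) := by
  have hL := one_lt_log (show 3 ≤ T by linarith)
  have hLc := one_lt_log (show 3 ≤ c * T by linarith)
  have hpi := Real.pi_pos
  have h1 := RR_scale (T := T) (y := c * T) (by linarith) hc hh (ZZ (c * T))
  rw [PT_RR hc] at h1
  have h2 : SPair (c * T) (fun s s' => Kt h ((s.im - s'.im) * Real.log T / (2 * Real.pi))) =
      RR (Kt h) (ZZ (c * T)) (ZZ (c * T)) (Real.log T) := rfl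
  unfold MTf
  rw [h2, h1]
  unfold nT
  have : Real.log T ≠ 0 := by linarith
  have : Real.log (c * T) ≠ 0 := by linarith
  have : T ≠ 0 := by linarith
  field_simp
  ring

lemma MT_le {T : ℝ} (hT : 1 < T) (Y : ℝ) {h : ℝ} (hh : 0 < h) (c : ℝ) :
    MT T Y h c ≤ MTf T h c := by
  unfold MT MTf
  have := Real.log_pos hT
  have := Real.pi_pos
  exact mul_le_mul_of_nonneg_left (SPair_mono (min_le_left _ _) fun _ _ => Kt_nonneg hh _)
    (by positivity)

lemma MT_eq {T Y : ℝ} (h : ℝ) {c : ℝ} (hc : c * T ≤ Y) : MT T Y h c = MTf T h c := by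
  unfold MT MTf
  rw [min_eq_left hc]

lemma MTf_mono {T : ℝ} (hT : 1 < T) {h : ℝ} (hh : 0 < h) : Monotone (MTf T h) := by
  intro c c' hcc
  unfold MTf
  have := Real.log_pos hT
  have := Real.pi_pos
  refine mul_le_mul_of_nonneg_left (SPair_mono ?_ fun _ _ => Kt_nonneg hh _) (by positivity)
  exact mul_le_mul_of_nonneg_right hcc (by linarith)

lemma MTf_nonneg {T : ℝ} (hT : 1 < T) {h : ℝ} (hh : 0 < h) (c : ℝ) : 0 ≤ MTf T h c := by
  unfold MTf
  have := Real.log_pos hT
  have := Real.pi_pos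
  refine mul_nonneg (by positivity) (SPair_nonneg _ fun _ _ => Kt_nonneg hh _)

lemma MTf_mono_h {T : ℝ} (hT : 1 < T) {h h' : ℝ} (hh : 0 < h) (hhh : h ≤ h') (c : ℝ) :
    MTf T h c ≤ MTf T h' c := by
  unfold MTf
  have := Real.log_pos hT
  have := Real.pi_pos
  exact mul_le_mul_of_nonneg_left (RR_mono_h hh hhh (ZZ (c * T)) (Real.log T)) (by positivity)

lemma MTf_one {T h : ℝ} (hT : 10 ≤ T) (hh : 0 < h) : MTf T h 1 = 2 * PT T h := by
  have hL := one_lt_log (show 3 ≤ T by linarith)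
  rw [MTf_eq hT (by linarith) hh, one_mul, div_self (by linarith)]
  ring

/-- domination -/
lemma MTf_dom {h : ℝ} (hh : 0 < h) : ∃ C : ℝ, 0 < C ∧ ∀ᶠ T in atTop, ∀ c : ℝ, 0 < c →
    MTf T h c ≤ C * (1 + 2 * c) ^ 4 := by
  obtain ⟨C, hC, hB⟩ := PT_bdd hh
  obtain ⟨T₁, hT₁⟩ := eventually_atTop.1 hB
  refine ⟨2 * C, by positivity, ?_⟩
  filter_upwards [eventually_ge_atTop T₁, eventually_ge_atTop 10] with T hTT hT c hc
  have hL := one_lt_log (show 3 ≤ T by linarith)
  have hT0 : 0 < T := by linarith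
  rcases le_or_gt c 1 with h1 | h1
  · refine (MTf_mono (by linarith) hh h1).trans ?_
    rw [MTf_one hT hh]
    have := hT₁ T hTT
    have h2 : (1 : ℝ) ≤ (1 + 2 * c) ^ 4 := one_le_pow₀ (by linarith)
    nlinarith
  · have hcT : T ≤ c * T := by nlinarith
    have hlog : Real.log (c * T) = Real.log c + Real.log T := Real.log_mul hc.ne' hT0.ne'
    have hlc0 : 0 ≤ Real.log c := Real.log_nonneg h1.le
    have hlc1 : Real.log c ≤ c := by
      have := Real.log_le_sub_one_of_pos hc
      linarith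
    have hLc : 0 < Real.log (c * T) := by rw [hlog]; linarith
    rw [MTf_eq hT (by linarith) hh]
    have hr1 : Real.log (c * T) / Real.log T ≤ 1 + 2 * c := by
      rw [div_le_iff₀ (by linarith), hlog]
      nlinarith
    have hr0 : 0 ≤ Real.log (c * T) / Real.log T := div_nonneg hLc.le (by linarith)
    have hmu : Real.log T / Real.log (c * T) * h ≤ h := by
      have : Real.log T / Real.log (c * T) ≤ 1 := by
        rw [div_le_one hLc, hlog]
        linarith
      nlinarith
    have hmu0 : 0 < Real.log T / Real.log (c * T) * h :=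
      mul_pos (div_pos (by linarith) hLc) hh
    have hp : PT (c * T) (Real.log T / Real.log (c * T) * h) ≤ C :=
      (PT_mono (by linarith) hmu0 hmu).trans (hT₁ _ (by linarith))
    have hp0 := PT_nonneg (c * T) hmu0
    calc 2 * c * (Real.log (c * T) / Real.log T) ^ 3 *
          PT (c * T) (Real.log T / Real.log (c * T) * h)
        ≤ 2 * c * (1 + 2 * c) ^ 3 * C := by gcongr
      _ ≤ 2 * C * (1 + 2 * c) ^ 4 := by
          have h3 : 0 ≤ (1 + 2 * c) ^ 3 := by positivity
          have e : 2 * C * (1 + 2 * c) ^ 4 - 2 * c * (1 + 2 * c) ^ 3 * C =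
            2 * C * (1 + 2 * c) ^ 3 * (1 + c) := by ring
          have : 0 ≤ 2 * C * (1 + 2 * c) ^ 3 * (1 + c) := by positivity
          linarith

lemma mono_near {f : ℝ → ℝ → ℝ} {G : ℝ → ℝ} {h : ℝ} (hh : 0 < h)
    (hmono : ∀ᶠ T in atTop, ∀ x y : ℝ, 0 < x → x ≤ y → f T x ≤ f T y)
    (hf : ∀ᶠ y in 𝓝 h, Tendsto (fun T => f T y) atTop (𝓝 (G y))) (hG : ContinuousAt G h)
    {l : Filter ℝ} {y ν : ℝ → ℝ} (hy : Tendsto y l atTop) (hν : Tendsto ν l (𝓝 h)) :
    Tendsto (fun T => f (y T) (ν T)) l (𝓝 (G h)) := by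
  have hex : ∀ {p : ℝ → Prop}, (∀ᶠ x in 𝓝 h, p x) → (∃ x, 0 < x ∧ x < h ∧ p x) ∧
      ∃ x, h < x ∧ p x := by
    intro p hp
    obtain ⟨ε, hε, hb⟩ := Metric.eventually_nhds_iff.1 hp
    constructor
    · refine ⟨h - min (ε / 2) (h / 2), ?_, ?_, ?_⟩
      · have := min_le_right (ε / 2) (h / 2)
        linarith
      · have := lt_min (show 0 < ε / 2 by linarith) (show 0 < h / 2 by linarith)
        linarith
      · apply hb
        rw [Real.dist_eq]
        have h1 := lt_min (show 0 < ε / 2 by linarith) (show 0 < h / 2 by linarith)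
        have h2 := min_le_left (ε / 2) (h / 2)
        rw [abs_lt]
        constructor <;> linarith
    · refine ⟨h + ε / 2, by linarith, ?_⟩
      apply hb
      rw [Real.dist_eq]
      rw [abs_lt]
      constructor <;> linarith
  rw [tendsto_order]
  constructor
  · intro a ha
    obtain ⟨⟨x, hx0, hxh, hx1, hx2⟩, _⟩ := hex (hf.and (hG.eventually (lt_mem_nhds ha)))
    filter_upwards [hy.eventually (hx1.eventually (lt_mem_nhds hx2)), hy.eventually hmono,
      hν.eventually (lt_mem_nhds hxh)] with T h1 h2 h3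
    exact h1.trans_le (h2 _ _ hx0 h3.le)
  · intro a ha
    obtain ⟨_, ⟨x, hxh, hx1, hx2⟩⟩ := hex (hf.and (hG.eventually (gt_mem_nhds ha)))
    filter_upwards [hy.eventually (hx1.eventually (gt_mem_nhds hx2)), hy.eventually hmono,
      hν.eventually (gt_mem_nhds hxh), hν.eventually (lt_mem_nhds hh)] with T h1 h2 h3 h4
    exact (h2 _ _ h4 h3.le).trans_lt h1

lemma ratio_lim {c : ℝ} (hc : 0 < c) :
    Tendsto (fun T => Real.log (c * T) / Real.log T) atTop (𝓝 1) := by
  have h1 : Tendsto (fun T : ℝ => 1 + Real.log c / Real.log T) atTop (𝓝 (1 + 0)) :=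
    tendsto_const_nhds.add (Tendsto.div_atTop tendsto_const_nhds Real.tendsto_log_atTop)
  rw [add_zero] at h1
  refine h1.congr' ?_
  filter_upwards [eventually_ge_atTop 3] with T hT
  have := one_lt_log hT
  rw [Real.log_mul hc.ne' (by linarith)]
  field_simp
  ring

lemma ratio_lim' {c : ℝ} (hc : 0 < c) :
    Tendsto (fun T => Real.log T / Real.log (c * T)) atTop (𝓝 1) := by
  have h1 := (ratio_lim hc).inv₀ one_ne_zero
  rw [inv_one] at h1
  refine h1.congr fun T => ?_
  rw [inv_div]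

lemma scale_top {c : ℝ} (hc : 0 < c) : Tendsto (fun T : ℝ => c * T) atTop atTop :=
  tendsto_id.const_mul_atTop hc

lemma MTf_lim {h : ℝ} (hh : 0 < h)
    (hP : ∀ᶠ y in 𝓝 h, Tendsto (fun T => PT T y) atTop (𝓝 (PG y))) {c : ℝ} (hc : 0 < c) :
    Tendsto (fun T => MTf T h c) atTop (𝓝 (2 * c * PG h)) := by
  have h1 : Tendsto (fun T => PT (c * T) (Real.log T / Real.log (c * T) * h)) atTop
      (𝓝 (PG h)) := by
    refine mono_near hh ((eventually_ge_atTop 10).mono fun T hT x y hx hxy => PT_mono hT hx hxy)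
      hP PG_cont.continuousAt (scale_top hc) ?_
    have := (ratio_lim' hc).mul_const h
    rwa [one_mul] at this
  have h2 := (((ratio_lim hc).pow 3).const_mul (2 * c)).mul h1
  rw [one_pow, mul_one] at h2
  refine h2.congr' ?_
  filter_upwards [eventually_ge_atTop 10, (scale_top hc).eventually_ge_atTop 10] with T hT hcT
  exact (MTf_eq hT hcT hh).symm

/-- the diagonal, uniformly in the width -/
lemma PT_diag' {ε : ℝ} (hε : 0 < ε) :
    ∀ᶠ T in atTop, ∀ h : ℝ, 0 < h → h ^ 2 * (1 - ε) ≤ PT T h := by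
  obtain ⟨C, hC, hB⟩ := Mp_bdd
  have hC0 : 0 ≤ C := by linarith
  filter_upwards [hB, Mp_zero hε] with T hT h0 h hh
  have hfin := Mp_fin T
  have e : h ^ 2 * (Mp T).real {0} = ∫ x in ({0} : Set ℝ), Kt h x ∂(Mp T) := by
    rw [integral_singleton, Kt_zero hh, smul_eq_mul]
    ring
  have h1 : ∫ x in ({0} : Set ℝ), Kt h x ∂(Mp T) ≤ PT T h :=
    setIntegral_le_integral (Bdd.integrable hC0 hT (Kt_cont hh) (Kt_qd hh))
      (ae_of_all _ fun x => Kt_nonneg hh x)
  rw [← e] at h1
  exact (mul_le_mul_of_nonneg_left h0 (sq_nonneg h)).trans h1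

lemma MTf_low {h : ℝ} (hh : 0 < h) {c : ℝ} (hc : 0 < c) {ε : ℝ} (hε : 0 < ε) :
    ∀ᶠ T in atTop, 2 * c * h ^ 2 - ε ≤ MTf T h c := by
  obtain ⟨η, hη⟩ : ∃ η : ℝ, η = ε / (4 * c * h ^ 2) := ⟨_, rfl⟩
  have hη0 : 0 < η := by rw [hη]; positivity
  have h1 := ((ratio_lim hc).const_mul (2 * c * h ^ 2)).mul_const (1 - η)
  rw [mul_one] at h1
  have h2 : 2 * c * h ^ 2 - ε < 2 * c * h ^ 2 * (1 - η) := by
    have : 2 * c * h ^ 2 * η = ε / 2 := by
      rw [hη]
      field_simp
      norm_num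
    nlinarith
  filter_upwards [eventually_ge_atTop 10, (scale_top hc).eventually_ge_atTop 10,
    (scale_top hc).eventually (PT_diag' hη0), h1.eventually (lt_mem_nhds h2)] with T hT hcT h3 h4
  have hL := one_lt_log (show 3 ≤ T by linarith)
  have hLc := one_lt_log (show 3 ≤ c * T by linarith)
  have hL0 : 0 < Real.log T := by linarith
  have hLc0 : 0 < Real.log (c * T) := by linarith
  rw [MTf_eq hT hcT hh]
  have h5 := h3 (Real.log T / Real.log (c * T) * h) (by positivity)
  have h6 : 0 ≤ 2 * c * (Real.log (c * T) / Real.log T) ^ 3 := by positivity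
  have h7 := mul_le_mul_of_nonneg_left h5 h6
  have e : 2 * c * (Real.log (c * T) / Real.log T) ^ 3 *
      ((Real.log T / Real.log (c * T) * h) ^ 2 * (1 - η)) =
      2 * c * h ^ 2 * (Real.log (c * T) / Real.log T) * (1 - η) := by
    field_simp
  rw [e] at h7
  exact h4.le.trans h7

/-! ### the integrals -/

lemma MTf_int {T h : ℝ} (hT : 1 < T) (hh : 0 < h) {C : ℝ}
    (hC : ∀ c : ℝ, 0 < c → MTf T h c ≤ C * (1 + 2 * c) ^ 4) :
    IntegrableOn (fun c => gd c * MTf T h c) (Ioi 0) := by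
  refine ((gd_poly_int 4).const_mul C).mono ?_ ?_
  · exact (gd_cont.measurable.mul (MTf_mono hT hh).measurable).aestronglyMeasurable
  · refine (ae_restrict_mem measurableSet_Ioi).mono fun c hc => ?_
    have hc0 : 0 < c := hc
    have hg := gd_nonneg hc0.le
    have h0 := MTf_nonneg hT hh c
    have h1 := hC c hc0
    rw [Real.norm_of_nonneg (mul_nonneg hg h0), Real.norm_of_nonneg]
    · calc gd c * MTf T h c ≤ gd c * (C * (1 + 2 * c) ^ 4) := mul_le_mul_of_nonneg_left h1 hg
        _ = _ := by ring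
    · have := h0.trans h1
      have h2 := mul_nonneg hg this
      calc (0 : ℝ) ≤ gd c * (C * (1 + 2 * c) ^ 4) := h2
        _ = _ := by ring

/-- the truncation does not matter -/
lemma trunc {h : ℝ} (hh : 0 < h) {Y : ℝ → ℝ} (hY : ∀ᶠ T in atTop, T ^ 2 ≤ Y T) :
    Tendsto (fun T => (∫ c in Ioi (0 : ℝ), gd c * MTf T h c) -
      ∫ c in Ioi (0 : ℝ), gd c * MT T (Y T) h c) atTop (𝓝 0) := by
  obtain ⟨C, hC, hdom⟩ := MTf_dom hh
  have h1 : Tendsto (fun T => ∫ c in Ioi (0 : ℝ), (gd c * MTf T h c - gd c * MT T (Y T) h c))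
      atTop (𝓝 (∫ c in Ioi (0 : ℝ), (0 : ℝ))) := by
    refine tendsto_integral_filter_of_dominated_convergence
      (fun c => C * (gd c * (1 + 2 * c) ^ 4)) ?_ ?_ ((gd_poly_int 4).const_mul C) ?_
    · filter_upwards [eventually_gt_atTop 1] with T hT
      exact ((gd_cont.measurable.mul (MTf_mono hT hh).measurable).sub
        (gd_cont.measurable.mul (MT_mono hT (Y T) hh).measurable)).aestronglyMeasurable
    · filter_upwards [eventually_gt_atTop 1, hdom] with T hT hd
      refine (ae_restrict_mem measurableSet_Ioi).mono fun c hc => ?_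
      have hc0 : 0 < c := hc
      have hg := gd_nonneg hc0.le
      have h0 := MT_nonneg hT (Y T) hh c
      have h1 := MT_le hT (Y T) hh c
      have h2 := hd c hc0
      rw [← mul_sub, Real.norm_of_nonneg (mul_nonneg hg (by linarith))]
      calc gd c * (MTf T h c - MT T (Y T) h c) ≤ gd c * (C * (1 + 2 * c) ^ 4) :=
            mul_le_mul_of_nonneg_left (by linarith) hg
        _ = _ := by ring
    · refine (ae_restrict_mem measurableSet_Ioi).mono fun c hc => ?_
      have hc0 : 0 < c := hc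
      refine tendsto_const_nhds.congr' ?_
      filter_upwards [eventually_ge_atTop c, eventually_gt_atTop 0, hY] with T hT hT0 hYT
      rw [MT_eq h (show c * T ≤ Y T by nlinarith), sub_self]
  rw [integral_zero] at h1
  refine h1.congr' ?_
  filter_upwards [eventually_gt_atTop 1, hdom] with T hT hd
  rw [integral_sub (MTf_int hT hh hd) (MT_int (by linarith) (Y T) h)]

lemma mix_to {h : ℝ} (hh : 0 < h) {Y : ℝ → ℝ} (hY : ∀ᶠ T in atTop, T ^ 2 ≤ Y T) :
    Tendsto (fun T => Jt (Dz T (Y T)) h - ∫ c in Ioi (0 : ℝ), gd c * MTf T h c) atTop (𝓝 0) := by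
  obtain ⟨C, hC, hJ⟩ := Jt_mix
  have h1 : Tendsto (fun T : ℝ => C / Real.log T) atTop (𝓝 0) :=
    Tendsto.div_atTop tendsto_const_nhds Real.tendsto_log_atTop
  have h2 : Tendsto (fun T => Jt (Dz T (Y T)) h - ∫ c in Ioi (0 : ℝ), gd c * MT T (Y T) h c)
      atTop (𝓝 0) := by
    refine squeeze_zero_norm' ?_ h1
    have h3 : ∀ᶠ T : ℝ in atTop, h * Real.log T ≤ T := by
      have h4 : Tendsto (fun T : ℝ => Real.log T / T) atTop (𝓝 0) := by
        simpa using Real.tendsto_pow_log_div_mul_add_atTop 1 0 1 one_ne_zero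
      filter_upwards [h4.eventually (gt_mem_nhds (show (0 : ℝ) < 1 / h by positivity)),
        eventually_gt_atTop 0] with T hT hT0
      rw [div_lt_div_iff₀ hT0 hh] at hT
      linarith
    filter_upwards [h3, eventually_ge_atTop 10] with T h3 hT
    rw [Real.norm_eq_abs]
    exact hJ T hT (Y T) h hh h3
  have h3 := h2.sub (trunc hh hY)
  rw [sub_zero] at h3
  refine h3.congr fun T => ?_
  ring

/-- the moments -/
lemma moment {b : ℝ} (hb : 0 < b) : ∫ c in Ioi (0 : ℝ), 2 * c * Real.exp (-b * c ^ 2) * (2 * c) =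
    Real.sqrt Real.pi / (b * Real.sqrt b) := by
  have h1 := integral_rpow_mul_exp_neg_mul_rpow (p := 2) (q := 2) (b := b) (by norm_num)
    (by norm_num) hb
  have e1 : ∫ c in Ioi (0 : ℝ), 2 * c * Real.exp (-b * c ^ 2) * (2 * c) =
      4 * ∫ x in Ioi (0 : ℝ), x ^ (2 : ℝ) * Real.exp (-b * x ^ (2 : ℝ)) := by
    rw [← integral_const_mul]
    refine setIntegral_congr_fun measurableSet_Ioi fun c _ => ?_
    show 2 * c * Real.exp (-b * c ^ 2) * (2 * c) =
      4 * (c ^ (2 : ℝ) * Real.exp (-b * c ^ (2 : ℝ)))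
    rw [Real.rpow_two]
    ring
  have e2 : Real.Gamma ((2 + 1) / 2) = Real.sqrt Real.pi / 2 := by
    have : ((2 : ℝ) + 1) / 2 = 1 / 2 + 1 := by norm_num
    rw [this, Real.Gamma_add_one (by norm_num), Real.Gamma_one_half_eq]
    ring
  have e3 : b ^ (-((2 : ℝ) + 1) / 2) = 1 / (b * Real.sqrt b) := by
    have : -((2 : ℝ) + 1) / 2 = -(1 + 1 / 2) := by norm_num
    rw [this, Real.rpow_neg hb.le, Real.rpow_add hb, Real.rpow_one, ← Real.sqrt_eq_rpow, one_div]
  rw [e1, h1, e2, e3]
  ring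

lemma gd_moment (A : ℝ) : ∫ c in Ioi (0 : ℝ), gd c * (2 * c * A) = Real.sqrt Real.pi * A := by
  have h1 := moment one_pos
  rw [Real.sqrt_one, mul_one, div_one] at h1
  rw [← h1, ← integral_mul_const]
  refine integral_congr_ae (ae_of_all _ fun c => ?_)
  unfold gd
  simp only
  have : -1 * c ^ 2 = -c ^ 2 := by ring
  rw [this]
  ring

/-- **from the pair sums to the mean squares** -/
theorem mix_lim {h : ℝ} (hh : 0 < h)
    (hP : ∀ᶠ y in 𝓝 h, Tendsto (fun T => PT T y) atTop (𝓝 (PG y)))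
    {Y : ℝ → ℝ} (hY : ∀ᶠ T in atTop, T ^ 2 ≤ Y T) :
    Tendsto (fun T => Jt (Dz T (Y T)) h) atTop (𝓝 (Real.sqrt Real.pi * PG h)) := by
  obtain ⟨C, hC, hdom⟩ := MTf_dom hh
  have h1 : Tendsto (fun T => ∫ c in Ioi (0 : ℝ), gd c * MTf T h c) atTop
      (𝓝 (∫ c in Ioi (0 : ℝ), gd c * (2 * c * PG h))) := by
    refine tendsto_integral_filter_of_dominated_convergence
      (fun c => C * (gd c * (1 + 2 * c) ^ 4)) ?_ ?_ ((gd_poly_int 4).const_mul C) ?_
    · filter_upwards [eventually_gt_atTop 1] with T hT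
      exact (gd_cont.measurable.mul (MTf_mono hT hh).measurable).aestronglyMeasurable
    · filter_upwards [eventually_gt_atTop 1, hdom] with T hT hd
      refine (ae_restrict_mem measurableSet_Ioi).mono fun c hc => ?_
      have hc0 : 0 < c := hc
      have hg := gd_nonneg hc0.le
      rw [Real.norm_of_nonneg (mul_nonneg hg (MTf_nonneg hT hh c))]
      calc gd c * MTf T h c ≤ gd c * (C * (1 + 2 * c) ^ 4) :=
            mul_le_mul_of_nonneg_left (hd c hc0) hg
        _ = _ := by ring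
    · refine (ae_restrict_mem measurableSet_Ioi).mono fun c hc => ?_
      exact (MTf_lim hh hP hc).const_mul _
  rw [gd_moment] at h1
  have h2 := (mix_to hh hY).add h1
  rw [zero_add] at h2
  refine h2.congr fun T => ?_
  ring

/-- **the lower bound** -/
theorem mix_low {h : ℝ} (hh : 0 < h) {Y : ℝ → ℝ} (hY : ∀ᶠ T in atTop, T ^ 2 ≤ Y T) {ε : ℝ}
    (hε : 0 < ε) : ∀ᶠ T in atTop, Real.sqrt Real.pi * h ^ 2 - ε ≤ Jt (Dz T (Y T)) h := by
  obtain ⟨C, hC, hdom⟩ := MTf_dom hh
  have hmeas : ∀ T : ℝ, 1 < T → Measurable fun c => gd c * min (MTf T h c) (2 * c * h ^ 2) :=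
    fun T hT => gd_cont.measurable.mul ((MTf_mono hT hh).measurable.min
      (by fun_prop : Continuous fun c : ℝ => 2 * c * h ^ 2).measurable)
  have hbd : ∀ᶠ T in atTop, ∀ c : ℝ, 0 < c → ‖gd c * min (MTf T h c) (2 * c * h ^ 2)‖ ≤
      C * (gd c * (1 + 2 * c) ^ 4) := by
    filter_upwards [eventually_gt_atTop 1, hdom] with T hT hd c hc0
    have hg := gd_nonneg hc0.le
    rw [Real.norm_of_nonneg (mul_nonneg hg (le_min (MTf_nonneg hT hh c) (by positivity)))]
    calc gd c * min (MTf T h c) (2 * c * h ^ 2) ≤ gd c * (C * (1 + 2 * c) ^ 4) :=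
          mul_le_mul_of_nonneg_left ((min_le_left _ _).trans (hd c hc0)) hg
      _ = _ := by ring
  have h1 : Tendsto (fun T => ∫ c in Ioi (0 : ℝ), gd c * min (MTf T h c) (2 * c * h ^ 2)) atTop
      (𝓝 (∫ c in Ioi (0 : ℝ), gd c * (2 * c * h ^ 2))) := by
    refine tendsto_integral_filter_of_dominated_convergence
      (fun c => C * (gd c * (1 + 2 * c) ^ 4)) ?_ ?_ ((gd_poly_int 4).const_mul C) ?_
    · filter_upwards [eventually_gt_atTop 1] with T hT
      exact (hmeas T hT).aestronglyMeasurable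
    · filter_upwards [hbd] with T hT
      exact (ae_restrict_mem measurableSet_Ioi).mono fun c hc => hT c hc
    · refine (ae_restrict_mem measurableSet_Ioi).mono fun c hc => ?_
      have hc0 : 0 < c := hc
      refine Tendsto.const_mul _ ?_
      rw [Metric.tendsto_nhds]
      intro η hη
      filter_upwards [MTf_low hh hc0 (show 0 < η / 2 by linarith)] with T hT
      rw [Real.dist_eq, abs_lt]
      constructor
      · have := le_min hT (show 2 * c * h ^ 2 - η / 2 ≤ 2 * c * h ^ 2 by linarith)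
        linarith
      · have := min_le_right (MTf T h c) (2 * c * h ^ 2)
        linarith
  rw [gd_moment] at h1
  have h2 := (mix_to hh hY)
  filter_upwards [h1.eventually (lt_mem_nhds (show Real.sqrt Real.pi * h ^ 2 - ε / 2 <
    Real.sqrt Real.pi * h ^ 2 by linarith)), h2.eventually (lt_mem_nhds
    (show -(ε / 2) < 0 by linarith)), eventually_gt_atTop 1, hdom, hbd] with T h3 h4 hT hd hb
  have h5 : ∫ c in Ioi (0 : ℝ), gd c * min (MTf T h c) (2 * c * h ^ 2) ≤
      ∫ c in Ioi (0 : ℝ), gd c * MTf T h c := by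
    refine setIntegral_mono_on ?_ (MTf_int hT hh hd) measurableSet_Ioi fun c hc => ?_
    · refine ((gd_poly_int 4).const_mul C).mono (hmeas T hT).aestronglyMeasurable ?_
      refine (ae_restrict_mem measurableSet_Ioi).mono fun c hc => ?_
      exact (hb c hc).trans (le_abs_self _)
    · exact mul_le_mul_of_nonneg_left (min_le_left _ _) (gd_nonneg (le_of_lt hc))
  linarith

end Pool.Agent.NH10.GM
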