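import Pool.Agent.NH10.GM.EF3
import Pool.Agent.H370R2.NT

/-! # The prime side near the edge: an upper bound of Chebyshev type -/

set_option autoImplicit false
set_option maxHeartbeats 4000000

open Filter Topology Set MeasureTheory ArithmeticFunction

namespace Pool.Agent.NH10.GM

open Pool.Agent.Y749.Rig

/-- the Gaussian weights -/
noncomputable def lw (T u : ℝ) (n : ℕ) : ℝ :=
  Real.exp (-(u - Real.log n) ^ 2 / (2 * (1 / T ^ 2)))

/-- the coefficients -/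
noncomputable def al (n : ℕ) : ℝ := vonMangoldt n * (Real.sqrt n)⁻¹

/-- the prime sum -/
noncomputable def SM (T u : ℝ) : ℝ := ∑' n : ℕ, al n * lw T u n

lemma Vs_eq (T u : ℝ) : Vs T u = SM T u -
    Real.sqrt (2 * Real.pi) / T * Real.exp (u / 2 + 1 / (8 * T ^ 2)) := rfl

lemma al_nonneg (n : ℕ) : 0 ≤ al n := by
  unfold al
  have := vonMangoldt_nonneg (n := n)
  positivity

lemma lw_pos (T u : ℝ) (n : ℕ) : 0 < lw T u n := Real.exp_pos _

lemma lw_eq {T : ℝ} (hT : 0 < T) (u : ℝ) (n : ℕ) :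
    lw T u n = Real.exp (-(T ^ 2 * (u - Real.log n) ^ 2 / 2)) := by
  unfold lw
  congr 1
  field_simp

/-- the summable majorant -/
noncomputable def lm (n : ℕ) : ℝ := vonMangoldt n * (n : ℝ) ^ (-(3 / 2 : ℝ))

lemma lm_nonneg (n : ℕ) : 0 ≤ lm n := by
  unfold lm
  have := vonMangoldt_nonneg (n := n)
  positivity

lemma lm_sum : Summable lm := H370.lam_summable

lemma exp3 {n : ℕ} (hn : 1 ≤ n) : (Real.sqrt n)⁻¹ * Real.exp (-(3 * Real.log n)) ≤
    (n : ℝ) ^ (-(3 / 2 : ℝ)) := by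
  have hn1 : (1 : ℝ) ≤ n := by exact_mod_cast hn
  have hn0 : (0 : ℝ) < n := by linarith
  have h1 : (Real.sqrt n)⁻¹ ≤ 1 := by
    apply inv_le_one_of_one_le₀
    rw [Real.one_le_sqrt]
    exact hn1
  have h2 : Real.exp (-(3 * Real.log n)) ≤ (n : ℝ) ^ (-(3 / 2 : ℝ)) := by
    rw [Real.rpow_def_of_pos hn0]
    apply Real.exp_le_exp.2
    have := Real.log_nonneg hn1
    linarith
  calc (Real.sqrt n)⁻¹ * Real.exp (-(3 * Real.log n)) ≤ 1 * (n : ℝ) ^ (-(3 / 2 : ℝ)) := by gcongr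
    _ = _ := one_mul _

/-- the general bound of the terms -/
lemma term_le {T : ℝ} (hT : 0 < T) (u : ℝ) (n : ℕ) :
    al n * lw T u n ≤ Real.exp (3 * u + 9 / (2 * T ^ 2)) * lm n := by
  rcases Nat.eq_zero_or_pos n with h | h
  · subst h
    simp [al, lm]
  · have h1 : lw T u n ≤ Real.exp (3 * u + 9 / (2 * T ^ 2)) * Real.exp (-(3 * Real.log n)) := by
      rw [lw_eq hT, ← Real.exp_add]
      apply Real.exp_le_exp.2
      have h2 : 0 ≤ (T * (Real.log n - u) - 3 / T) ^ 2 / 2 := by positivity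
      have h3 : (T * (Real.log n - u) - 3 / T) ^ 2 / 2 = T ^ 2 * (u - Real.log n) ^ 2 / 2 -
          3 * (Real.log n - u) + 9 / (2 * T ^ 2) := by
        field_simp
        ring
      linarith
    have hv := vonMangoldt_nonneg (n := n)
    unfold al lm
    calc vonMangoldt n * (Real.sqrt n)⁻¹ * lw T u n ≤ vonMangoldt n * (Real.sqrt n)⁻¹ *
          (Real.exp (3 * u + 9 / (2 * T ^ 2)) * Real.exp (-(3 * Real.log n))) := by gcongr
      _ = Real.exp (3 * u + 9 / (2 * T ^ 2)) * (vonMangoldt n *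
          ((Real.sqrt n)⁻¹ * Real.exp (-(3 * Real.log n)))) := by ring
      _ ≤ Real.exp (3 * u + 9 / (2 * T ^ 2)) * (vonMangoldt n * (n : ℝ) ^ (-(3 / 2 : ℝ))) := by
          gcongr
          exact exp3 h

lemma term_nonneg (T u : ℝ) (n : ℕ) : 0 ≤ al n * lw T u n :=
  mul_nonneg (al_nonneg n) (lw_pos T u n).le

lemma term_sum {T : ℝ} (hT : 0 < T) (u : ℝ) : Summable fun n => al n * lw T u n :=
  Summable.of_nonneg_of_le (term_nonneg T u) (term_le hT u) (lm_sum.mul_left _)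

/-- the bound of the terms far away -/
lemma term_far {T : ℝ} (hT : 0 < T) {u : ℝ} {n : ℕ} (hn : 1 ≤ n)
    (hd : 1 ≤ (u - Real.log n) ^ 2) :
    al n * lw T u n ≤ Real.exp (-(T ^ 2 / 4)) * Real.exp (3 * u + 9 / T ^ 2) * lm n := by
  have h1 : lw T u n ≤ Real.exp (-(T ^ 2 / 4)) * Real.exp (3 * u + 9 / T ^ 2) *
      Real.exp (-(3 * Real.log n)) := by
    rw [lw_eq hT, ← Real.exp_add, ← Real.exp_add]
    apply Real.exp_le_exp.2
    have h2 : 0 ≤ (T / 2 * (Real.log n - u) - 3 / T) ^ 2 := by positivity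
    have h3 : (T / 2 * (Real.log n - u) - 3 / T) ^ 2 = T ^ 2 * (u - Real.log n) ^ 2 / 4 -
        3 * (Real.log n - u) + 9 / T ^ 2 := by
      field_simp
      ring
    have h4 : T ^ 2 * 1 ≤ T ^ 2 * (u - Real.log n) ^ 2 := by gcongr
    linarith
  have hv := vonMangoldt_nonneg (n := n)
  unfold al lm
  calc vonMangoldt n * (Real.sqrt n)⁻¹ * lw T u n ≤ vonMangoldt n * (Real.sqrt n)⁻¹ *
        (Real.exp (-(T ^ 2 / 4)) * Real.exp (3 * u + 9 / T ^ 2) * Real.exp (-(3 * Real.log n))) := by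
        gcongr
    _ = Real.exp (-(T ^ 2 / 4)) * Real.exp (3 * u + 9 / T ^ 2) * (vonMangoldt n *
        ((Real.sqrt n)⁻¹ * Real.exp (-(3 * Real.log n)))) := by ring
    _ ≤ Real.exp (-(T ^ 2 / 4)) * Real.exp (3 * u + 9 / T ^ 2) *
        (vonMangoldt n * (n : ℝ) ^ (-(3 / 2 : ℝ))) := by
        gcongr
        exact exp3 hn

lemma lw_cont (T : ℝ) (n : ℕ) : Continuous fun u => lw T u n := by
  unfold lw
  fun_prop

lemma SM_cont {T : ℝ} (hT : 0 < T) : Continuous (SM T) := by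
  rw [continuous_iff_continuousAt]
  intro u₀
  have h1 : ContinuousOn (SM T) (Iio (u₀ + 1)) := by
    refine continuousOn_tsum (u := fun n => Real.exp (3 * (u₀ + 1) + 9 / (2 * T ^ 2)) * lm n)
      (fun n => (continuous_const.mul (lw_cont T n)).continuousOn) (lm_sum.mul_left _)
      fun n u hu => ?_
    rw [Real.norm_of_nonneg (term_nonneg T u n)]
    refine (term_le hT u n).trans (mul_le_mul_of_nonneg_right (Real.exp_le_exp.2 ?_) (lm_nonneg n))
    have : u < u₀ + 1 := hu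
    linarith
  exact h1.continuousAt (Iio_mem_nhds (by linarith))

lemma Vs_cont {T : ℝ} (hT : 0 < T) : Continuous (Vs T) := by
  have e : Vs T = fun u => SM T u -
      Real.sqrt (2 * Real.pi) / T * Real.exp (u / 2 + 1 / (8 * T ^ 2)) := rfl
  rw [e]
  exact (SM_cont hT).sub (by fun_prop)

/-! ### the sum of the weights -/

lemma int_near (x : ℝ) (n : ℤ) : 1 / (1 + (x - n) ^ 2) ≤ 3 * (1 / (1 + ((⌊x⌋ - n : ℤ) : ℝ) ^ 2)) := by
  rw [mul_one_div, div_le_div_iff₀ (by positivity) (by positivity)]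
  have h1 := Int.floor_le x
  have h2 := Int.lt_floor_add_one x
  push_cast
  nlinarith [sq_nonneg (x - n + (x - ⌊x⌋)), sq_nonneg (x - n), sq_nonneg ((⌊x⌋ : ℝ) - n)]

/-- the sum over all the integers -/
noncomputable def WZ : ℝ := ∑' k : ℤ, 1 / (1 + (k : ℝ) ^ 2)

lemma WZ_nonneg : 0 ≤ WZ := tsum_nonneg fun k => by positivity

lemma int_sum (x : ℝ) (A : Finset ℕ) : ∑ n ∈ A, 1 / (1 + (x - n) ^ 2) ≤ 3 * WZ := by
  have h1 : ∑ n ∈ A, 1 / (1 + (x - n) ^ 2) ≤
      ∑ n ∈ A, 3 * (1 / (1 + ((⌊x⌋ - (n : ℤ) : ℤ) : ℝ) ^ 2)) := by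
    refine Finset.sum_le_sum fun n _ => ?_
    have := int_near x (n : ℤ)
    rwa [Int.cast_natCast] at this
  have hinj : Function.Injective fun n : ℕ => (⌊x⌋ - (n : ℤ) : ℤ) := by
    intro a b hab
    have : (⌊x⌋ - (a : ℤ) : ℤ) = ⌊x⌋ - (b : ℤ) := hab
    omega
  have h2 : ∑ n ∈ A, 1 / (1 + ((⌊x⌋ - (n : ℤ) : ℤ) : ℝ) ^ 2) ≤ WZ := by
    have h3 : ∑ n ∈ A, 1 / (1 + ((⌊x⌋ - (n : ℤ) : ℤ) : ℝ) ^ 2) =
        ∑ k ∈ A.map ⟨_, hinj⟩, 1 / (1 + (k : ℝ) ^ 2) := by
      rw [Finset.sum_map]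
      rfl
    rw [h3]
    exact sumZ.sum_le_tsum _ fun k _ => by positivity
  rw [← Finset.mul_sum] at h1
  linarith

lemma log_diff {x n K : ℝ} (hx : 0 < x) (hn : 0 < n) (hxK : x ≤ K) (hnK : n ≤ K) :
    (x - n) ^ 2 / K ^ 2 ≤ (Real.log x - Real.log n) ^ 2 := by
  have hK : 0 < K := hx.trans_le hxK
  rw [← div_pow]
  have key : ∀ p q : ℝ, 0 < p → p ≤ q → q ≤ K → ((q - p) / K) ^ 2 ≤ (Real.log q - Real.log p) ^ 2 := by
    intro p q hp hpq hq
    have hq0 : 0 < q := hp.trans_le hpq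
    have h1 : 0 ≤ (q - p) / K := div_nonneg (by linarith) hK.le
    have h2 : (q - p) / K ≤ Real.log q - Real.log p := by
      have h3 := Real.log_le_sub_one_of_pos (show 0 < p / q by positivity)
      rw [Real.log_div hp.ne' hq0.ne'] at h3
      have h4 : (q - p) / K ≤ (q - p) / q :=
        div_le_div_of_nonneg_left (by linarith) hq0 hq
      have h5 : (q - p) / q = 1 - p / q := by field_simp
      linarith
    exact pow_le_pow_left₀ h1 h2 2
  rcases le_total n x with h | h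
  · exact key n x hn h hxK
  · have := key x n hx h hnK
    have e1 : ((x - n) / K) ^ 2 = ((n - x) / K) ^ 2 := by ring
    have e2 : (Real.log x - Real.log n) ^ 2 = (Real.log n - Real.log x) ^ 2 := by ring
    rw [e1, e2]
    exact this

lemma w_sum {T u : ℝ} (hT : 0 < T) (hu : Real.exp u ≤ 8 * T) (A : Finset ℕ)
    (hA : ∀ n ∈ A, 1 ≤ n ∧ (n : ℝ) ≤ 8 * T) : ∑ n ∈ A, lw T u n ≤ 384 * WZ := by
  have h1 : ∑ n ∈ A, lw T u n ≤ ∑ n ∈ A, 128 * (1 / (1 + (Real.exp u - n) ^ 2)) := by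
    refine Finset.sum_le_sum fun n hn => ?_
    obtain ⟨hn1, hn2⟩ := hA n hn
    have hn0 : (0 : ℝ) < n := by exact_mod_cast hn1
    rw [lw_eq hT]
    have h2 := log_diff (Real.exp_pos u) hn0 hu hn2
    rw [Real.log_exp] at h2
    have h3 : (Real.exp u - n) ^ 2 / 128 ≤ T ^ 2 * (u - Real.log n) ^ 2 / 2 := by
      have h4 : T ^ 2 * ((Real.exp u - n) ^ 2 / (8 * T) ^ 2) ≤ T ^ 2 * (u - Real.log n) ^ 2 := by
        gcongr
      have h5 : T ^ 2 * ((Real.exp u - n) ^ 2 / (8 * T) ^ 2) = (Real.exp u - n) ^ 2 / 64 := by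
        field_simp
        norm_num
      linarith
    have h6 : Real.exp (-(T ^ 2 * (u - Real.log n) ^ 2 / 2)) ≤
        Real.exp (-((Real.exp u - n) ^ 2 / 128)) := Real.exp_le_exp.2 (by linarith)
    have h7 : Real.exp (-((Real.exp u - n) ^ 2 / 128)) ≤ 128 * (1 / (1 + (Real.exp u - n) ^ 2)) := by
      rw [Real.exp_neg, mul_one_div]
      have h8 := Real.add_one_le_exp ((Real.exp u - n) ^ 2 / 128)
      have h9 : 0 < (Real.exp u - n) ^ 2 / 128 + 1 := by positivity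
      calc (Real.exp ((Real.exp u - n) ^ 2 / 128))⁻¹ ≤ ((Real.exp u - n) ^ 2 / 128 + 1)⁻¹ :=
            inv_anti₀ h9 h8
        _ ≤ 128 / (1 + (Real.exp u - n) ^ 2) := by
            rw [inv_eq_one_div, div_le_div_iff₀ h9 (by positivity)]
            nlinarith [sq_nonneg (Real.exp u - n)]
    exact h6.trans h7
  rw [← Finset.mul_sum] at h1
  have := int_sum (Real.exp u) A
  linarith

/-! ### the bound for the mean square -/

lemma lw_int {T : ℝ} (hT : 0 < T) (n : ℕ) : Integrable (fun u => lw T u n) ∧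
    ∫ u, lw T u n = Real.sqrt (2 * Real.pi) / T := by
  have hb : 0 < T ^ 2 / 2 := by positivity
  have e : (fun u => lw T u n) = fun u => Real.exp (-(T ^ 2 / 2) * (u - Real.log n) ^ 2) := by
    funext u
    rw [lw_eq hT]
    congr 1
    ring
  rw [e]
  refine ⟨H370.gauss_int _ _ hb, ?_⟩
  rw [H370.gauss_val]
  have : Real.pi / (T ^ 2 / 2) = 2 * Real.pi / T ^ 2 := by field_simp
  rw [this, Real.sqrt_div (by positivity), Real.sqrt_sq hT.le]

lemma sq_sum_le {T u : ℝ} (hT : 0 < T) (hu : Real.exp u ≤ 8 * T) (A : Finset ℕ)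
    (hA : ∀ n ∈ A, 1 ≤ n ∧ (n : ℝ) ≤ 8 * T) :
    (∑ n ∈ A, al n * lw T u n) ^ 2 ≤ 384 * WZ * ∑ n ∈ A, al n ^ 2 * lw T u n := by
  have h1 := Finset.sum_mul_sq_le_sq_mul_sq A
    (fun n => Real.exp (-(T ^ 2 * (u - Real.log n) ^ 2 / 2) / 2))
    (fun n => al n * Real.exp (-(T ^ 2 * (u - Real.log n) ^ 2 / 2) / 2))
  have e0 : ∀ n : ℕ, Real.exp (-(T ^ 2 * (u - Real.log n) ^ 2 / 2) / 2) ^ 2 = lw T u n := by
    intro n
    rw [lw_eq hT, ← Real.exp_nat_mul]
    congr 1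
    push_cast
    ring
  have e1 : ∀ n : ℕ, Real.exp (-(T ^ 2 * (u - Real.log n) ^ 2 / 2) / 2) *
      (al n * Real.exp (-(T ^ 2 * (u - Real.log n) ^ 2 / 2) / 2)) = al n * lw T u n := by
    intro n
    rw [← e0 n]
    ring
  simp only [e1, mul_pow, e0] at h1
  refine h1.trans (mul_le_mul_of_nonneg_right (w_sum hT hu A hA) ?_)
  exact Finset.sum_nonneg fun n _ => mul_nonneg (sq_nonneg _) (lw_pos _ _ _).le

lemma int_sq_le {T a b : ℝ} (hT : 0 < T) (hab : a ≤ b) (hu : Real.exp b ≤ 8 * T) (A : Finset ℕ)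
    (hA : ∀ n ∈ A, 1 ≤ n ∧ (n : ℝ) ≤ 8 * T) :
    ∫ u in a..b, (∑ n ∈ A, al n * lw T u n) ^ 2 ≤
      384 * WZ * ((∑ n ∈ A, al n ^ 2) * (Real.sqrt (2 * Real.pi) / T)) := by
  have hc : ∀ n : ℕ, Continuous fun u => lw T u n := lw_cont T
  have c1 : Continuous fun u => (∑ n ∈ A, al n * lw T u n) ^ 2 :=
    (continuous_finsetSum _ fun n _ => continuous_const.mul (hc n)).pow 2
  have c2 : Continuous fun u => 384 * WZ * ∑ n ∈ A, al n ^ 2 * lw T u n :=
    continuous_const.mul (continuous_finsetSum _ fun n _ => continuous_const.mul (hc n))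
  have hW := WZ_nonneg
  have i2 : Integrable fun u => ∑ n ∈ A, al n ^ 2 * lw T u n :=
    integrable_finsetSum _ fun n _ => (lw_int hT n).1.const_mul _
  calc ∫ u in a..b, (∑ n ∈ A, al n * lw T u n) ^ 2 ≤
        ∫ u in a..b, 384 * WZ * ∑ n ∈ A, al n ^ 2 * lw T u n := by
        refine intervalIntegral.integral_mono_on hab (c1.intervalIntegrable _ _)
          (c2.intervalIntegrable _ _) fun u hu' => sq_sum_le hT ?_ A hA
        exact (Real.exp_le_exp.2 hu'.2).trans hu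
    _ = 384 * WZ * ∫ u in a..b, ∑ n ∈ A, al n ^ 2 * lw T u n :=
        intervalIntegral.integral_const_mul _ _
    _ ≤ 384 * WZ * ∫ u, ∑ n ∈ A, al n ^ 2 * lw T u n := by
        apply mul_le_mul_of_nonneg_left _ (by positivity)
        rw [intervalIntegral.integral_of_le hab]
        refine setIntegral_le_integral i2 (ae_of_all _ fun u => ?_)
        exact Finset.sum_nonneg fun n _ => mul_nonneg (sq_nonneg _) (lw_pos _ _ _).le
    _ = _ := by
        rw [integral_finsetSum _ fun n _ => (lw_int hT n).1.const_mul _]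
        congr 1
        rw [Finset.sum_mul]
        refine Finset.sum_congr rfl fun n _ => ?_
        rw [integral_const_mul, (lw_int hT n).2]

/-! ### Mertens -/

lemma mertens_win {N₁ N₂ : ℕ} (h1 : 1 ≤ N₁) (h12 : N₁ ≤ N₂) :
    ∑ n ∈ Finset.Ioc N₁ N₂, vonMangoldt n / n ≤ Real.log N₂ - Real.log N₁ + 7 := by
  have h2 := H370.nt_mertens_upper N₂ (h1.trans h12)
  have h3 := H370.nt_mertens_lower N₁ h1
  have h4 : ∑ n ∈ Finset.Icc 1 N₂, vonMangoldt n / (n : ℝ) =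
      ∑ n ∈ Finset.Icc 1 N₁, vonMangoldt n / (n : ℝ) +
      ∑ n ∈ Finset.Ioc N₁ N₂, vonMangoldt n / (n : ℝ) := by
    have e1 : ∀ N : ℕ, Finset.Icc 1 N = Finset.Ioc 0 N := fun N => rfl
    rw [e1, e1]
    exact (Finset.sum_Ioc_consecutive _ (Nat.zero_le _) h12).symm
  linarith

lemma al_sq {n : ℕ} (hn : 1 ≤ n) : al n ^ 2 ≤ Real.log n * (vonMangoldt n / n) := by
  have hn0 : (0 : ℝ) < n := by exact_mod_cast hn
  unfold al
  rw [mul_pow, inv_pow, Real.sq_sqrt hn0.le]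
  have h1 := vonMangoldt_nonneg (n := n)
  have h2 := vonMangoldt_le_log (n := n)
  calc vonMangoldt n ^ 2 * (n : ℝ)⁻¹ = vonMangoldt n * (vonMangoldt n * (n : ℝ)⁻¹) := by ring
    _ ≤ Real.log n * (vonMangoldt n * (n : ℝ)⁻¹) := by gcongr
    _ = _ := by rw [div_eq_mul_inv]

end Pool.Agent.NH10.GM
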