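import Pool.Agent.NH10.GM.Kern

/-! # The pairings with the tents: limits -/

set_option autoImplicit false
set_option maxHeartbeats 4000000

open MeasureTheory Set Filter Topology

namespace Pool.Agent.NH10.GM

open Pool.Agent.Y749.Rig Pool.Agent.NH10.SM

/-- the conjectured value -/
noncomputable def PG (h : ℝ) : ℝ := if h ≤ 1 then h + h ^ 3 / 3 else h ^ 2 + 1 / 3

lemma PG_le {h : ℝ} (hh : h ≤ 1) : PG h = h + h ^ 3 / 3 := by unfold PG; rw [if_pos hh]

lemma PG_ge {h : ℝ} (hh : 1 ≤ h) : PG h = h ^ 2 + 1 / 3 := by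
  unfold PG
  split_ifs with h1
  · have : h = 1 := le_antisymm h1 hh
    rw [this]; norm_num
  · rfl

lemma PG_cont : Continuous PG := by
  unfold PG
  refine Continuous.if_le (f := fun h : ℝ => h) (by fun_prop) (by fun_prop) continuous_id
    continuous_const ?_
  intro x hx
  have hx' : x = 1 := hx
  rw [hx']; norm_num

lemma cc_tr (RH : RiemannHypothesis) {K : ℝ} (hK : 0 < K) (hK1 : K < 1) :
    K ^ 2 * cc (tr K) = K + K ^ 3 / 3 := by
  have h1 := Fr_lim (tr_int hK) (fl_qd (adm_tr hK)) le_rfl (test_limRH RH (adm_tr hK) hK hK1)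
  have h2 := h1.const_mul (K ^ 2)
  have h3 := tn_mont RH hK hK1
  refine tendsto_nhds_unique (h2.congr fun T => ?_) h3
  exact (tn_tr hK).symm

lemma PT_mont (RH : RiemannHypothesis) {h : ℝ} (hh : 0 < h) (h1 : h < 1) :
    Tendsto (fun T => PT T h) atTop (𝓝 (PG h)) := by
  rw [PG_le h1.le, ← cc_tr RH hh h1]
  have h2 := (test_limRH RH (adm_tr hh) hh h1).const_mul (h ^ 2)
  refine h2.congr fun T => ?_
  unfold PT Kt
  rw [integral_const_mul]

lemma PT_bdd {h : ℝ} (hh : 0 < h) : ∃ C : ℝ, 0 < C ∧ ∀ᶠ T in atTop, PT T h ≤ C := by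
  obtain ⟨C, hC, hB⟩ := Mp_bdd
  have hC0 : 0 ≤ C := by linarith
  have hD := DD_nonneg 0
  obtain ⟨B, hB'⟩ := Kt_qd hh
  have hB0 : 0 ≤ B := by
    have := (abs_nonneg _).trans (hB' 0)
    simpa using this
  refine ⟨B * (2 * C * DD 0) + 1, by positivity, ?_⟩
  filter_upwards [hB] with T hT
  have h1 : PT T h ≤ ∫ x, B * (1 / (1 + x ^ 2)) ∂(Mp T) := by
    unfold PT
    refine integral_mono (Bdd.integrable hC0 hT (Kt_cont hh) (Kt_qd hh))
      ((inv_int hC0 hT).const_mul B) fun x => ?_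
    have h2 := (le_abs_self _).trans (hB' x)
    show Kt h x ≤ B * (1 / (1 + x ^ 2))
    rwa [mul_one_div]
  rw [integral_const_mul] at h1
  have h2 := inv_le hC0 hT
  have h3 : B * ∫ x, 1 / (1 + x ^ 2) ∂(Mp T) ≤ B * (2 * C * DD 0) :=
    mul_le_mul_of_nonneg_left h2 hB0
  linarith

lemma PT_diag {h : ℝ} (hh : 0 < h) {ε : ℝ} (hε : 0 < ε) :
    ∀ᶠ T in atTop, h ^ 2 * (1 - ε) ≤ PT T h := by
  obtain ⟨C, hC, hB⟩ := Mp_bdd
  have hC0 : 0 ≤ C := by linarith
  filter_upwards [hB, Mp_zero hε] with T hT h0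
  have hfin := Mp_fin T
  have e : h ^ 2 * (Mp T).real {0} = ∫ x in ({0} : Set ℝ), Kt h x ∂(Mp T) := by
    rw [integral_singleton, Kt_zero hh, smul_eq_mul]
    ring
  have h1 : ∫ x in ({0} : Set ℝ), Kt h x ∂(Mp T) ≤ PT T h :=
    setIntegral_le_integral (Bdd.integrable hC0 hT (Kt_cont hh) (Kt_qd hh))
      (ae_of_all _ fun x => Kt_nonneg hh x)
  rw [← e] at h1
  exact (mul_le_mul_of_nonneg_left h0 (sq_nonneg h)).trans h1

/-- the integral of the tent against the conjectured form factor -/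
lemma PG_int {h : ℝ} (hh : 0 < h) : h + ∫ α, max 0 (h - |α|) * mn α = PG h := by
  have hc : Continuous fun α => max 0 (h - |α|) * mn α := by
    have := mn_cont
    fun_prop
  have e1 : ∫ α, max 0 (h - |α|) * mn α = ∫ α in (-h)..h, max 0 (h - |α|) * mn α := by
    rw [int_supp hh fun x hx => ?_]
    rw [max_eq_left (by linarith), zero_mul]
  have e2 : ∫ α in (-h)..h, max 0 (h - |α|) * mn α = 2 * ∫ α in (0 : ℝ)..h, (h - α) * mn α := by
    rw [← intervalIntegral.integral_add_adjacent_intervals (b := 0) (hc.intervalIntegrable _ _)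
      (hc.intervalIntegrable _ _)]
    have h5 : ∫ α in (-h)..0, max 0 (h - |α|) * mn α =
        ∫ α in (0 : ℝ)..h, max 0 (h - |α|) * mn α := by
      have := intervalIntegral.integral_comp_neg (a := (0 : ℝ)) (b := h)
        (fun α => max 0 (h - |α|) * mn α)
      rw [neg_zero] at this
      rw [← this]
      refine intervalIntegral.integral_congr fun α _ => ?_
      show max 0 (h - |-α|) * mn (-α) = max 0 (h - |α|) * mn α
      rw [abs_neg, mn_even]
    have h6 : ∫ α in (0 : ℝ)..h, max 0 (h - |α|) * mn α = ∫ α in (0 : ℝ)..h, (h - α) * mn α := by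
      refine intervalIntegral.integral_congr fun α hα => ?_
      rw [uIcc_of_le hh.le] at hα
      show max 0 (h - |α|) * mn α = (h - α) * mn α
      rw [abs_of_nonneg hα.1, max_eq_right (by linarith [hα.2])]
    rw [h5, h6]
    ring
  rw [e1, e2]
  have hi : ∀ {g : ℝ → ℝ}, Continuous g → ∀ p q : ℝ, IntervalIntegrable g volume p q :=
    fun hg p q => hg.intervalIntegrable p q
  rcases le_or_gt h 1 with h1 | h1
  · have e3 : ∫ α in (0 : ℝ)..h, (h - α) * mn α = ∫ α in (0 : ℝ)..h, (h * α - α ^ 2) := by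
      refine intervalIntegral.integral_congr fun α hα => ?_
      rw [uIcc_of_le hh.le] at hα
      show (h - α) * mn α = h * α - α ^ 2
      unfold mn
      rw [abs_of_nonneg hα.1, min_eq_left (hα.2.trans h1)]
      ring
    rw [e3, intervalIntegral.integral_sub (hi (by fun_prop) _ _) (hi (by fun_prop) _ _),
      intervalIntegral.integral_const_mul, integral_id, integral_pow, PG_le h1]
    norm_num
    ring
  · have hc2 : Continuous fun α => (h - α) * mn α := by
      have := mn_cont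
      fun_prop
    rw [← intervalIntegral.integral_add_adjacent_intervals (b := 1) (hi hc2 _ _) (hi hc2 _ _)]
    have e3 : ∫ α in (0 : ℝ)..1, (h - α) * mn α = ∫ α in (0 : ℝ)..1, (h * α - α ^ 2) := by
      refine intervalIntegral.integral_congr fun α hα => ?_
      rw [uIcc_of_le zero_le_one] at hα
      show (h - α) * mn α = h * α - α ^ 2
      unfold mn
      rw [abs_of_nonneg hα.1, min_eq_left hα.2]
      ring
    have e4 : ∫ α in (1 : ℝ)..h, (h - α) * mn α = ∫ α in (1 : ℝ)..h, (h - α) := by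
      refine intervalIntegral.integral_congr fun α hα => ?_
      rw [uIcc_of_le h1.le] at hα
      show (h - α) * mn α = h - α
      unfold mn
      rw [abs_of_nonneg (by linarith [hα.1]), min_eq_right hα.1, mul_one]
    rw [e3, e4, intervalIntegral.integral_sub (hi (by fun_prop) _ _) (hi (by fun_prop) _ _),
      intervalIntegral.integral_const_mul, integral_id, integral_pow,
      intervalIntegral.integral_sub (by simp) (by simp), intervalIntegral.integral_const,
      integral_id, PG_ge h1.le, smul_eq_mul]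
    norm_num
    ring

variable {l : Filter ℝ}

lemma PT_weak (hw : Weak l) {h : ℝ} (hh : 0 < h) : Tendsto (fun T => PT T h) l (𝓝 (PG h)) := by
  have h1 := (hw _ (fl_cont (tr_int hh)) (fl_qd (adm_tr hh))).const_mul (h ^ 2)
  rw [gue2 (adm_tr hh)] at h1
  have e1 : h ^ 2 * (tr h 0 + ∫ α, mn α * tr h α) = PG h := by
    rw [← PG_int hh, mul_add, tent_eq hh 0, ← integral_const_mul]
    congr 1
    · rw [abs_zero, sub_zero, max_eq_right hh.le]
    · refine integral_congr_ae (ae_of_all _ fun α => ?_)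
      simp only
      rw [← tent_eq hh]
      ring
  rw [e1] at h1
  refine h1.congr fun T => ?_
  unfold PT Kt
  rw [integral_const_mul]

/-- the integrals against the tents -/
noncomputable def Jt (D : ℝ → ℝ) (y : ℝ) : ℝ := 2 * ∫ α in (0 : ℝ)..y, (y - α) * D α

lemma jt_diff {D : ℝ → ℝ} (hc : Continuous D) (h0 : ∀ α, 0 ≤ D α) {x y : ℝ} (hx : 0 ≤ x)
    (hxy : x ≤ y) : 2 * (y - x) * (∫ α in (0 : ℝ)..x, D α) ≤ Jt D y - Jt D x ∧
    Jt D y - Jt D x ≤ 2 * (y - x) * ∫ α in (0 : ℝ)..y, D α := by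
  have hci : ∀ {g : ℝ → ℝ}, Continuous g → ∀ p q : ℝ, IntervalIntegrable g volume p q :=
    fun hg p q => hg.intervalIntegrable p q
  have c1 : Continuous fun α => (y - α) * D α := by fun_prop
  have c2 : Continuous fun α => (x - α) * D α := by fun_prop
  have e1 : ∫ α in (0 : ℝ)..y, (y - α) * D α = (∫ α in (0 : ℝ)..x, (y - α) * D α) +
      ∫ α in x..y, (y - α) * D α :=
    (intervalIntegral.integral_add_adjacent_intervals (hci c1 _ _) (hci c1 _ _)).symm
  have e2 : (∫ α in (0 : ℝ)..x, (y - α) * D α) - ∫ α in (0 : ℝ)..x, (x - α) * D α =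
      (y - x) * ∫ α in (0 : ℝ)..x, D α := by
    rw [← intervalIntegral.integral_sub (hci c1 _ _) (hci c2 _ _),
      ← intervalIntegral.integral_const_mul]
    refine intervalIntegral.integral_congr fun α _ => ?_
    ring
  have e3 : Jt D y - Jt D x = 2 * ((y - x) * ∫ α in (0 : ℝ)..x, D α) +
      2 * ∫ α in x..y, (y - α) * D α := by
    unfold Jt
    rw [← e2, e1]
    ring
  have h1 : 0 ≤ ∫ α in x..y, (y - α) * D α :=
    intervalIntegral.integral_nonneg hxy fun α hα => mul_nonneg (by linarith [hα.2]) (h0 α)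
  have h2 : ∫ α in x..y, (y - α) * D α ≤ (y - x) * ∫ α in x..y, D α := by
    rw [← intervalIntegral.integral_const_mul]
    refine intervalIntegral.integral_mono_on hxy (hci c1 _ _)
      (hci (continuous_const.mul hc) _ _) fun α hα => ?_
    exact mul_le_mul_of_nonneg_right (by linarith [hα.1]) (h0 α)
  have e4 : (∫ α in (0 : ℝ)..x, D α) + ∫ α in x..y, D α = ∫ α in (0 : ℝ)..y, D α :=
    intervalIntegral.integral_add_adjacent_intervals (hci hc _ _) (hci hc _ _)
  constructor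
  · rw [e3]
    linarith
  · rw [e3, ← e4]
    linarith

lemma Jt_mono {D : ℝ → ℝ} (hc : Continuous D) (h0 : ∀ α, 0 ≤ D α) {x y : ℝ} (hx : 0 ≤ x)
    (hxy : x ≤ y) : Jt D x ≤ Jt D y := by
  have h1 := (jt_diff hc h0 hx hxy).1
  have h2 : 0 ≤ ∫ α in (0 : ℝ)..x, D α := intervalIntegral.integral_nonneg hx fun α _ => h0 α
  have h3 : 0 ≤ 2 * (y - x) * ∫ α in (0 : ℝ)..x, D α := mul_nonneg (by linarith) h2
  linarith

lemma tent_Jt {D : ℝ → ℝ} (hc : Continuous D) (he : ∀ α, D (-α) = D α) {h : ℝ} (hh : 0 < h) :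
    ∫ α, max 0 (h - |α|) * D α = Jt D h := by
  have hc' : Continuous fun α => max 0 (h - |α|) * D α := by fun_prop
  have e1 : ∫ α, max 0 (h - |α|) * D α = ∫ α in (-h)..h, max 0 (h - |α|) * D α := by
    rw [int_supp hh fun x hx => ?_]
    rw [max_eq_left (by linarith), zero_mul]
  rw [e1, ← intervalIntegral.integral_add_adjacent_intervals (b := 0)
    (hc'.intervalIntegrable _ _) (hc'.intervalIntegrable _ _)]
  have h5 : ∫ α in (-h)..0, max 0 (h - |α|) * D α =
      ∫ α in (0 : ℝ)..h, max 0 (h - |α|) * D α := by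
    have := intervalIntegral.integral_comp_neg (a := (0 : ℝ)) (b := h)
      (fun α => max 0 (h - |α|) * D α)
    rw [neg_zero] at this
    rw [← this]
    refine intervalIntegral.integral_congr fun α _ => ?_
    show max 0 (h - |-α|) * D (-α) = max 0 (h - |α|) * D α
    rw [abs_neg, he]
  have h6 : ∫ α in (0 : ℝ)..h, max 0 (h - |α|) * D α = ∫ α in (0 : ℝ)..h, (h - α) * D α := by
    refine intervalIntegral.integral_congr fun α hα => ?_
    rw [uIcc_of_le hh.le] at hα
    show max 0 (h - |α|) * D α = (h - α) * D α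
    rw [abs_of_nonneg hα.1, max_eq_right (by linarith [hα.2])]
  rw [h5, h6]
  unfold Jt
  ring

lemma PG_Jt {h : ℝ} (hh : 0 < h) : PG h = h + Jt mn h := by
  rw [← PG_int hh, tent_Jt mn_cont mn_even hh]

lemma PG_diff {x y : ℝ} (hx : 0 < x) (hxy : x ≤ y) :
    (y - x) * (1 + 2 * ∫ α in (0 : ℝ)..x, mn α) ≤ PG y - PG x ∧
    PG y - PG x ≤ (y - x) * (1 + 2 * ∫ α in (0 : ℝ)..y, mn α) := by
  rw [PG_Jt hx, PG_Jt (hx.trans_le hxy)]
  obtain ⟨h1, h2⟩ := jt_diff mn_cont mn_nonneg hx.le hxy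
  constructor <;> nlinarith

lemma PG_pos {h : ℝ} (hh : 0 < h) : 0 < PG h := by
  rcases le_or_gt h 1 with h1 | h1
  · rw [PG_le h1]; positivity
  · rw [PG_ge h1.le]; positivity

lemma PG_mono {x y : ℝ} (hx : 0 < x) (hxy : x ≤ y) : PG x ≤ PG y := by
  have h1 := (PG_diff hx hxy).1
  have h2 : 0 ≤ ∫ α in (0 : ℝ)..x, mn α :=
    intervalIntegral.integral_nonneg hx.le fun α _ => mn_nonneg α
  have h3 : 0 ≤ (y - x) * (1 + 2 * ∫ α in (0 : ℝ)..x, mn α) :=
    mul_nonneg (by linarith) (by linarith)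
  linarith

lemma mn_win {a b : ℝ} (hab : a ≤ b) : ∫ α in a..b, mn α ≤ b - a := by
  calc ∫ α in a..b, mn α ≤ ∫ α in a..b, (1 : ℝ) :=
        intervalIntegral.integral_mono_on hab (mn_cont.intervalIntegrable _ _) (by simp)
          fun α _ => mn_le α
    _ = b - a := by simp

lemma win_eq {D : ℝ → ℝ} (hc : Continuous D) (a b : ℝ) : ∫ α in a..b, D α =
    (∫ α in (0 : ℝ)..b, D α) - ∫ α in (0 : ℝ)..a, D α :=
  (intervalIntegral.integral_interval_sub_left (hc.intervalIntegrable _ _)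
    (hc.intervalIntegrable _ _)).symm

/-- from the tents to the windows -/
theorem win_lim {D : ℝ → ℝ → ℝ} {c : ℝ} (hc0 : 0 < c) (hDc : ∀ᶠ T in l, Continuous (D T))
    (hD0 : ∀ᶠ T in l, ∀ α, 0 ≤ D T α)
    (h : ∀ y : ℝ, 0 < y → Tendsto (fun T => Jt (D T) y) l (𝓝 (c * PG y))) {a b : ℝ} (ha : 0 < a)
    (hab : a < b) : Tendsto (fun T => ∫ α in a..b, D T α) l (𝓝 (c * ∫ α in a..b, mn α)) := by
  rw [Metric.tendsto_nhds]
  intro ε hε
  obtain ⟨δ, hδ⟩ : ∃ δ : ℝ, δ = min (a / 2) (min ((b - a) / 2) (ε / (8 * c))) := ⟨_, rfl⟩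
  have hδ0 : 0 < δ := by
    rw [hδ]
    exact lt_min (by positivity) (lt_min (by linarith) (by positivity))
  have hδ1 : δ ≤ a / 2 := by rw [hδ]; exact min_le_left _ _
  have hδ2 : δ ≤ (b - a) / 2 := by rw [hδ]; exact (min_le_right _ _).trans (min_le_left _ _)
  have hδ3 : δ ≤ ε / (8 * c) := by rw [hδ]; exact (min_le_right _ _).trans (min_le_right _ _)
  have hδ4 : 8 * (c * δ) ≤ ε := by
    rw [le_div_iff₀ (by positivity)] at hδ3
    linarith
  obtain ⟨e, he⟩ : ∃ e : ℝ, e = δ * ε / 4 := ⟨_, rfl⟩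
  have he0 : 0 < e := by rw [he]; positivity
  have lim : ∀ y : ℝ, 0 < y → ∀ᶠ T in l, |Jt (D T) y - c * PG y| < e := by
    intro y hy
    filter_upwards [(Metric.tendsto_nhds.1 (h y hy)) e he0] with T hT
    rwa [Real.dist_eq] at hT
  have mw : ∀ x y : ℝ, (∫ α in (0 : ℝ)..y, mn α) - ∫ α in (0 : ℝ)..x, mn α = ∫ α in x..y, mn α :=
    fun x y => (win_eq mn_cont x y).symm
  filter_upwards [lim (b + δ) (by linarith), lim b (by linarith), lim a ha,
    lim (a - δ) (by linarith), lim (b - δ) (by linarith), lim (a + δ) (by linarith), hDc, hD0]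
    with T t1 t2 t3 t4 t5 t6 hc hp
  rw [Real.dist_eq, win_eq hc, win_eq mn_cont]
  have k1 := (jt_diff hc hp (show 0 ≤ b by linarith) (show b ≤ b + δ by linarith)).1
  have k2 := (jt_diff hc hp (show 0 ≤ a - δ by linarith) (show a - δ ≤ a by linarith)).2
  have k3 := (jt_diff hc hp (show 0 ≤ b - δ by linarith) (show b - δ ≤ b by linarith)).2
  have k4 := (jt_diff hc hp ha.le (show a ≤ a + δ by linarith)).1
  have g1 := (PG_diff (show 0 < b by linarith) (show b ≤ b + δ by linarith)).2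
  have g2 := (PG_diff (show 0 < a - δ by linarith) (show a - δ ≤ a by linarith)).1
  have g3 := (PG_diff (show 0 < b - δ by linarith) (show b - δ ≤ b by linarith)).1
  have g4 := (PG_diff ha (show a ≤ a + δ by linarith)).2
  have w1 := mw b (b + δ)
  have w2 := mw (a - δ) a
  have w3 := mw (b - δ) b
  have w4 := mw a (a + δ)
  have v1 := mn_win (show b ≤ b + δ by linarith)
  have v2 := mn_win (show a - δ ≤ a by linarith)
  have v3 := mn_win (show b - δ ≤ b by linarith)
  have v4 := mn_win (show a ≤ a + δ by linarith)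
  have t1' := abs_lt.1 t1
  have t2' := abs_lt.1 t2
  have t3' := abs_lt.1 t3
  have t4' := abs_lt.1 t4
  have t5' := abs_lt.1 t5
  have t6' := abs_lt.1 t6
  obtain ⟨A, hA⟩ : ∃ A : ℝ, A = ∫ α in (0 : ℝ)..a, D T α := ⟨_, rfl⟩
  obtain ⟨B, hB⟩ : ∃ B : ℝ, B = ∫ α in (0 : ℝ)..b, D T α := ⟨_, rfl⟩
  obtain ⟨Ma, hMa⟩ : ∃ Ma : ℝ, Ma = ∫ α in (0 : ℝ)..a, mn α := ⟨_, rfl⟩
  obtain ⟨Mb, hMb⟩ : ∃ Mb : ℝ, Mb = ∫ α in (0 : ℝ)..b, mn α := ⟨_, rfl⟩
  rw [← hA, ← hB, ← hMa, ← hMb]
  rw [← hB] at k1 k3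
  rw [← hA] at k2 k4
  rw [← hMb] at w1 w3
  rw [← hMa] at w2 w4
  have s1 : b + δ - b = δ := by ring
  have s2 : a - (a - δ) = δ := by ring
  have s3 : b - (b - δ) = δ := by ring
  have s4 : a + δ - a = δ := by ring
  rw [s1] at k1 g1 v1
  rw [s2] at k2 g2 v2
  rw [s3] at k3 g3 v3
  rw [s4] at k4 g4 v4
  -- bounds for the increments of PG in terms of Ma, Mb
  have p1 : PG (b + δ) - PG b ≤ δ * (1 + 2 * (Mb + δ)) := by
    refine g1.trans (mul_le_mul_of_nonneg_left ?_ hδ0.le)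
    linarith
  have p2 : δ * (1 + 2 * (Ma - δ)) ≤ PG a - PG (a - δ) := by
    refine le_trans (mul_le_mul_of_nonneg_left ?_ hδ0.le) g2
    linarith
  have p3 : δ * (1 + 2 * (Mb - δ)) ≤ PG b - PG (b - δ) := by
    refine le_trans (mul_le_mul_of_nonneg_left ?_ hδ0.le) g3
    linarith
  have p4 : PG (a + δ) - PG a ≤ δ * (1 + 2 * (Ma + δ)) := by
    refine g4.trans (mul_le_mul_of_nonneg_left ?_ hδ0.le)
    linarith
  have q1 := mul_le_mul_of_nonneg_left p1 hc0.le
  have q2 := mul_le_mul_of_nonneg_left p2 hc0.le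
  have q3 := mul_le_mul_of_nonneg_left p3 hc0.le
  have q4 := mul_le_mul_of_nonneg_left p4 hc0.le
  have r1 : 2 * δ * (B - A) ≤ 2 * δ * (c * (Mb - Ma)) + 4 * (c * δ) * δ + 4 * e := by
    linarith only [q1, q2, k1, k2, t1'.1, t1'.2, t2'.1, t2'.2, t3'.1, t3'.2, t4'.1, t4'.2]
  have r2 : 2 * δ * (c * (Mb - Ma)) - 4 * (c * δ) * δ - 4 * e ≤ 2 * δ * (B - A) := by
    linarith only [q3, q4, k3, k4, t2'.1, t2'.2, t3'.1, t3'.2, t5'.1, t5'.2, t6'.1, t6'.2]
  have r4 := mul_le_mul_of_nonneg_left hδ4 hδ0.le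
  have r3 : 4 * (c * δ) * δ + 4 * e ≤ 2 * δ * (3 * ε / 4) := by
    rw [he]
    linarith only [r4]
  have hδ20 : 0 < 2 * δ := by positivity
  have u1 : B - A ≤ c * (Mb - Ma) + 3 * ε / 4 := by
    refine le_of_mul_le_mul_left ?_ hδ20
    linarith only [r1, r3]
  have u2 : c * (Mb - Ma) - 3 * ε / 4 ≤ B - A := by
    refine le_of_mul_le_mul_left ?_ hδ20
    linarith only [r2, r3]
  rw [abs_lt]
  constructor <;> linarith

/-- the tents decide the conjecture -/
theorem mean_of_PT (hl : l ≤ atTop) (h : ∀ y : ℝ, 0 < y → Tendsto (fun T => PT T y) l (𝓝 (PG y)))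
    (R : ℝ) : MeanUp l R := by
  intro a b ha hab _ ε hε
  have htn : ∀ y : ℝ, 0 < y → Tendsto (fun T => Jt (Fr T) y) l (𝓝 (1 * PG y)) := by
    intro y hy
    rw [one_mul]
    have h1 : Tendsto (fun T => ∫ x, fl (tr y) x ∂(Mp T)) l (𝓝 (PG y / y ^ 2)) := by
      refine ((h y hy).div_const (y ^ 2)).congr fun T => ?_
      unfold PT Kt
      rw [integral_const_mul]
      field_simp
    have h2 := (Fr_lim (tr_int hy) (fl_qd (adm_tr hy)) hl h1).const_mul (y ^ 2)
    have e : y ^ 2 * (PG y / y ^ 2) = PG y := by field_simp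
    rw [e] at h2
    refine h2.congr fun T => ?_
    exact (tn_tr hy).symm
  have hw := win_lim one_pos (Eventually.of_forall fun T => Fr_cont T)
    (hl ((eventually_ge_atTop 10).mono fun T hT α => Fr_nonneg hT α)) htn ha hab
  rw [one_mul] at hw
  exact hw.eventually (ge_mem_nhds (by linarith))

end Pool.Agent.NH10.GM
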