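import Pool.Agent.NH10.GM.PT

/-! # The rigidity: one-sided bounds for the windows determine the tents -/

set_option autoImplicit false
set_option maxHeartbeats 4000000

open MeasureTheory Set Filter Topology

namespace Pool.Agent.NH10.GM

open Pool.Agent.Y749.Rig

lemma lin_int (A c x y : ℝ) : ∫ t in x..y, (A + c * t) = (y - x) * A + c * (y ^ 2 - x ^ 2) / 2 := by
  have h1 : IntervalIntegrable (fun _ : ℝ => A) volume x y := by simp
  have h2 : IntervalIntegrable (fun t : ℝ => c * t) volume x y :=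
    (by fun_prop : Continuous fun t : ℝ => c * t).intervalIntegrable _ _
  rw [intervalIntegral.integral_add h1 h2, intervalIntegral.integral_const,
    intervalIntegral.integral_const_mul, integral_id, smul_eq_mul]
  ring

/-- the tents are the double primitives -/
lemma Jt_int {D : ℝ → ℝ} (hc : Continuous D) (x y : ℝ) :
    Jt D y - Jt D x = 2 * ∫ t in x..y, ∫ α in (0 : ℝ)..t, D α := by
  have hG : ∀ t : ℝ, HasDerivAt (fun t => ∫ α in (0 : ℝ)..t, D α) (D t) t := fun t =>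
    intervalIntegral.integral_hasDerivAt_right (hc.intervalIntegrable _ _)
      hc.aestronglyMeasurable.stronglyMeasurableAtFilter hc.continuousAt
  have hc2 : Continuous fun α => α * D α := continuous_id.mul hc
  have hH : ∀ t : ℝ, HasDerivAt (fun t => ∫ α in (0 : ℝ)..t, α * D α) (t * D t) t := fun t =>
    intervalIntegral.integral_hasDerivAt_right (hc2.intervalIntegrable _ _)
      hc2.aestronglyMeasurable.stronglyMeasurableAtFilter hc2.continuousAt
  have e1 : ∀ t : ℝ, Jt D t = 2 * (t * (∫ α in (0 : ℝ)..t, D α) -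
      ∫ α in (0 : ℝ)..t, α * D α) := by
    intro t
    have i1 : IntervalIntegrable (fun α => t * D α) volume 0 t :=
      (by fun_prop : Continuous fun α => t * D α).intervalIntegrable _ _
    have i2 : IntervalIntegrable (fun α => α * D α) volume 0 t := hc2.intervalIntegrable _ _
    have i3 : ∫ α in (0 : ℝ)..t, (t - α) * D α = ∫ α in (0 : ℝ)..t, (t * D α - α * D α) := by
      refine intervalIntegral.integral_congr fun α _ => ?_
      ring
    unfold Jt
    rw [i3, intervalIntegral.integral_sub i1 i2, intervalIntegral.integral_const_mul]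
  have h1 : ∀ t : ℝ, HasDerivAt (fun t => Jt D t) (2 * ∫ α in (0 : ℝ)..t, D α) t := by
    intro t
    have h2 := (((hasDerivAt_id t).fun_mul (hG t)).fun_sub (hH t)).const_mul 2
    have h3 : (fun t => Jt D t) = fun t => 2 * (id t * (∫ α in (0 : ℝ)..t, D α) -
      ∫ α in (0 : ℝ)..t, α * D α) := by
      funext t
      exact e1 t
    rw [h3]
    refine h2.congr_deriv ?_
    simp only [id]
    ring
  have h2 : Continuous fun t => 2 * ∫ α in (0 : ℝ)..t, D α :=
    continuous_const.mul (continuous_iff_continuousAt.2 fun t => (hG t).continuousAt)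
  have h3 := intervalIntegral.integral_eq_sub_of_hasDerivAt (a := x) (b := y)
    (fun t _ => h1 t) (h2.intervalIntegrable _ _)
  rw [← h3, intervalIntegral.integral_const_mul]

variable {D : ℝ → ℝ → ℝ} {c : ℝ}

/-- the windows, uniformly -/
lemma unif_win (hc : 0 < c) (hDc : ∀ᶠ T in atTop, Continuous (D T))
    (hD0 : ∀ᶠ T in atTop, ∀ α, 0 ≤ D T α)
    (h : ∀ a b : ℝ, 1 ≤ a → a < b → ∀ ε : ℝ, 0 < ε → ∀ᶠ T in atTop,
      ∫ α in a..b, D T α ≤ c * (b - a) + ε) (R : ℝ) {ε : ℝ} (hε : 0 < ε) :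
    ∀ᶠ T in atTop, ∀ x y : ℝ, 1 ≤ x → x ≤ y → y ≤ R → ∫ α in x..y, D T α ≤ c * (y - x) + ε := by
  obtain ⟨ρ, hρ⟩ : ∃ ρ : ℝ, ρ = ε / (4 * c) := ⟨_, rfl⟩
  have hρ0 : 0 < ρ := by rw [hρ]; positivity
  have hρ1 : 2 * (c * ρ) = ε / 2 := by
    rw [hρ]
    field_simp
    norm_num
  obtain ⟨N, hN⟩ : ∃ N : ℕ, N = ⌊(R - 1) / ρ⌋₊ + 2 := ⟨_, rfl⟩
  have h1 : ∀ᶠ T in atTop, ∀ p ∈ Finset.range N ×ˢ Finset.range N, p.1 < p.2 →
      ∫ α in (1 + p.1 * ρ)..(1 + p.2 * ρ), D T α ≤
        c * ((1 + p.2 * ρ) - (1 + p.1 * ρ)) + ε / 2 := by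
    rw [eventually_all_finset]
    intro p _
    by_cases hp : p.1 < p.2
    · filter_upwards [h (1 + p.1 * ρ) (1 + p.2 * ρ) (by
        have : (0 : ℝ) ≤ p.1 * ρ := by positivity
        linarith) (by
        have : (p.1 : ℝ) < p.2 := by exact_mod_cast hp
        nlinarith) (ε / 2) (by linarith)] with T hT _
      exact hT
    · exact Eventually.of_forall fun T hp' => absurd hp' hp
  filter_upwards [h1, hDc, hD0] with T hT hcT h0 x y hx hxy hyR
  obtain ⟨i, hi⟩ : ∃ i : ℕ, i = ⌊(x - 1) / ρ⌋₊ := ⟨_, rfl⟩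
  obtain ⟨j, hj⟩ : ∃ j : ℕ, j = ⌊(y - 1) / ρ⌋₊ + 1 := ⟨_, rfl⟩
  have hij : i < j := by
    rw [hi, hj]
    have : ⌊(x - 1) / ρ⌋₊ ≤ ⌊(y - 1) / ρ⌋₊ := Nat.floor_le_floor (by gcongr)
    omega
  have hjN : j < N := by
    rw [hj, hN]
    have : ⌊(y - 1) / ρ⌋₊ ≤ ⌊(R - 1) / ρ⌋₊ := Nat.floor_le_floor (by gcongr)
    omega
  have k1 := hT (i, j) (Finset.mem_product.2 ⟨Finset.mem_range.2 (hij.trans hjN),
    Finset.mem_range.2 hjN⟩) hij
  have i1 : (i : ℝ) * ρ ≤ x - 1 := by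
    rw [← le_div_iff₀ hρ0, hi]
    exact Nat.floor_le (div_nonneg (by linarith) hρ0.le)
  have i2 : x - 1 ≤ i * ρ + ρ := by
    have := (Nat.lt_floor_add_one ((x - 1) / ρ)).le
    rw [← hi, div_le_iff₀ hρ0] at this
    linarith
  have j1 : y - 1 ≤ (j : ℝ) * ρ := by
    have := (Nat.lt_floor_add_one ((y - 1) / ρ)).le
    rw [div_le_iff₀ hρ0] at this
    rw [hj]
    push_cast
    linarith
  have j2 : (j : ℝ) * ρ ≤ y - 1 + ρ := by
    have := Nat.floor_le (div_nonneg (show 0 ≤ y - 1 by linarith) hρ0.le)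
    rw [le_div_iff₀ hρ0] at this
    rw [hj]
    push_cast
    linarith
  have k2 : ∫ α in x..y, D T α ≤ ∫ α in (1 + i * ρ)..(1 + j * ρ), D T α := by
    refine intervalIntegral.integral_mono_interval (by linarith) hxy (by linarith)
      (ae_of_all _ h0) (hcT.intervalIntegrable _ _)
  refine k2.trans (k1.trans ?_)
  show c * ((1 + (j : ℝ) * ρ) - (1 + (i : ℝ) * ρ)) + ε / 2 ≤ c * (y - x) + ε
  nlinarith

/-- **rigidity** -/
theorem rigid (hc : 0 < c) (hDc : ∀ᶠ T in atTop, Continuous (D T))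
    (hD0 : ∀ᶠ T in atTop, ∀ α, 0 ≤ D T α)
    (R1 : ∀ h : ℝ, 0 < h → h < 1 → Tendsto (fun T => Jt (D T) h) atTop (𝓝 (c * PG h)))
    (R2 : ∀ h : ℝ, 0 < h → ∀ ε : ℝ, 0 < ε → ∀ᶠ T in atTop, c * h ^ 2 - ε ≤ Jt (D T) h)
    (R3 : ∀ a b : ℝ, 1 ≤ a → a < b → ∀ ε : ℝ, 0 < ε → ∀ᶠ T in atTop,
      ∫ α in a..b, D T α ≤ c * (b - a) + ε)
    (R4 : ∀ ε : ℝ, 0 < ε → ∃ δ : ℝ, 0 < δ ∧ δ < 1 ∧ ∀ᶠ T in atTop,
      ∫ α in (1 - δ)..1, D T α ≤ ε) {h : ℝ} (hh : 0 < h) :
    Tendsto (fun T => Jt (D T) h) atTop (𝓝 (c * PG h)) := by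
  -- the value of the primitive at one
  have A : ∀ ε : ℝ, 0 < ε → ∀ᶠ T in atTop, ∫ α in (0 : ℝ)..1, D T α ≤ c + ε := by
    intro ε hε
    obtain ⟨δ, hδ, hδ1, h4⟩ := R4 (ε / 2) (by linarith)
    have l1 := R1 (1 - δ) (by linarith) (by linarith)
    have l2 := R1 (1 - δ / 2) (by linarith) (by linarith)
    have l3 := l2.sub l1
    have b1 : c * PG (1 - δ / 2) - c * PG (1 - δ) < δ * (c + ε / 2) := by
      rw [PG_le (by linarith), PG_le (by linarith)]
      have e : c * (1 - δ / 2 + (1 - δ / 2) ^ 3 / 3) - c * (1 - δ + (1 - δ) ^ 3 / 3) =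
          c * (δ / 2) * (1 + ((1 - δ / 2) ^ 2 + (1 - δ / 2) * (1 - δ) + (1 - δ) ^ 2) / 3) := by
        ring
      rw [e]
      have b2 : (1 - δ / 2) ^ 2 + (1 - δ / 2) * (1 - δ) + (1 - δ) ^ 2 ≤ 3 := by nlinarith
      have b3 : 0 < c * (δ / 2) := by positivity
      nlinarith
    filter_upwards [l3.eventually (gt_mem_nhds b1), h4, hDc, hD0] with T t1 t2 hcT h0
    have k1 := (jt_diff hcT h0 (show 0 ≤ 1 - δ by linarith)
      (show 1 - δ ≤ 1 - δ / 2 by linarith)).1
    have k2 : (∫ α in (0 : ℝ)..(1 - δ), D T α) + ∫ α in (1 - δ)..1, D T α =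
        ∫ α in (0 : ℝ)..1, D T α :=
      intervalIntegral.integral_add_adjacent_intervals (hcT.intervalIntegrable _ _)
        (hcT.intervalIntegrable _ _)
    have k3 : δ * (∫ α in (0 : ℝ)..(1 - δ), D T α) < δ * (c + ε / 2) := by
      have : 2 * (1 - δ / 2 - (1 - δ)) = δ := by ring
      rw [this] at k1
      linarith
    have k4 := lt_of_mul_lt_mul_left k3 hδ.le
    linarith
  -- the value of the tent at one
  have B : Tendsto (fun T => Jt (D T) 1) atTop (𝓝 (c * PG 1)) := by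
    rw [Metric.tendsto_nhds]
    intro ε hε
    have h1 : ∀ᶠ x in 𝓝 (1 : ℝ), |c * PG x - c * PG 1| < ε / 4 := by
      have : ContinuousAt (fun x => c * PG x) 1 := (continuous_const.mul PG_cont).continuousAt
      filter_upwards [(Metric.tendsto_nhds.1 this) (ε / 4) (by linarith)] with x hx
      rwa [Real.dist_eq] at hx
    obtain ⟨η, hη, hb⟩ := Metric.eventually_nhds_iff.1 h1
    obtain ⟨δ, hδ⟩ : ∃ δ : ℝ, δ = min (η / 2) (min (1 / 2) (ε / (8 * (c + 1)))) := ⟨_, rfl⟩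
    have hδ0 : 0 < δ := by
      rw [hδ]
      exact lt_min (by positivity) (lt_min (by norm_num) (by positivity))
    have hδ1 : δ ≤ η / 2 := by rw [hδ]; exact min_le_left _ _
    have hδ2 : δ ≤ 1 / 2 := by rw [hδ]; exact (min_le_right _ _).trans (min_le_left _ _)
    have hδ3 : δ ≤ ε / (8 * (c + 1)) := by
      rw [hδ]; exact (min_le_right _ _).trans (min_le_right _ _)
    have hδ4 : 2 * δ * (c + 1) ≤ ε / 4 := by
      rw [le_div_iff₀ (by positivity)] at hδ3
      linarith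
    have hd := hb (y := 1 - δ) (by
      rw [Real.dist_eq, abs_lt]
      constructor <;> linarith)
    have l1 := R1 (1 - δ) (by linarith) (by linarith)
    filter_upwards [(Metric.tendsto_nhds.1 l1) (ε / 4) (by linarith), A 1 one_pos, hDc, hD0]
      with T t1 t2 hcT h0
    rw [Real.dist_eq] at t1 ⊢
    have k1 := Jt_mono hcT h0 (show 0 ≤ 1 - δ by linarith) (show 1 - δ ≤ 1 by linarith)
    have k2 := (jt_diff hcT h0 (show 0 ≤ 1 - δ by linarith) (show 1 - δ ≤ 1 by linarith)).2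
    have k3 : 2 * (1 - (1 - δ)) * (∫ α in (0 : ℝ)..1, D T α) ≤ 2 * δ * (c + 1) := by
      have : 2 * (1 - (1 - δ)) = 2 * δ := by ring
      rw [this]
      exact mul_le_mul_of_nonneg_left t2 (by linarith)
    have t1' := abs_lt.1 t1
    have hd' := abs_lt.1 hd
    rw [abs_lt]
    constructor <;> linarith
  -- the windows
  have W := fun (R ε : ℝ) (hε : 0 < ε) => unif_win hc hDc hD0 R3 R (ε := ε) hε
  have addI : ∀ {g : ℝ → ℝ}, Continuous g → ∀ x y : ℝ, (∫ α in (0 : ℝ)..y, g α) =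
      (∫ α in (0 : ℝ)..x, g α) + ∫ α in x..y, g α := fun hg x y =>
    (intervalIntegral.integral_add_adjacent_intervals (hg.intervalIntegrable _ _)
      (hg.intervalIntegrable _ _)).symm
  have contG : ∀ {g : ℝ → ℝ}, Continuous g → Continuous fun t => ∫ α in (0 : ℝ)..t, g α :=
    fun hg => intervalIntegral.continuous_primitive (fun a b => hg.intervalIntegrable a b) 0
  -- the increments above
  have U : ∀ {g : ℝ → ℝ}, Continuous g → ∀ x y e : ℝ, x ≤ y →
      (∀ t, x ≤ t → t ≤ y → ∫ α in x..t, g α ≤ c * (t - x) + e) →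
      Jt g y - Jt g x ≤ 2 * (y - x) * ((∫ α in (0 : ℝ)..x, g α) + e) + c * (y - x) ^ 2 := by
    intro g hg x y e hxy ht
    rw [Jt_int hg]
    have h1 : ∫ t in x..y, (∫ α in (0 : ℝ)..t, g α) ≤
        ∫ t in x..y, (((∫ α in (0 : ℝ)..x, g α) + e - c * x) + c * t) := by
      refine intervalIntegral.integral_mono_on hxy ((contG hg).intervalIntegrable _ _)
        ((by fun_prop : Continuous fun t : ℝ =>
          (((∫ α in (0 : ℝ)..x, g α) + e - c * x) + c * t)).intervalIntegrable _ _)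
        fun t htt => ?_
      rw [addI hg x t]
      have := ht t htt.1 htt.2
      linarith
    rw [lin_int] at h1
    linarith
  -- the increments below
  have V : ∀ {g : ℝ → ℝ}, Continuous g → ∀ x y e : ℝ, x ≤ y →
      (∀ t, x ≤ t → t ≤ y → ∫ α in t..y, g α ≤ c * (y - t) + e) →
      2 * (y - x) * ((∫ α in (0 : ℝ)..y, g α) - e) - c * (y - x) ^ 2 ≤ Jt g y - Jt g x := by
    intro g hg x y e hxy ht
    rw [Jt_int hg]
    have h1 : ∫ t in x..y, (((∫ α in (0 : ℝ)..y, g α) - e - c * y) + c * t) ≤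
        ∫ t in x..y, (∫ α in (0 : ℝ)..t, g α) := by
      refine intervalIntegral.integral_mono_on hxy
        ((by fun_prop : Continuous fun t : ℝ =>
          (((∫ α in (0 : ℝ)..y, g α) - e - c * y) + c * t)).intervalIntegrable _ _)
        ((contG hg).intervalIntegrable _ _) fun t htt => ?_
      have h2 := addI hg t y
      have := ht t htt.1 htt.2
      linarith
    rw [lin_int] at h1
    linarith
  have PG1 : PG 1 = 4 / 3 := by rw [PG_le le_rfl]; norm_num
  -- the upper bound beyond one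
  have Up : ∀ h : ℝ, 1 < h → ∀ ε : ℝ, 0 < ε → ∀ᶠ T in atTop, Jt (D T) h ≤ c * PG h + ε := by
    intro h h1 ε hε
    obtain ⟨e, he⟩ : ∃ e : ℝ, e = ε / (2 + 4 * (h - 1)) := ⟨_, rfl⟩
    have hden : 0 < 2 + 4 * (h - 1) := by linarith
    have he0 : 0 < e := by rw [he]; positivity
    have he1 : e * (2 + 4 * (h - 1)) = ε := by rw [he]; field_simp
    filter_upwards [(Metric.tendsto_nhds.1 B) e he0, A e he0, W h e he0, hDc, hD0]
      with T t1 t2 t3 hcT h0
    rw [Real.dist_eq] at t1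
    have t1' := abs_lt.1 t1
    have k1 := U hcT 1 h e h1.le fun t ht1 ht2 => t3 1 t le_rfl ht1 ht2
    rw [PG1] at t1'
    rw [PG_ge h1.le]
    have k2 : 2 * (h - 1) * ((∫ α in (0 : ℝ)..1, D T α) + e) ≤ 2 * (h - 1) * (c + e + e) :=
      mul_le_mul_of_nonneg_left (by linarith) (by linarith)
    nlinarith
  -- the lower bound beyond one
  have Lo : ∀ h : ℝ, 1 < h → ∀ ε : ℝ, 0 < ε → ∀ᶠ T in atTop, c * PG h - ε ≤ Jt (D T) h := by
    intro h h1 ε hε
    have hP := PG_pos (show 0 < h by linarith)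
    obtain ⟨Uu, hUu⟩ : ∃ Uu : ℝ, Uu = c * PG h + 1 := ⟨_, rfl⟩
    have hU0 : 0 < Uu := by rw [hUu]; positivity
    obtain ⟨k, hk⟩ : ∃ k : ℝ, k = min 1 (ε / (2 * Uu)) := ⟨_, rfl⟩
    have hk0 : 0 < k := by rw [hk]; exact lt_min one_pos (by positivity)
    have hk1 : k ≤ 1 := by rw [hk]; exact min_le_left _ _
    have hk2 : k * Uu ≤ ε / 2 := by
      have : k ≤ ε / (2 * Uu) := by rw [hk]; exact min_le_right _ _
      rw [le_div_iff₀ (by positivity)] at this
      linarith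
    obtain ⟨R, hR⟩ : ∃ R : ℝ, R = h + (h - 1) / k := ⟨_, rfl⟩
    have hRh : R - h = (h - 1) / k := by rw [hR]; ring
    have hRh0 : 0 < R - h := by
      rw [hRh]
      exact div_pos (by linarith) hk0
    have hkR : k * (R - h) = h - 1 := by
      rw [hRh]
      field_simp
    obtain ⟨e, he⟩ : ∃ e : ℝ, e = ε / (2 * (2 + 4 * (h - 1))) := ⟨_, rfl⟩
    have hden : 0 < 2 + 4 * (h - 1) := by linarith
    have he0 : 0 < e := by rw [he]; positivity
    have he1 : e * (2 + 4 * (h - 1)) = ε / 2 := by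
      rw [he]
      field_simp
    filter_upwards [(Metric.tendsto_nhds.1 B) e he0, Up h h1 1 one_pos, W R e he0,
      R2 R (by linarith) e he0, hDc, hD0] with T t1 t2 t3 t4 hcT h0
    rw [Real.dist_eq] at t1
    have t1' := abs_lt.1 t1
    rw [PG1] at t1'
    have k1 := U hcT h R e (by linarith) fun t ht1 ht2 => t3 h t h1.le ht1 ht2
    have k2 := V hcT 1 h e h1.le fun t ht1 ht2 => t3 t h ht1 ht2 (by linarith)
    rw [PG_ge h1.le]
    obtain ⟨G, hG⟩ : ∃ G : ℝ, G = ∫ α in (0 : ℝ)..h, D T α := ⟨_, rfl⟩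
    rw [← hG] at k1 k2
    rw [← hUu] at t2
    -- k * (increment over [h, R])
    have k3 : k * (c * R ^ 2 - e - Jt (D T) h - c * (R - h) ^ 2) ≤ 2 * (h - 1) * (G + e) := by
      have k4 : c * R ^ 2 - e - Jt (D T) h - c * (R - h) ^ 2 ≤ 2 * (R - h) * (G + e) := by
        linarith
      calc k * (c * R ^ 2 - e - Jt (D T) h - c * (R - h) ^ 2) ≤ k * (2 * (R - h) * (G + e)) :=
            mul_le_mul_of_nonneg_left k4 hk0.le
        _ = 2 * (k * (R - h)) * (G + e) := by ring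
        _ = _ := by rw [hkR]
    have k5 : 2 * h * (h - 1) ≤ k * (R ^ 2 - (R - h) ^ 2) := by
      have : k * (R ^ 2 - (R - h) ^ 2) = k * (R - h) * (2 * h) + k * h ^ 2 := by ring
      rw [this, hkR]
      have : 0 ≤ k * h ^ 2 := by positivity
      linarith
    have k6 := mul_le_mul_of_nonneg_left k5 hc.le
    have k7 : k * Jt (D T) h ≤ ε / 2 :=
      (mul_le_mul_of_nonneg_left t2 hk0.le).trans hk2
    have k8 : k * e ≤ e := by nlinarith
    nlinarith
  rcases lt_trichotomy h 1 with h1 | h1 | h1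
  · exact R1 h hh h1
  · rw [h1]
    exact B
  · rw [Metric.tendsto_nhds]
    intro ε hε
    filter_upwards [Up h h1 (ε / 2) (by linarith), Lo h h1 (ε / 2) (by linarith)] with T t1 t2
    rw [Real.dist_eq, abs_lt]
    constructor <;> linarith

end Pool.Agent.NH10.GM
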