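import Pool.Agent.NH10.GM.PT

/-! # Sums over pairs of zeros with weight `1 / (1 + (γ - γ')²)` -/

set_option autoImplicit false
set_option maxHeartbeats 4000000

open MeasureTheory Set Filter Topology

namespace Pool.Agent.NH10.GM

open Pool.Agent.Y749.Rig

/-- sums over pairs of zeros -/
noncomputable def SPair (y : ℝ) (f : ℂ → ℂ → ℝ) : ℝ :=
  ∑ s ∈ ZZ y, ∑ s' ∈ ZZ y, mm s * mm s' * f s s'

lemma SPair_mono {y y' : ℝ} (h : y ≤ y') {f : ℂ → ℂ → ℝ} (hf : ∀ s s', 0 ≤ f s s') :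
    SPair y f ≤ SPair y' f := by
  unfold SPair
  have hn : ∀ s s' : ℂ, 0 ≤ mm s * mm s' * f s s' := fun s s' =>
    mul_nonneg (mul_nonneg (mm_nonneg _) (mm_nonneg _)) (hf s s')
  refine (Finset.sum_le_sum fun s _ => Finset.sum_le_sum_of_subset_of_nonneg (ZZ_mono h)
    fun s' _ _ => hn s s').trans ?_
  exact Finset.sum_le_sum_of_subset_of_nonneg (ZZ_mono h) fun s _ _ =>
    Finset.sum_nonneg fun s' _ => hn s s'

lemma SPair_nonneg (y : ℝ) {f : ℂ → ℂ → ℝ} (hf : ∀ s s', 0 ≤ f s s') : 0 ≤ SPair y f :=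
  Finset.sum_nonneg fun _ _ => Finset.sum_nonneg fun _ _ =>
    mul_nonneg (mul_nonneg (mm_nonneg _) (mm_nonneg _)) (hf _ _)

/-- the weight -/
noncomputable def wq (s s' : ℂ) : ℝ := 1 / (1 + (s.im - s'.im) ^ 2)

lemma wq_nonneg (s s' : ℂ) : 0 ≤ wq s s' := by unfold wq; positivity

lemma row0 : ∃ C : ℝ, 0 < C ∧ ∀ y : ℝ, 10 ≤ y →
    SPair y wq ≤ C * (y * Real.log y ^ 2) := by
  obtain ⟨C, hC, h⟩ := sup_fw
  have hW0 : 0 ≤ W0 := tsum_nonneg fun k => by positivity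
  refine ⟨W0 * (2 * (C ^ 2 * 3)) + 1, by positivity, fun y hy => ?_⟩
  have hL := one_lt_log (show 3 ≤ y by linarith)
  obtain ⟨Y, hY⟩ : ∃ Y : ℝ, Y = (C * Real.log y) ^ 2 * (y + 2) := ⟨_, rfl⟩
  have hY0 : 0 ≤ Y := by rw [hY]; positivity
  have h1 : ∫⁻ t, ENNReal.ofReal (fw (ZZ y) mm 2 t ^ 2) ≤ ENNReal.ofReal Y := by
    have h2 : ∀ t : ℝ, ENNReal.ofReal (fw (ZZ y) mm 2 t ^ 2) ≤
        (Icc (-1 : ℝ) (y + 1)).indicator (fun _ => ENNReal.ofReal ((C * Real.log y) ^ 2)) t := by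
      intro t
      have hfn : 0 ≤ fw (ZZ y) mm 2 t := Finset.sum_nonneg fun s _ => mm_nonneg s
      by_cases ht : t ∈ Icc (-1 : ℝ) (y + 1)
      · rw [indicator_of_mem ht]
        exact ENNReal.ofReal_le_ofReal (pow_le_pow_left₀ hfn (h y hy 2 (by norm_num) t) 2)
      · rw [indicator_of_notMem ht]
        have : fw (ZZ y) mm 2 t = 0 := by
          unfold fw
          apply Finset.sum_eq_zero
          intro s hs
          exfalso
          rw [Finset.mem_filter, mem_ZZ] at hs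
          obtain ⟨⟨h1, h2, h3, h4, h5⟩, h6⟩ := hs
          have := abs_le.1 h6
          exact ht ⟨by linarith, by linarith⟩
        rw [this]
        simp
    refine (lintegral_mono h2).trans ?_
    rw [lintegral_indicator_const measurableSet_Icc, Real.volume_Icc,
      ← ENNReal.ofReal_mul (by positivity), hY]
    apply ENNReal.ofReal_le_ofReal
    have : y + 1 - -1 = y + 2 := by ring
    rw [this]
  have h2 := est_all (A := ZZ y) (B := ZZ y) (a := mm) (b := mm) (L := 2) (by norm_num) hY0 hY0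
    mm_nonneg mm_nonneg h1 h1
  have h3 : SPair y wq ≤ ∑ s ∈ ZZ y, ∑ s' ∈ ZZ y, mm s * mm s' *
      (1 / (1 + ((s.im - s'.im) * 2 / (2 * Real.pi)) ^ 2)) := by
    unfold SPair
    refine Finset.sum_le_sum fun s _ => Finset.sum_le_sum fun s' _ => ?_
    refine mul_le_mul_of_nonneg_left ?_ (mul_nonneg (mm_nonneg _) (mm_nonneg _))
    unfold wq
    have hpi := Real.pi_gt_three
    have h4 : ((s.im - s'.im) * 2 / (2 * Real.pi)) ^ 2 ≤ (s.im - s'.im) ^ 2 := by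
      have e : (s.im - s'.im) * 2 / (2 * Real.pi) = (s.im - s'.im) / Real.pi := by
        field_simp
      rw [e, div_pow]
      apply div_le_self (sq_nonneg _)
      nlinarith
    gcongr
  rw [mul_assoc, Real.mul_self_sqrt hY0] at h2
  refine (h3.trans h2).trans ?_
  have h4 : Y ≤ C ^ 2 * 3 * (y * Real.log y ^ 2) := by
    rw [hY]
    have : (C * Real.log y) ^ 2 * (y + 2) ≤ (C * Real.log y) ^ 2 * (3 * y) := by
      gcongr
      linarith
    calc _ ≤ _ := this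
      _ = _ := by ring
  have h5 : 0 ≤ y * Real.log y ^ 2 := by positivity
  calc W0 * (2 * Y) ≤ W0 * (2 * (C ^ 2 * 3 * (y * Real.log y ^ 2))) := by gcongr
    _ = W0 * (2 * (C ^ 2 * 3)) * (y * Real.log y ^ 2) := by ring
    _ ≤ _ := by nlinarith

/-- **row bound** -/
theorem row_bound : ∃ C : ℝ, 0 < C ∧ ∀ y : ℝ, 0 ≤ y →
    SPair y wq ≤ C * ((y + 10) * Real.log (y + 10) ^ 2) := by
  obtain ⟨C, hC, h⟩ := row0
  refine ⟨C, hC, fun y hy => ?_⟩
  exact (SPair_mono (by linarith) wq_nonneg).trans (h (y + 10) (by linarith))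

/-- the smallest ordinate -/
lemma low_ord : ∃ g : ℝ, 0 < g ∧ g ≤ 1 ∧ ∀ y : ℝ, ∀ s ∈ ZZ y, g ≤ s.im := by
  classical
  by_cases hne : (ZZ 1).Nonempty
  · obtain ⟨s₀, hs₀, hmin⟩ := (ZZ 1).exists_min_image (fun s => s.im) hne
    have h0 : 0 < s₀.im := by
      rw [mem_ZZ] at hs₀
      exact zs_im_pos hs₀
    refine ⟨min s₀.im 1, lt_min h0 one_pos, min_le_right _ _, fun y s hs => ?_⟩
    rcases le_or_gt s.im 1 with h1 | h1
    · refine (min_le_left _ _).trans (hmin s ?_)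
      rw [mem_ZZ] at hs ⊢
      exact ⟨hs.1, hs.2.1, hs.2.2.1, hs.2.2.2.1, h1⟩
    · exact (min_le_right _ _).trans h1.le
  · refine ⟨1, one_pos, le_rfl, fun y s hs => ?_⟩
    by_contra hcon
    push Not at hcon
    apply hne
    refine ⟨s, ?_⟩
    rw [mem_ZZ] at hs ⊢
    exact ⟨hs.1, hs.2.1, hs.2.2.1, hs.2.2.2.1, hcon.le⟩

end Pool.Agent.NH10.GM
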