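import Pool.Agent.NH10.GM.Win

/-! # The change of variables -/

set_option autoImplicit false
set_option maxHeartbeats 4000000

open Filter Topology Set MeasureTheory ArithmeticFunction

namespace Pool.Agent.NH10.GM

open Pool.Agent.Y749.Rig

/-- the Gaussian sum of the primes around `x`, minus its expected value -/
noncomputable def VV (T x : ℝ) : ℝ :=
  (∑' n : ℕ, vonMangoldt n * Real.exp (-(T ^ 2 / 2 * Real.log (n / x) ^ 2))) -
    ∫ v in Ioi (0 : ℝ), Real.exp (-(T ^ 2 / 2 * Real.log (v / x) ^ 2))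

lemma gauss_log {T x : ℝ} (hT : 0 < T) (hx : 0 < x) :
    ∫ v in Ioi (0 : ℝ), Real.exp (-(T ^ 2 / 2 * Real.log (v / x) ^ 2)) =
      Real.sqrt (2 * Real.pi) / T * x * Real.exp (1 / (2 * T ^ 2)) := by
  have himg : (fun y => x * Real.exp y) '' univ = Ioi (0 : ℝ) := by
    ext v
    constructor
    · rintro ⟨y, _, rfl⟩
      exact mul_pos hx (Real.exp_pos y)
    · intro hv
      have hv0 : 0 < v := hv
      refine ⟨Real.log (v / x), mem_univ _, ?_⟩
      show x * Real.exp (Real.log (v / x)) = v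
      rw [Real.exp_log (by positivity)]
      field_simp
  have h1 := integral_image_eq_integral_abs_deriv_smul (s := univ) (f := fun y => x * Real.exp y)
    (f' := fun y => x * Real.exp y) MeasurableSet.univ
    (fun y _ => ((Real.hasDerivAt_exp y).const_mul x).hasDerivWithinAt)
    (fun y _ z _ h => by
      have h2 : x * Real.exp y = x * Real.exp z := h
      exact Real.exp_injective (mul_left_cancel₀ hx.ne' h2))
    (fun v => Real.exp (-(T ^ 2 / 2 * Real.log (v / x) ^ 2)))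
  rw [himg] at h1
  rw [h1, setIntegral_univ]
  have h2 : ∀ y : ℝ, |x * Real.exp y| • Real.exp (-(T ^ 2 / 2 * Real.log (x * Real.exp y / x) ^ 2)) =
      x * Real.exp (1 / (2 * T ^ 2)) * Real.exp (-(T ^ 2 / 2) * (y - 1 / T ^ 2) ^ 2) := by
    intro y
    rw [abs_of_pos (by positivity), smul_eq_mul, mul_div_assoc]
    have e : x * (Real.exp y / x) = Real.exp y := by field_simp
    rw [e, Real.log_exp, mul_assoc, mul_assoc, ← Real.exp_add, ← Real.exp_add]
    congr 2
    field_simp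
    ring
  simp_rw [h2]
  rw [integral_const_mul, H370.gauss_val]
  have e : Real.sqrt (Real.pi / (T ^ 2 / 2)) = Real.sqrt (2 * Real.pi) / T := by
    have : Real.pi / (T ^ 2 / 2) = 2 * Real.pi / T ^ 2 := by field_simp
    rw [this, Real.sqrt_div (by positivity), Real.sqrt_sq hT.le]
  rw [e]
  ring

lemma VV_eq {T x : ℝ} (hT : 0 < T) (hx : 0 < x) : VV T x =
    Real.exp (Real.log x / 2 + 1 / (8 * T ^ 2)) * Vs T (Real.log x + 1 / (2 * T ^ 2)) := by
  obtain ⟨v, hv⟩ : ∃ v : ℝ, v = Real.log x := ⟨_, rfl⟩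
  have hxv : x = Real.exp v := by rw [hv, Real.exp_log hx]
  rw [← hv]
  unfold VV
  rw [gauss_log hT hx, Vs_eq, mul_sub]
  congr 1
  · unfold SM
    rw [← tsum_mul_left]
    congr 1
    funext n
    rcases Nat.eq_zero_or_pos n with h0 | h0
    · subst h0
      simp [al]
    · have hn0 : (0 : ℝ) < n := by exact_mod_cast h0
      rw [lw_eq hT]
      have e1 : (Real.sqrt n)⁻¹ = Real.exp (-(Real.log n / 2)) := by
        rw [Real.sqrt_eq_rpow, Real.rpow_def_of_pos hn0, ← Real.exp_neg]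
        congr 1
        ring
      unfold al
      rw [e1, Real.log_div hn0.ne' hx.ne', ← hv]
      have e2 : Real.exp (v / 2 + 1 / (8 * T ^ 2)) * (vonMangoldt n *
          Real.exp (-(Real.log n / 2)) *
          Real.exp (-(T ^ 2 * (v + 1 / (2 * T ^ 2) - Real.log n) ^ 2 / 2))) =
          vonMangoldt n * (Real.exp (v / 2 + 1 / (8 * T ^ 2)) * Real.exp (-(Real.log n / 2)) *
          Real.exp (-(T ^ 2 * (v + 1 / (2 * T ^ 2) - Real.log n) ^ 2 / 2))) := by ring
      rw [e2, ← Real.exp_add, ← Real.exp_add]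
      congr 2
      field_simp
      ring
  · rw [hxv]
    have e3 : Real.exp (v / 2 + 1 / (8 * T ^ 2)) * (Real.sqrt (2 * Real.pi) / T *
        Real.exp ((v + 1 / (2 * T ^ 2)) / 2 + 1 / (8 * T ^ 2))) = Real.sqrt (2 * Real.pi) / T *
        (Real.exp (v / 2 + 1 / (8 * T ^ 2)) *
        Real.exp ((v + 1 / (2 * T ^ 2)) / 2 + 1 / (8 * T ^ 2))) := by ring
    rw [e3, mul_assoc, ← Real.exp_add, ← Real.exp_add]
    congr 2
    field_simp
    ring

/-- the normalised mean square over a window -/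
noncomputable def JV (T a b : ℝ) : ℝ :=
  T / Real.log T ^ 2 * ∫ x in (T ^ a)..(T ^ b), VV T x ^ 2 / x ^ 2

lemma JV_eq {T : ℝ} (hT : 1 < T) (a b : ℝ) : JV T a b = Real.exp (1 / (4 * T ^ 2)) *
    ∫ α in (a + 1 / (2 * T ^ 2) / Real.log T)..(b + 1 / (2 * T ^ 2) / Real.log T), Vn T α := by
  have hT0 : 0 < T := by linarith
  have hL := Real.log_pos hT
  have hpos : ∀ x ∈ uIcc (T ^ a) (T ^ b), 0 < x := by
    intro x hx
    exact (lt_min (Real.rpow_pos_of_pos hT0 a) (Real.rpow_pos_of_pos hT0 b)).trans_le hx.1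
  have h1 : ∫ x in (T ^ a)..(T ^ b), VV T x ^ 2 / x ^ 2 =
      ∫ x in (T ^ a)..(T ^ b), Real.exp (1 / (4 * T ^ 2)) *
        (((fun v => Vs T (v + 1 / (2 * T ^ 2)) ^ 2) ∘ Real.log) x * x⁻¹) := by
    refine intervalIntegral.integral_congr fun x hx => ?_
    have hx0 := hpos x hx
    show VV T x ^ 2 / x ^ 2 = Real.exp (1 / (4 * T ^ 2)) *
      (Vs T (Real.log x + 1 / (2 * T ^ 2)) ^ 2 * x⁻¹)
    rw [VV_eq hT0 hx0, mul_pow, ← Real.exp_nat_mul]
    have e : Real.exp (((2 : ℕ) : ℝ) * (Real.log x / 2 + 1 / (8 * T ^ 2))) =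
        x * Real.exp (1 / (4 * T ^ 2)) := by
      rw [← Real.exp_log hx0, ← Real.exp_add, Real.exp_log hx0]
      congr 1
      push_cast
      field_simp
      ring
    rw [e]
    field_simp
  have hc : Continuous fun v => Vs T (v + 1 / (2 * T ^ 2)) ^ 2 :=
    ((Vs_cont hT0).comp (continuous_add_const _)).pow 2
  have h2 := intervalIntegral.integral_comp_mul_deriv (a := T ^ a) (b := T ^ b) (f := Real.log)
    (f' := fun x => x⁻¹) (g := fun v => Vs T (v + 1 / (2 * T ^ 2)) ^ 2)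
    (fun x hx => Real.hasDerivAt_log (hpos x hx).ne')
    (ContinuousOn.inv₀ continuousOn_id fun x hx => (hpos x hx).ne') hc
  unfold JV
  rw [h1, intervalIntegral.integral_const_mul, h2, Real.log_rpow hT0, Real.log_rpow hT0,
    intervalIntegral.integral_comp_add_right (fun u => Vs T u ^ 2), Vn_int hT]
  have e1 : (a + 1 / (2 * T ^ 2) / Real.log T) * Real.log T = a * Real.log T + 1 / (2 * T ^ 2) := by
    field_simp
  have e2 : (b + 1 / (2 * T ^ 2) / Real.log T) * Real.log T = b * Real.log T + 1 / (2 * T ^ 2) := by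
    field_simp
  rw [e1, e2]
  ring

/-- the shift of the window is small -/
lemma shift_small {δ : ℝ} (hδ : 0 < δ) : ∀ᶠ T : ℝ in atTop,
    0 ≤ 1 / (2 * T ^ 2) / Real.log T ∧ 1 / (2 * T ^ 2) / Real.log T ≤ δ := by
  filter_upwards [eventually_ge_atTop 10, eventually_ge_atTop (1 / δ)] with T hT hTd
  have hT0 : 0 < T := by linarith
  have hL := one_lt_log (show 3 ≤ T by linarith)
  refine ⟨by positivity, ?_⟩
  have h1 : 1 / (2 * T ^ 2) / Real.log T ≤ 1 / (2 * T ^ 2) := by
    rw [div_le_iff₀ (by linarith)]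
    have : 0 < 1 / (2 * T ^ 2) := by positivity
    nlinarith
  refine h1.trans ?_
  rw [div_le_iff₀ (by positivity)]
  rw [div_le_iff₀ hδ] at hTd
  nlinarith

lemma exp_small {η : ℝ} (hη : 0 < η) : ∀ᶠ T : ℝ in atTop,
    1 ≤ Real.exp (1 / (4 * T ^ 2)) ∧ Real.exp (1 / (4 * T ^ 2)) ≤ 1 + η := by
  have h1 : Tendsto (fun T : ℝ => 1 / (4 * T ^ 2)) atTop (𝓝 0) := by
    have h2 : Tendsto (fun T : ℝ => 4 * T ^ 2) atTop atTop :=
      (tendsto_pow_atTop two_ne_zero).const_mul_atTop (by norm_num)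
    exact Tendsto.div_atTop tendsto_const_nhds h2
  have h3 := (Real.continuous_exp.tendsto 0).comp h1
  rw [Real.exp_zero] at h3
  filter_upwards [h3.eventually (ge_mem_nhds (show 1 < 1 + η by linarith)),
    eventually_gt_atTop 0] with T h4 hT
  exact ⟨Real.one_le_exp (by positivity), h4⟩

end Pool.Agent.NH10.GM
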