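import Pool.Agent.NH10.GM.Near2
import Pool.Agent.NH10.GM.Rigid
import Pool.Agent.NH10.GM.Demix

/-! # From the zeros to the primes -/

set_option autoImplicit false
set_option maxHeartbeats 4000000

open Filter Topology Set MeasureTheory ArithmeticFunction

namespace Pool.Agent.NH10.GM

open Pool.Agent.Y749.Rig

/-- the normalised square of the prime side -/
noncomputable def Vn (T α : ℝ) : ℝ := T / Real.log T * Vs T (α * Real.log T) ^ 2

lemma Vn_cont {T : ℝ} (hT : 0 < T) : Continuous (Vn T) := by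
  unfold Vn
  have h := Vs_cont hT
  exact continuous_const.mul ((h.comp (by fun_prop)).pow 2)

lemma Vn_nonneg {T : ℝ} (hT : 1 ≤ T) (α : ℝ) : 0 ≤ Vn T α := by
  unfold Vn
  have := Real.log_nonneg hT
  positivity

lemma Vn_int {T : ℝ} (hT : 1 < T) (a b : ℝ) : ∫ α in a..b, Vn T α =
    T / Real.log T ^ 2 * ∫ u in (a * Real.log T)..(b * Real.log T), Vs T u ^ 2 := by
  have hL := Real.log_pos hT
  unfold Vn
  rw [intervalIntegral.integral_const_mul,
    intervalIntegral.integral_comp_mul_right (fun u => Vs T u ^ 2) hL.ne', smul_eq_mul]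
  field_simp

variable {Y : ℝ → ℝ}

/-- the explicit formula, as a property of the heights -/
def EFp (Y : ℝ → ℝ) : Prop := ∀ B : ℝ, 0 ≤ B → ∃ C T₀ : ℝ, 0 < C ∧ 10 ≤ T₀ ∧
    ∀ T : ℝ, T₀ ≤ T → ∀ u : ℝ, 0 ≤ u → u ≤ B * Real.log T →
      |Zr T (Y T) u + T / Real.sqrt (2 * Real.pi) * Vs T u| ≤
        C * (Real.exp (-u) * (T * Real.log T) + 1)

lemma sq_cmp {x w e η : ℝ} (hη : 0 < η) (h : x + w = e) :
    x ^ 2 ≤ (1 + η) * w ^ 2 + (1 + 1 / η) * e ^ 2 ∧
    w ^ 2 ≤ (1 + η) * x ^ 2 + (1 + 1 / η) * e ^ 2 := by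
  have hq : η * (1 / η) = 1 := by field_simp
  have key : ∀ p q : ℝ, -(2 * p * q) ≤ η * p ^ 2 + 1 / η * q ^ 2 := by
    intro p q
    have h1 : 0 ≤ 1 / η * (η * p + q) ^ 2 := by positivity
    have h2 : 1 / η * (η * p + q) ^ 2 = η * p ^ 2 + 2 * p * q + 1 / η * q ^ 2 := by
      field_simp
      ring
    linarith
  constructor
  · have e1 : x = e - w := by linarith
    rw [e1]
    nlinarith [key w e]
  · have e1 : w = e - x := by linarith
    rw [e1]
    nlinarith [key x e]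

lemma compare (hE : EFp Y) {b : ℝ} (hb : 0 ≤ b) {η ε : ℝ} (hη : 0 < η) (hε : 0 < ε) :
    ∀ᶠ T in atTop, ∀ α ∈ Icc (3 / 4 : ℝ) b, Dz T (Y T) α ≤ (1 + η) * Vn T α + ε ∧
      Vn T α ≤ (1 + η) * Dz T (Y T) α + ε := by
  obtain ⟨C, T₀, hC, hT₀, hEF⟩ := hE b hb
  have hpi := Real.pi_pos
  obtain ⟨K, hK⟩ : ∃ K : ℝ, K = (1 + 1 / η) * (64 * Real.pi * C ^ 2) := ⟨_, rfl⟩
  have hK0 : 0 < K := by rw [hK]; positivity
  filter_upwards [eventually_ge_atTop T₀,
    Real.tendsto_log_atTop.eventually_ge_atTop (4 + K / ε)] with T hT hLL α hα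
  have hT10 : 10 ≤ T := hT₀.trans hT
  have hT0 : 0 < T := by linarith
  obtain ⟨L, hLe⟩ : ∃ L : ℝ, L = Real.log T := ⟨_, rfl⟩
  rw [← hLe] at hLL
  have hq : 0 ≤ K / ε := by positivity
  have hL4 : 4 ≤ L := by linarith
  have hL0 : 0 < L := by linarith
  have hexpL : Real.exp L = T := by rw [hLe]; exact Real.exp_log hT0
  have hu0 : 0 ≤ α * L := mul_nonneg (by linarith [hα.1]) hL0.le
  have hub : α * L ≤ b * L := mul_le_mul_of_nonneg_right hα.2 hL0.le
  have h1 := hEF T hT (α * L) hu0 (by rw [← hLe]; exact hub)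
  rw [← hLe] at h1
  obtain ⟨e, he⟩ : ∃ e : ℝ, e = Zr T (Y T) (α * L) + T / Real.sqrt (2 * Real.pi) *
    Vs T (α * L) := ⟨_, rfl⟩
  rw [← he] at h1
  obtain ⟨k1, k2⟩ := sq_cmp hη he.symm
  -- the size of the error
  have h2 : Real.exp (-(α * L)) * (T * L) + 1 ≤ 2 * (Real.exp (L / 4) * L) := by
    have h3 : Real.exp (-(α * L)) * T ≤ Real.exp (L / 4) := by
      have h3' : Real.exp (-(α * L)) * T = Real.exp (-(α * L)) * Real.exp L := by rw [hexpL]
      rw [h3', ← Real.exp_add]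
      apply Real.exp_le_exp.2
      have := mul_le_mul_of_nonneg_right hα.1 hL0.le
      linarith
    have h4 : 1 ≤ Real.exp (L / 4) := Real.one_le_exp (by linarith)
    have h5 : Real.exp (-(α * L)) * (T * L) ≤ Real.exp (L / 4) * L := by
      calc Real.exp (-(α * L)) * (T * L) = Real.exp (-(α * L)) * T * L := by ring
        _ ≤ _ := mul_le_mul_of_nonneg_right h3 hL0.le
    nlinarith
  have h6 : e ^ 2 ≤ C ^ 2 * (4 * (Real.exp (L / 2) * L ^ 2)) := by
    have h7 : |e| ≤ C * (2 * (Real.exp (L / 4) * L)) :=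
      h1.trans (mul_le_mul_of_nonneg_left h2 hC.le)
    have h8 : e ^ 2 ≤ (C * (2 * (Real.exp (L / 4) * L))) ^ 2 := by
      rw [← sq_abs]
      exact pow_le_pow_left₀ (abs_nonneg e) h7 2
    have h9 : Real.exp (L / 2) = Real.exp (L / 4) ^ 2 := by
      rw [← Real.exp_nat_mul]; congr 1; push_cast; ring
    rw [h9]
    refine h8.trans (le_of_eq ?_)
    ring
  have h10 : 2 * Real.pi / (T * L) * ((1 + 1 / η) * e ^ 2) ≤ ε := by
    have hexp2 : Real.exp (L / 2) * Real.exp (L / 2) = T := by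
      rw [← Real.exp_add, ← hexpL]; congr 1; ring
    have h11 : L ^ 2 / 8 ≤ Real.exp (L / 2) := by
      have := Real.quadratic_le_exp_of_nonneg (show 0 ≤ L / 2 by linarith)
      nlinarith
    have hE0 := Real.exp_pos (L / 2)
    calc 2 * Real.pi / (T * L) * ((1 + 1 / η) * e ^ 2) ≤
          2 * Real.pi / (T * L) * ((1 + 1 / η) * (C ^ 2 * (4 * (Real.exp (L / 2) * L ^ 2)))) := by
          gcongr
      _ = (1 + 1 / η) * (8 * Real.pi * C ^ 2) * (L / Real.exp (L / 2)) := by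
          rw [← hexp2]
          field_simp
          ring
      _ ≤ (1 + 1 / η) * (8 * Real.pi * C ^ 2) * (8 / L) := by
          have : L / Real.exp (L / 2) ≤ 8 / L := by
            rw [div_le_div_iff₀ hE0 hL0]
            nlinarith
          gcongr
      _ = K / L := by rw [hK]; ring
      _ ≤ ε := by
          rw [div_le_iff₀ hL0]
          have h12 : K / ε ≤ L := by linarith
          rw [div_le_iff₀ hε] at h12
          linarith
  have hκ : 0 ≤ 2 * Real.pi / (T * L) := by positivity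
  have eD : Dz T (Y T) α = 2 * Real.pi / (T * L) * Zr T (Y T) (α * L) ^ 2 := by
    unfold Dz
    rw [← hLe]
  have eV : Vn T α = 2 * Real.pi / (T * L) *
      (T / Real.sqrt (2 * Real.pi) * Vs T (α * L)) ^ 2 := by
    unfold Vn
    rw [← hLe, mul_pow, div_pow, Real.sq_sqrt (by positivity)]
    field_simp
  rw [eD, eV]
  constructor
  · have := mul_le_mul_of_nonneg_left k1 hκ
    linarith
  · have := mul_le_mul_of_nonneg_left k2 hκ
    linarith

lemma compare_int (hE : EFp Y) {a b : ℝ} (ha : 3 / 4 ≤ a) (hab : a ≤ b) {η ε : ℝ} (hη : 0 < η)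
    (hε : 0 < ε) : ∀ᶠ T in atTop,
      (∫ α in a..b, Dz T (Y T) α) ≤ (1 + η) * (∫ α in a..b, Vn T α) + ε ∧
      (∫ α in a..b, Vn T α) ≤ (1 + η) * (∫ α in a..b, Dz T (Y T) α) + ε := by
  filter_upwards [compare hE (show 0 ≤ b by linarith) hη
    (show 0 < ε / (b - a + 1) by
      have : 0 < b - a + 1 := by linarith
      positivity), eventually_ge_atTop 10] with T h hT
  have hT0 : 0 < T := by linarith
  have c1 := Dz_cont T (Y T)
  have c2 := Vn_cont hT0
  have hsm : (b - a) * (ε / (b - a + 1)) ≤ ε := by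
    rw [← mul_div_assoc, div_le_iff₀ (by linarith)]
    nlinarith
  have key : ∀ f g : ℝ → ℝ, Continuous f → Continuous g →
      (∀ α ∈ Icc a b, f α ≤ (1 + η) * g α + ε / (b - a + 1)) →
      (∫ α in a..b, f α) ≤ (1 + η) * (∫ α in a..b, g α) + ε := by
    intro f g hf hg hfg
    have h1 : ∫ α in a..b, f α ≤ ∫ α in a..b, ((1 + η) * g α + ε / (b - a + 1)) :=
      intervalIntegral.integral_mono_on hab (hf.intervalIntegrable _ _)
        (((continuous_const.mul hg).add continuous_const).intervalIntegrable _ _) hfg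
    have i1 : IntervalIntegrable (fun α => (1 + η) * g α) volume a b :=
      (continuous_const.mul hg).intervalIntegrable _ _
    rw [intervalIntegral.integral_add i1 (by simp), intervalIntegral.integral_const_mul,
      intervalIntegral.integral_const, smul_eq_mul] at h1
    linarith
  exact ⟨key _ _ c1 c2 fun α hα => (h α ⟨ha.trans hα.1, hα.2⟩).1,
    key _ _ c2 c1 fun α hα => (h α ⟨ha.trans hα.1, hα.2⟩).2⟩

lemma ub_trans {f g : ℝ → ℝ} {c : ℝ} (hc : 0 ≤ c)
    (hcmp : ∀ η : ℝ, 0 < η → ∀ ε : ℝ, 0 < ε → ∀ᶠ T in atTop, f T ≤ (1 + η) * g T + ε)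
    (hg : ∀ ε : ℝ, 0 < ε → ∀ᶠ T in atTop, g T ≤ c + ε) {ε : ℝ} (hε : 0 < ε) :
    ∀ᶠ T in atTop, f T ≤ c + ε := by
  obtain ⟨η, hη⟩ : ∃ η : ℝ, η = min 1 (ε / (4 * (c + 1))) := ⟨_, rfl⟩
  have hη0 : 0 < η := by rw [hη]; exact lt_min one_pos (by positivity)
  have hη1 : η ≤ 1 := by rw [hη]; exact min_le_left _ _
  have hη2 : η * c ≤ ε / 4 := by
    have : η ≤ ε / (4 * (c + 1)) := by rw [hη]; exact min_le_right _ _
    rw [le_div_iff₀ (by positivity)] at this
    nlinarith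
  filter_upwards [hcmp η hη0 (ε / 4) (by linarith), hg (ε / 8) (by linarith)] with T h1 h2
  have h3 : (1 + η) * g T ≤ (1 + η) * (c + ε / 8) := mul_le_mul_of_nonneg_left h2 (by linarith)
  nlinarith

lemma lb_trans {f g : ℝ → ℝ} {c : ℝ} (hc : 0 ≤ c)
    (hcmp : ∀ η : ℝ, 0 < η → ∀ ε : ℝ, 0 < ε → ∀ᶠ T in atTop, g T ≤ (1 + η) * f T + ε)
    (hg : ∀ ε : ℝ, 0 < ε → ∀ᶠ T in atTop, c - ε ≤ g T) {ε : ℝ} (hε : 0 < ε) :
    ∀ᶠ T in atTop, c - ε ≤ f T := by
  obtain ⟨η, hη⟩ : ∃ η : ℝ, η = min 1 (ε / (4 * (c + 1))) := ⟨_, rfl⟩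
  have hη0 : 0 < η := by rw [hη]; exact lt_min one_pos (by positivity)
  have hη1 : η ≤ 1 := by rw [hη]; exact min_le_left _ _
  have hη2 : η * c ≤ ε / 4 := by
    have : η ≤ ε / (4 * (c + 1)) := by rw [hη]; exact min_le_right _ _
    rw [le_div_iff₀ (by positivity)] at this
    nlinarith
  filter_upwards [hcmp η hη0 (ε / 4) (by linarith), hg (ε / 8) (by linarith)] with T h1 h2
  by_contra hcon
  push Not at hcon
  have h3 : (1 + η) * f T < (1 + η) * (c - ε) := mul_lt_mul_of_pos_left hcon (by linarith)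
  nlinarith

end Pool.Agent.NH10.GM
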